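import Pool.Agent.CofSN.Targets

/-!
# MP_3e8648_lc: names of branches (helper45, job CSN-BRA)
-/

set_option autoImplicit false

namespace CofSN

namespace BRA_

variable {P κ : Type} [Preorder P] (f : κ → ℕ) (Lt : List κ → RO P)

/-- the regular set of the leftmost branches (lists are reversed) -/
def Dr : List κ → RO P
  | [] => Lt []
  | a :: l => Dr l ⊓ (Lt (a :: l).reverse ⊓ ⨅ b : κ, ⨅ _ : f b < f a, (Lt (b :: l).reverse)ᶜ)

variable {f Lt}

theorem mem_Dr_cons {a : κ} {l : List κ} {p : P} : p ∈ Dr f Lt (a :: l) ↔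
    p ∈ Dr f Lt l ∧ p ∈ Lt (a :: l).reverse ∧ ∀ b, f b < f a → p ∈ (Lt (b :: l).reverse)ᶜ := by
  have h : p ∈ Dr f Lt (a :: l) ↔ p ∈ Dr f Lt l ∧ p ∈ Lt (a :: l).reverse ∧
      p ∈ ⨅ b : κ, ⨅ _ : f b < f a, (Lt (b :: l).reverse)ᶜ := Iff.rfl
  rw [h]
  simp only [RO.mem_iInf]

theorem Dr_nil (l : List κ) (p : P) (h : p ∈ Dr f Lt l) : p ∈ Lt [] := by
  induction l with
  | nil => exact h
  | cons a l ih => exact ih (mem_Dr_cons.1 h).1

theorem Dr_Lt (l : List κ) (p : P) (h : p ∈ Dr f Lt l) : p ∈ Lt l.reverse := by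
  cases l with
  | nil => exact h
  | cons a l => exact (mem_Dr_cons.1 h).2.1

theorem Dr_step (hL : ∀ σ, Lt σ ≤ ⨆ a, Lt (σ ++ [a])) (l : List κ) (p : P)
    (h : p ∈ Dr f Lt l) : ∃ q ≤ p, ∃ a, q ∈ Dr f Lt (a :: l) := by
  classical
  have h1 : ∃ m : ℕ, ∃ a, f a = m ∧ ∃ q ≤ p, q ∈ Lt (a :: l).reverse := by
    obtain ⟨q, hq, a, ha⟩ := RO.mem_iSup.1 (hL _ p (Dr_Lt l p h)) p le_rfl
    refine ⟨f a, a, rfl, q, hq, ?_⟩
    rw [List.reverse_cons]
    exact ha
  obtain ⟨a, ha, q, hq, hqa⟩ := Nat.find_spec h1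
  refine ⟨q, hq, a, mem_Dr_cons.2 ⟨RO.mem_down h hq, hqa, fun b hb => ?_⟩⟩
  refine RO.mem_compl.2 fun r hr hrb => ?_
  rw [ha] at hb
  exact Nat.find_min h1 hb ⟨b, rfl, r, hr.trans hq, hrb⟩

theorem Dr_len (hL : ∀ σ, Lt σ ≤ ⨆ a, Lt (σ ++ [a])) (n : ℕ) (p : P) (h : p ∈ Lt []) :
    ∃ q ≤ p, ∃ l : List κ, l.length = n ∧ q ∈ Dr f Lt l := by
  induction n with
  | zero => exact ⟨p, le_rfl, [], rfl, h⟩
  | succ n ih =>
    obtain ⟨q, hq, l, hl, hql⟩ := ih
    obtain ⟨r, hr, a, ha⟩ := Dr_step hL l q hql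
    exact ⟨r, hr.trans hq, a :: l, by rw [List.length_cons, hl], ha⟩

theorem Dr_uniq (hf : Function.Injective f) (l l' : List κ) (hl : l.length = l'.length) (p : P)
    (h : p ∈ Dr f Lt l) (h' : p ∈ Dr f Lt l') : l = l' := by
  induction l generalizing l' with
  | nil =>
    rw [List.length_nil] at hl
    exact (List.length_eq_zero_iff.1 hl.symm).symm
  | cons a l ih =>
    cases l' with
    | nil => simp at hl
    | cons a' l' =>
      have h1 := mem_Dr_cons.1 h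
      have h2 := mem_Dr_cons.1 h'
      have e := ih l' (by simpa using hl) h1.1 h2.1
      subst e
      have e : f a = f a' := by
        rcases lt_trichotomy (f a) (f a') with h3 | h3 | h3
        · exact absurd h1.2.1 (RO.mem_compl.1 (h2.2.2 a h3) p le_rfl)
        · exact h3
        · exact absurd h2.2.1 (RO.mem_compl.1 (h1.2.2 a' h3) p le_rfl)
      rw [hf e]

variable (f Lt)

/-- the generators of the values of the name -/
def Gs [Inhabited κ] (n : ℕ) (a : κ) : Set P :=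
  {p | (∃ l : List κ, l.length = n ∧ p ∈ Dr f Lt (a :: l)) ∨ (a = default ∧ p ∈ (Lt [])ᶜ)}

variable {f Lt}

theorem Gs_down [Inhabited κ] {n : ℕ} {a : κ} {p q : P} (h : p ∈ Gs f Lt n a) (hq : q ≤ p) :
    q ∈ Gs f Lt n a := by
  rcases h with ⟨l, hl, h⟩ | ⟨ha, h⟩
  · exact Or.inl ⟨l, hl, RO.mem_down h hq⟩
  · exact Or.inr ⟨ha, RO.mem_down h hq⟩

theorem mem_gen_Gs [Inhabited κ] {n : ℕ} {a : κ} {p : P} :
    p ∈ RO.gen (Gs f Lt n a) ↔ ∀ q ≤ p, ∃ r ≤ q, r ∈ Gs f Lt n a := by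
  constructor
  · intro h q hq
    obtain ⟨r, hr, s, hs, hrs⟩ := RO.mem_gen.1 h q hq
    exact ⟨r, hr, Gs_down hs hrs⟩
  · intro h
    refine RO.mem_gen.2 fun q hq => ?_
    obtain ⟨r, hr, hs⟩ := h q hq
    exact ⟨r, hr, r, hs, le_rfl⟩

theorem of_Gs [Inhabited κ] {n : ℕ} {a : κ} {p : P} (h : p ∈ Gs f Lt n a) :
    p ∈ RO.gen (Gs f Lt n a) :=
  mem_gen_Gs.2 fun q hq => ⟨q, le_rfl, Gs_down h hq⟩

theorem Gs_uniq [Inhabited κ] (hf : Function.Injective f) {n : ℕ} {a b : κ} {p : P}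
    (ha : p ∈ Gs f Lt n a) (hb : p ∈ Gs f Lt n b) : a = b := by
  rcases ha with ⟨l, hl, h⟩ | ⟨ha, h⟩
  · rcases hb with ⟨l', hl', h'⟩ | ⟨hb, h'⟩
    · have e := Dr_uniq hf (a :: l) (b :: l') (by simp [hl, hl']) p h h'
      exact (List.cons.inj e).1
    · exact absurd (Dr_nil _ p h) (RO.mem_compl.1 h' p le_rfl)
  · rcases hb with ⟨l', hl', h'⟩ | ⟨hb, h'⟩
    · exact absurd (Dr_nil _ p h') (RO.mem_compl.1 h p le_rfl)
    · rw [ha, hb]

variable (f Lt)

/-- the name of the leftmost branch -/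
def nm [Inhabited κ] (hf : Function.Injective f) (hL : ∀ σ, Lt σ ≤ ⨆ a, Lt (σ ++ [a])) :
    Nm (RO P) κ where
  v n a := RO.gen (Gs f Lt n a)
  disj n a b hab := by
    refine le_antisymm (fun p hp => ?_) bot_le
    obtain ⟨q, hq, h1⟩ := mem_gen_Gs.1 hp.1 p le_rfl
    obtain ⟨r, hr, h2⟩ := mem_gen_Gs.1 hp.2 q hq
    exact absurd (Gs_uniq hf (Gs_down h1 hr) h2) hab
  tot n := by
    rw [RO.eq_top_iff']
    intro p
    refine RO.mem_iSup.2 fun q _ => ?_
    by_cases h : ∃ r ≤ q, r ∈ Lt []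
    · obtain ⟨r, hr, hrL⟩ := h
      obtain ⟨s, hs, l, hl, hsl⟩ := Dr_len (f := f) hL (n + 1) r hrL
      cases l with
      | nil => simp at hl
      | cons a l =>
        exact ⟨s, hs.trans hr, a, of_Gs (Or.inl ⟨l, by simpa using hl, hsl⟩)⟩
    · refine ⟨q, le_rfl, default, of_Gs (Or.inr ⟨rfl, RO.mem_compl.2 fun r hr hrL => ?_⟩)⟩
      exact h ⟨r, hr, hrL⟩

variable {f Lt}

theorem Dr_v [Inhabited κ] (hf : Function.Injective f) (hL : ∀ σ, Lt σ ≤ ⨆ a, Lt (σ ++ [a]))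
    (l : List κ) (p : P) (h : p ∈ Dr f Lt l) (k : ℕ) (hk : k < l.reverse.length) :
    p ∈ (nm f Lt hf hL).v k (l.reverse[k]) := by
  induction l with
  | nil => simp at hk
  | cons a l ih =>
    by_cases h1 : k < l.reverse.length
    · have e : (a :: l).reverse[k] = l.reverse[k] := by
        simp only [List.reverse_cons]
        exact List.getElem_append_left h1
      rw [e]
      exact ih (mem_Dr_cons.1 h).1 h1
    · have h2 : k = l.reverse.length := by
        rw [List.length_reverse, List.length_cons] at hk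
        rw [List.length_reverse] at h1 ⊢
        omega
      subst h2
      have e : (a :: l).reverse[l.reverse.length] = a := by
        simp only [List.reverse_cons]
        rw [List.getElem_append_right le_rfl]
        simp
      rw [e]
      exact of_Gs (Or.inl ⟨l, by rw [List.length_reverse], h⟩)

end BRA_

open BRA_ in
theorem p_BRA : T_BRA := by
  intro P κ _ _ _ Lt hL
  obtain ⟨f, hf⟩ := exists_injective_nat κ
  refine ⟨nm f Lt hf hL, ?_, ?_⟩
  · intro p hp σ hσ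
    refine RO.mem_reg fun q hq => ?_
    obtain ⟨r, hr, l, hl, hrl⟩ := Dr_len (f := f) hL σ.length q (RO.mem_down hp hq)
    have e : l.reverse = σ := by
      refine List.ext_getElem (by rw [List.length_reverse, hl]) fun k h1 h2 => ?_
      exact Nm.uniq (Dr_v hf hL l r hrl k h1) (RO.mem_down (hσ k h2) (hr.trans hq))
    have h1 := Dr_Lt l r hrl
    rw [e] at h1
    exact ⟨r, hr, h1⟩
  · intro p hp n
    exact of_Gs (Or.inr ⟨rfl, hp⟩)

end CofSN
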