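import Pool.Agent.CofSN.Defs

/-!
# MP_3e8648_lc: forcing with names, basic lemmas (helper90)
-/

set_option autoImplicit false

namespace CofSN

namespace Nm

variable {P : Type} [Preorder P] {α β : Type}

theorem decide (x : Nm (RO P) α) (n : ℕ) (p : P) : ∃ q ≤ p, ∃ a, q ∈ x.v n a := by
  have h : p ∈ ⨆ a, x.v n a := by rw [x.tot]; exact RO.mem_top p
  exact RO.mem_iSup.1 h p le_rfl

theorem uniq {x : Nm (RO P) α} {n : ℕ} {p : P} {a b : α} (ha : p ∈ x.v n a) (hb : p ∈ x.v n b) :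
    a = b := by
  by_contra h
  have h1 : p ∈ x.v n a ⊓ x.v n b := ⟨ha, hb⟩
  rw [x.disj n a b h] at h1
  exact RO.notMem_bot p h1

/-- decide finitely many values -/
theorem decides (x : Nm (RO P) α) (N : ℕ) (p : P) :
    ∃ q ≤ p, ∃ s : ℕ → α, ∀ n < N, q ∈ x.v n (s n) := by
  induction N with
  | zero =>
    obtain ⟨q, hq, a, _⟩ := x.decide 0 p
    exact ⟨q, hq, fun _ => a, fun n hn => absurd hn (by omega)⟩
  | succ N ih =>
    obtain ⟨q, hq, s, hs⟩ := ih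
    obtain ⟨r, hr, a, ha⟩ := x.decide N q
    classical
    refine ⟨r, hr.trans hq, fun n => if n = N then a else s n, fun n hn => ?_⟩
    by_cases h : n = N
    · subst h; simpa using ha
    · simp only [h, if_false]
      exact RO.mem_down (hs n (by omega)) hr

theorem mem_memv {x : Nm (RO P) α} {n : ℕ} {T : Set α} {p : P} :
    p ∈ x.memv n T ↔ ∀ q ≤ p, ∀ a, q ∈ x.v n a → a ∈ T := by
  unfold memv
  constructor
  · intro h q hq a ha
    obtain ⟨r, hr, b, hb⟩ := RO.mem_iSup.1 h q hq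
    obtain ⟨s, hs, hbT, hs2⟩ := RO.mem_iSup.1 hb r le_rfl
    have := uniq (RO.mem_down ha (hs.trans hr)) hs2
    exact this ▸ hbT
  · intro h
    refine RO.mem_iSup.2 fun q hq => ?_
    obtain ⟨r, hr, a, ha⟩ := x.decide n q
    exact ⟨r, hr, a, RO.mem_iSup.2 fun s hs => ⟨s, le_rfl, h r (hr.trans hq) a ha,
      RO.mem_down ha hs⟩⟩

theorem mem_rel {R : α → β → Prop} {x : Nm (RO P) α} {y : Nm (RO P) β} {n m : ℕ} {p : P} :
    p ∈ rel R x y n m ↔ ∀ q ≤ p, ∀ a b, q ∈ x.v n a → q ∈ y.v m b → R a b := by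
  unfold rel
  constructor
  · intro h q hq a b ha hb
    obtain ⟨r, hr, a', h⟩ := RO.mem_iSup.1 h q hq
    obtain ⟨s, hs, b', h⟩ := RO.mem_iSup.1 h r le_rfl
    obtain ⟨t, ht, hR, h⟩ := RO.mem_iSup.1 h s le_rfl
    have hle : t ≤ q := ht.trans (hs.trans hr)
    have e1 := uniq (RO.mem_down ha hle) h.1
    have e2 := uniq (RO.mem_down hb hle) h.2
    rw [e1, e2]; exact hR
  · intro h
    refine RO.mem_iSup.2 fun q hq => ?_
    obtain ⟨r, hr, a, ha⟩ := x.decide n q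
    obtain ⟨s, hs, b, hb⟩ := y.decide m r
    refine ⟨s, hs.trans hr, a, RO.mem_iSup.2 fun t ht => ⟨t, le_rfl, b,
      RO.mem_iSup.2 fun u hu => ⟨u, le_rfl, ?_, ?_⟩⟩⟩
    · exact h s (hs.trans (hr.trans hq)) a b (RO.mem_down ha hs) hb
    · exact ⟨RO.mem_down (RO.mem_down ha hs) (hu.trans ht), RO.mem_down hb (hu.trans ht)⟩

theorem mem_leA {x y : Nm (RO P) ℕ} {p : P} :
    p ∈ leA x y ↔ ∀ n, ∀ q ≤ p, ∀ a b, q ∈ x.v n a → q ∈ y.v n b → a ≤ b := by
  unfold leA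
  rw [RO.mem_iInf]
  exact forall_congr' fun n => mem_rel

theorem mem_leS {x y : Nm (RO P) ℕ} {p : P} :
    p ∈ leS x y ↔ ∀ q ≤ p, ∃ r ≤ q, ∃ m, ∀ n, m ≤ n → ∀ s ≤ r, ∀ a b, s ∈ x.v n a →
      s ∈ y.v n b → a ≤ b := by
  unfold leS
  rw [RO.mem_iSup]
  refine forall_congr' fun q => forall_congr' fun _ => exists_congr fun r => and_congr_right
    fun _ => exists_congr fun m => ?_
  rw [RO.mem_iInf]
  refine forall_congr' fun n => ?_
  rw [RO.mem_iInf]
  exact forall_congr' fun _ => mem_rel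

theorem mem_capt {x : Nm (RO P) ℕ} {S : Nm (RO P) (Finset ℕ)} {p : P} :
    p ∈ capt x S ↔ ∀ q ≤ p, ∃ r ≤ q, ∃ m, ∀ n, m ≤ n → ∀ s ≤ r, ∀ a T, s ∈ x.v n a →
      s ∈ S.v n T → a ∈ T := by
  unfold capt
  rw [RO.mem_iSup]
  refine forall_congr' fun q => forall_congr' fun _ => exists_congr fun r => and_congr_right
    fun _ => exists_congr fun m => ?_
  rw [RO.mem_iInf]
  refine forall_congr' fun n => ?_
  rw [RO.mem_iInf]
  exact forall_congr' fun _ => mem_rel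

theorem mem_eqv {x y : Nm (RO P) α} {p : P} :
    p ∈ eqv x y ↔ ∀ n, ∀ q ≤ p, ∀ a b, q ∈ x.v n a → q ∈ y.v n b → a = b := by
  unfold eqv
  rw [RO.mem_iInf]
  refine forall_congr' fun n => ?_
  constructor
  · intro h q hq a b ha hb
    obtain ⟨r, hr, c, hc⟩ := RO.mem_iSup.1 h q hq
    rw [uniq (RO.mem_down ha hr) hc.1, uniq (RO.mem_down hb hr) hc.2]
  · intro h
    refine RO.mem_iSup.2 fun q hq => ?_
    obtain ⟨r, hr, a, ha⟩ := x.decide n q
    obtain ⟨s, hs, b, hb⟩ := y.decide n r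
    have e := h s (hs.trans (hr.trans hq)) a b (RO.mem_down ha hs) hb
    exact ⟨s, hs.trans hr, a, RO.mem_down ha hs, e ▸ hb⟩

/-- a name transported along a projection -/
def cm {Q : Type} [Preorder Q] {e : P → Q} {π : Q → P} (h : EP e π) (x : Nm (RO P) α) :
    Nm (RO Q) α where
  v n a := RO.cm h (x.v n a)
  disj n a b hab := by
    refine le_antisymm (fun q hq => ?_) bot_le
    exact absurd (uniq (x := x) hq.1 hq.2) hab
  tot n := by
    rw [RO.eq_top_iff']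
    intro q
    refine RO.mem_iSup.2 fun q' hq' => ?_
    obtain ⟨r, hr, a, ha⟩ := x.decide n (π q')
    obtain ⟨s, hs, hs2⟩ := h.lift q' r hr
    have h1 : π s ∈ x.v n a := RO.mem_down ha ((h.pmono hs2).trans (h.pe r))
    exact ⟨s, hs, a, h1⟩

theorem mem_cm {Q : Type} [Preorder Q] {e : P → Q} {π : Q → P} (h : EP e π) (x : Nm (RO P) α)
    (n : ℕ) (a : α) (q : Q) : q ∈ (cm h x).v n a ↔ π q ∈ x.v n a := Iff.rfl

/-! ### operations -/

/-- the sequence of pairs -/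
def pair (x : Nm (RO P) α) (y : Nm (RO P) β) : Nm (RO P) (α × β) where
  v n a := x.v n a.1 ⊓ y.v n a.2
  disj n a b hab := by
    refine le_antisymm (fun q hq => ?_) bot_le
    exact absurd (Prod.ext (uniq hq.1.1 hq.2.1) (uniq hq.1.2 hq.2.2)) hab
  tot n := by
    rw [RO.eq_top_iff']
    intro p
    refine RO.mem_iSup.2 fun q _ => ?_
    obtain ⟨r, hr, a, ha⟩ := x.decide n q
    obtain ⟨s, hs, b, hb⟩ := y.decide n r
    exact ⟨s, hs.trans hr, (a, b), RO.mem_down ha hs, hb⟩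

theorem mem_pair {x : Nm (RO P) α} {y : Nm (RO P) β} {n : ℕ} {a : α} {b : β} {p : P} :
    p ∈ (pair x y).v n (a, b) ↔ p ∈ x.v n a ∧ p ∈ y.v n b := Iff.rfl

/-- the sequence `z(n) = G n (x(0), …, x(N n - 1))` -/
def push (N : ℕ → ℕ) (G : (n : ℕ) → (Fin (N n) → α) → β) (x : Nm (RO P) α) : Nm (RO P) β where
  v n b := ⨆ s : Fin (N n) → α, ⨆ _ : G n s = b, ⨅ k : Fin (N n), x.v k (s k)
  disj n a b hab := by
    refine le_antisymm (fun q hq => ?_) bot_le
    obtain ⟨r, hr, s, h⟩ := RO.mem_iSup.1 hq.1 q le_rfl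
    obtain ⟨r', hr', hs, h⟩ := RO.mem_iSup.1 h r le_rfl
    obtain ⟨t, ht, s', h'⟩ := RO.mem_iSup.1 (RO.mem_down hq.2 (hr'.trans hr)) r' le_rfl
    obtain ⟨t', ht', hs', h'⟩ := RO.mem_iSup.1 h' t le_rfl
    have e : s = s' := by
      funext k
      exact uniq (RO.mem_down (RO.mem_iInf.1 h k) (ht'.trans ht)) (RO.mem_iInf.1 h' k)
    exact absurd (by rw [← hs, ← hs', e]) hab
  tot n := by
    rw [RO.eq_top_iff']
    intro p
    refine RO.mem_iSup.2 fun q _ => ?_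
    obtain ⟨r, hr, s, hs⟩ := x.decides (N n) q
    refine ⟨r, hr, G n fun k => s k, RO.mem_iSup.2 fun t ht => ⟨t, le_rfl, fun k => s k,
      RO.mem_iSup.2 fun u hu => ⟨u, le_rfl, rfl, RO.mem_iInf.2 fun k => ?_⟩⟩⟩
    exact RO.mem_down (hs k k.2) (hu.trans ht)

theorem mem_push {N : ℕ → ℕ} {G : (n : ℕ) → (Fin (N n) → α) → β} {x : Nm (RO P) α} {n : ℕ}
    {b : β} {p : P} : p ∈ (push N G x).v n b ↔
      ∀ q ≤ p, ∀ s : Fin (N n) → α, (∀ k : Fin (N n), q ∈ x.v k (s k)) → G n s = b := by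
  constructor
  · intro h q hq s hs
    obtain ⟨r, hr, s', h⟩ := RO.mem_iSup.1 h q hq
    obtain ⟨r', hr', hb, h⟩ := RO.mem_iSup.1 h r le_rfl
    have e : s = s' := by
      funext k
      exact uniq (RO.mem_down (hs k) (hr'.trans hr)) (RO.mem_iInf.1 h k)
    rw [e, hb]
  · intro h
    refine RO.mem_iSup.2 fun q hq => ?_
    obtain ⟨r, hr, s, hs⟩ := x.decides (N n) q
    have e := h r (hr.trans hq) (fun k => s k) fun k => hs k k.2
    exact ⟨r, hr, fun k => s k, RO.mem_iSup.2 fun t ht => ⟨t, le_rfl, e,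
      RO.mem_iInf.2 fun k => RO.mem_down (hs k k.2) ht⟩⟩

theorem push_of {N : ℕ → ℕ} {G : (n : ℕ) → (Fin (N n) → α) → β} {x : Nm (RO P) α} {n : ℕ}
    {p : P} (s : Fin (N n) → α) (hs : ∀ k : Fin (N n), p ∈ x.v k (s k)) : p ∈ (push N G x).v n (G n s) := by
  refine mem_push.2 fun q hq s' hs' => ?_
  have e : s' = s := by
    funext k
    exact uniq (hs' k) (RO.mem_down (hs k) hq)
  rw [e]

end Nm

end CofSN
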