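import Pool.Agent.CofSN.Targets

/-!
# MP_3e8648_lc: preimages under projections preserve the operations (CMH)
-/

set_option autoImplicit false

namespace CofSN

namespace CMH_

variable {P Q : Type} [Preorder P] [Preorder Q] {e : P → Q} {π : Q → P}

/-- transfer of membership below a lifted condition -/
theorem down_e (h : EP e π) {U : RO P} {p : P} {q : Q} (hp : p ∈ U) (hq : q ≤ e p) : π q ∈ U :=
  RO.mem_down hp ((h.pmono hq).trans (h.pe p))

theorem mem_e (h : EP e π) (U : RO P) (p : P) : e p ∈ RO.cm h U ↔ p ∈ U := by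
  rw [RO.mem_cm]
  exact ⟨fun hp => RO.mem_down hp (h.pe' p), fun hp => RO.mem_down hp (h.pe p)⟩

theorem compl (h : EP e π) (U : RO P) : RO.cm h Uᶜ = (RO.cm h U)ᶜ := by
  refine RO.ext_mem fun q => ?_
  rw [RO.mem_cm, RO.mem_compl, RO.mem_compl]
  constructor
  · intro hq q' hq' hc
    exact hq (π q') (h.pmono hq') hc
  · intro hq p hp hU
    obtain ⟨q', h1, h2⟩ := h.lift q p hp
    exact hq q' h1 (down_e h hU h2)

theorem sup (h : EP e π) (S : Set (RO P)) :
    RO.cm h (sSup S) = sSup (RO.cm h '' S) := by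
  refine RO.ext_mem fun q => ?_
  rw [RO.mem_cm, RO.mem_sSup, RO.mem_sSup]
  constructor
  · intro hq q' hq'
    obtain ⟨r, hr, U, hU, hrU⟩ := hq (π q') (h.pmono hq')
    obtain ⟨r', h1, h2⟩ := h.lift q' r hr
    exact ⟨r', h1, RO.cm h U, ⟨U, hU, rfl⟩, down_e h hrU h2⟩
  · intro hq p hp
    obtain ⟨q', h1, h2⟩ := h.lift q p hp
    obtain ⟨r, hr, V, ⟨U, hU, rfl⟩, hrV⟩ := hq q' h1
    exact ⟨π r, (h.pmono (hr.trans h2)).trans (h.pe p), U, hU, hrV⟩

theorem inj (h : EP e π) (U V : RO P) (hUV : RO.cm h U = RO.cm h V) : U = V := by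
  refine RO.ext_mem fun p => ?_
  rw [← mem_e h U, ← mem_e h V, hUV]

theorem names (h : EP e π) (α : Type) (x : Nm (RO Q) α)
    (hx : ∀ n a, x.v n a ∈ Set.range (RO.cm h)) : ∃ y : Nm (RO P) α, x = y.cm h := by
  choose v hv using hx
  refine ⟨⟨v, ?_, ?_⟩, ?_⟩
  · intro n a b hab
    refine le_antisymm (fun p hp => ?_) bot_le
    have h1 : e p ∈ x.v n a := by
      rw [← hv n a]
      exact (mem_e h _ p).2 hp.1
    have h2 : e p ∈ x.v n b := by
      rw [← hv n b]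
      exact (mem_e h _ p).2 hp.2
    exact absurd (Nm.uniq h1 h2) hab
  · intro n
    rw [RO.eq_top_iff']
    intro p
    refine RO.mem_iSup.2 fun q _ => ?_
    obtain ⟨r, hr, a, ha⟩ := x.decide n (e q)
    rw [← hv n a] at ha
    exact ⟨π r, (h.pmono hr).trans (h.pe q), a, ha⟩
  · ext1
    funext n a
    exact (hv n a).symm

theorem leA (h : EP e π) (x y : Nm (RO P) ℕ) :
    Nm.leA (x.cm h) (y.cm h) = RO.cm h (Nm.leA x y) := by
  refine RO.ext_mem fun q => ?_
  rw [RO.mem_cm, Nm.mem_leA, Nm.mem_leA]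
  constructor
  · intro hq n p hp a b ha hb
    obtain ⟨q', h1, h2⟩ := h.lift q p hp
    exact hq n q' h1 a b (down_e h ha h2) (down_e h hb h2)
  · intro hq n q' hq' a b ha hb
    exact hq n (π q') (h.pmono hq') a b ha hb

theorem capt (h : EP e π) (x : Nm (RO P) ℕ) (S : Nm (RO P) (Finset ℕ)) :
    Nm.capt (x.cm h) (S.cm h) = RO.cm h (Nm.capt x S) := by
  refine RO.ext_mem fun q => ?_
  rw [RO.mem_cm, Nm.mem_capt, Nm.mem_capt]
  constructor
  · intro hq p hp
    obtain ⟨q', h1, h2⟩ := h.lift q p hp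
    obtain ⟨r, hr, m, hm⟩ := hq q' h1
    refine ⟨π r, (h.pmono (hr.trans h2)).trans (h.pe p), m, fun n hn s hs a T ha hT => ?_⟩
    obtain ⟨s', h3, h4⟩ := h.lift r s hs
    exact hm n hn s' h3 a T (down_e h ha h4) (down_e h hT h4)
  · intro hq q' hq'
    obtain ⟨r, hr, m, hm⟩ := hq (π q') (h.pmono hq')
    obtain ⟨r', h1, h2⟩ := h.lift q' r hr
    refine ⟨r', h1, m, fun n hn s hs a T ha hT => ?_⟩
    exact hm n hn (π s) ((h.pmono (hs.trans h2)).trans (h.pe r)) a T ha hT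

end CMH_

/-- CMH -/
theorem p_CMH : T_CMH := by
  intro P Q _ _ e π h
  exact ⟨CMH_.compl h, CMH_.sup h, CMH_.inj h, CMH_.names h, CMH_.leA h, CMH_.capt h⟩

end CofSN
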