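import Pool.Agent.CofSN.Targets

/-!
# MP_3e8648_lc: every real dominates only countably many Cohen reals (helper93)
-/

set_option autoImplicit false

namespace CofSN

namespace CO3_

variable {Θ : Type}

open Classical in
/-- take the indices in `X` from `a` and the others from `b` -/
noncomputable def mx (X : Set Θ) (a b : Co Θ) : Co Θ where
  f x := if x.1 ∈ X then a.f x else b.f x
  fin := (a.fin.union b.fin).subset fun x hx => by
    by_cases h : x.1 ∈ X
    · left; simpa [h] using hx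
    · right; simpa [h] using hx

/-- the empty condition -/
def em : Co Θ where
  f _ := none
  fin := by simp

theorem mx_in {X : Set Θ} {a b : Co Θ} {x : Θ × ℕ} (h : x.1 ∈ X) : (mx X a b).f x = a.f x := by
  simp [mx, h]

theorem mx_out {X : Set Θ} {a b : Co Θ} {x : Θ × ℕ} (h : x.1 ∉ X) :
    (mx X a b).f x = b.f x := by
  simp [mx, h]

theorem le_def {p q : Co Θ} : q ≤ p ↔ ∀ x k, p.f x = some k → q.f x = some k := Iff.rfl

theorem res_f {X : Set Θ} {p : Co Θ} {x : Θ × ℕ} {k : ℕ} (h : (mx X p em).f x = some k) :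
    x.1 ∈ X ∧ p.f x = some k := by
  by_cases hx : x.1 ∈ X
  · rw [mx_in hx] at h; exact ⟨hx, h⟩
  · rw [mx_out hx] at h; cases h

theorem support (h_COC : T_COC) (U : RO (Co Θ)) :
    ∃ X : Set Θ, X.Countable ∧ ∀ p, p ∈ U → mx X p em ∈ U := by
  obtain ⟨A, hA⟩ := zorn_subset
    {A : Set (Co Θ) | (∀ a ∈ A, a ∈ U) ∧ A.Pairwise fun a b => ¬ Cmp a b} (by
      intro c hc hch
      refine ⟨⋃₀ c, ⟨?_, ?_⟩, fun s hs => Set.subset_sUnion_of_mem hs⟩
      · rintro a ⟨s, hs, ha⟩
        exact (hc hs).1 a ha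
      · exact (Set.pairwise_sUnion hch.directedOn).2 fun s hs => (hc hs).2)
  have hAU := hA.prop.1
  have hAp := hA.prop.2
  have hAc : A.Countable := by
    have := h_COC Θ A (fun a => a.1) fun i j hij =>
      hAp i.2 j.2 fun h => hij (Subtype.ext h)
    exact Set.countable_coe_iff.1 this
  have hmax : ∀ q, q ∈ U → ∃ a ∈ A, Cmp q a := by
    intro q hq
    by_contra hc
    push Not at hc
    have h1 : insert q A ⊆ A := hA.le_of_ge (y := insert q A) ⟨by
      intro a ha
      rcases ha with rfl | ha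
      · exact hq
      · exact hAU a ha, by
      refine Set.pairwise_insert.2 ⟨hAp, fun b hb _ => ⟨hc b hb, ?_⟩⟩
      rintro ⟨r, h1, h2⟩
      exact hc b hb ⟨r, h2, h1⟩⟩ (Set.subset_insert q A)
    exact hc q (h1 (Set.mem_insert q A)) ⟨q, le_rfl, le_rfl⟩
  refine ⟨⋃ a ∈ A, Prod.fst '' {x | a.f x ≠ none},
    hAc.biUnion fun a _ => (a.fin.image _).countable, ?_⟩
  set X : Set Θ := ⋃ a ∈ A, Prod.fst '' {x | a.f x ≠ none} with hX
  have hsup : ∀ a ∈ A, ∀ x k, a.f x = some k → x.1 ∈ X := by
    intro a ha x k hx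
    rw [hX]
    simp only [Set.mem_iUnion]
    exact ⟨a, ha, x, by simp [hx], rfl⟩
  intro p hp
  by_contra hn
  obtain ⟨d, hd, hdU⟩ := RO.exists_compl hn
  -- the restriction of `d` is in the complement
  have hd' : mx X d em ∈ Uᶜ := by
    rw [RO.mem_compl]
    intro q hq hqU
    obtain ⟨a, ha, r, hrq, hra⟩ := hmax q hqU
    have h1 : mx X r d ≤ d := by
      intro x k hx
      by_cases hxX : x.1 ∈ X
      · rw [mx_in hxX]
        refine hrq x k (hq x k ?_)
        rw [mx_in hxX]; exact hx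
      · rw [mx_out hxX]; exact hx
    have h2 : mx X r d ≤ a := by
      intro x k hx
      rw [mx_in (hsup a ha x k hx)]
      exact hra x k hx
    exact (RO.mem_compl.1 hdU) _ h1 (RO.mem_down (hAU a ha) h2)
  have h1 : mx X d p ≤ mx X d em := by
    intro x k hx
    obtain ⟨h3, h4⟩ := res_f hx
    rw [mx_in h3]; exact h4
  have h2 : mx X d p ≤ p := by
    intro x k hx
    by_cases hxX : x.1 ∈ X
    · rw [mx_in hxX]
      refine hd x k ?_
      rw [mx_in hxX]; exact hx
    · rw [mx_out hxX]; exact hx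
  exact (RO.mem_compl.1 hd') _ h1 (RO.mem_down hp h2)

end CO3_

open CO3_ in
theorem p_CO3 (h_COC : T_COC) : T_CO3 := by
  intro K Θ _ g
  choose X hXc hX using fun n l => support h_COC (g.v n l)
  have hY : (⋃ n, ⋃ l, X n l).Countable :=
    Set.countable_iUnion fun n => Set.countable_iUnion fun l => hXc n l
  set Y : Set Θ := ⋃ n, ⋃ l, X n l with hYdef
  have hres : ∀ n l p, p ∈ g.v n l → mx Y p em ∈ g.v n l := by
    intro n l p hp
    refine RO.mem_down (hX n l p hp) ?_
    intro x k hx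
    obtain ⟨h1, h2⟩ := res_f hx
    have h3 : x.1 ∈ Y := by
      rw [hYdef]; simp only [Set.mem_iUnion]; exact ⟨n, l, h1⟩
    rw [mx_in h3]; exact h2
  have hsub : {η : Θ | ∃ p : Co Θ, ∃ m, ∀ n, m ≤ n → ∀ q ≤ p, ∀ k l,
      Dc (Co.D (Θ := Θ)) (id : Co Θ → Co Θ) η n k q → q ∈ g.v n l → k ≤ l} ⊆ Y := by
    rintro η ⟨p, m, hpm⟩
    by_contra hη
    -- a place where `p` is undefined
    obtain ⟨n, hmn, hn⟩ : ∃ n, m ≤ n ∧ p.f (η, n) = none := by
      by_contra hc
      push Not at hc
      have hinf : (Set.Ici m).Infinite := Set.Ici_infinite m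
      refine hinf ?_
      have : (Set.Ici m) ⊆ (fun n : ℕ => (η, n)) ⁻¹' {x | p.f x ≠ none} := fun n hn => hc n hn
      refine Set.Finite.subset (p.fin.preimage ?_) this
      intro a _ b _ hab
      exact (Prod.mk.inj hab).2
    obtain ⟨q, hq, l, hl⟩ := g.decide n p
    have h1 := hres n l q hl
    have h2 : mx Y q p ≤ mx Y q em := by
      intro x k hx
      obtain ⟨h3, h4⟩ := res_f hx
      rw [mx_in h3]; exact h4
    have h3 : mx Y q p ≤ p := by
      intro x k hx
      by_cases hxY : x.1 ∈ Y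
      · rw [mx_in hxY]; exact hq x k hx
      · rw [mx_out hxY]; exact hx
    have h4 : (mx Y q p).f (η, n) = none := by
      rw [mx_out hη]; exact hn
    classical
    let r : Co Θ :=
      { f := fun x => if x = (η, n) then some (l + 1) else (mx Y q p).f x
        fin := ((mx Y q p).fin.union (Set.finite_singleton (η, n))).subset fun x hx => by
          by_cases h : x = (η, n)
          · right; exact h
          · left; simpa [h] using hx }
    have hr1 : r.f (η, n) = some (l + 1) := by simp [r]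
    have hr : r ≤ mx Y q p := by
      intro x k hx
      by_cases h : x = (η, n)
      · subst h; rw [h4] at hx; cases hx
      · simp only [r, h, if_false]; exact hx
    have := hpm n hmn r (hr.trans h3) (l + 1) l ⟨r, hr1, le_rfl⟩
      (RO.mem_down h1 (hr.trans h2))
    omega
  have hc := hY.mono hsub
  have h1 : Cardinal.mk {η : Θ | ∃ p : Co Θ, ∃ m, ∀ n, m ≤ n → ∀ q ≤ p, ∀ k l,
      Dc (Co.D (Θ := Θ)) (id : Co Θ → Co Θ) η n k q → q ∈ g.v n l → k ≤ l} ≤ Cardinal.aleph0 :=
    Cardinal.le_aleph0_iff_set_countable.2 hc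
  exact h1.trans (Cardinal.aleph0_le_mk K)

end CofSN
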