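import Pool.Agent.CofSN.Targets

/-!
# MP_3e8648_lc, target COC: the chain condition of the Cohen forcing
-/

set_option autoImplicit false

namespace CofSN

namespace COC_

open Set

variable {Θ : Type}

/-- the union of two conditions, the first one has priority -/
def uni (p q : Co Θ) : Co Θ where
  f x := (p.f x).or (q.f x)
  fin := (p.fin.union q.fin).subset fun x hx => by
    by_contra h
    simp only [mem_union, mem_ofPred_eq, not_or, not_not] at h
    apply hx
    rw [h.1, h.2]
    rfl

lemma uni_le_left (p q : Co Θ) : uni p q ≤ p := by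
  intro x k h
  show (p.f x).or (q.f x) = some k
  rw [h]
  rfl

lemma uni_le_right {p q : Co Θ} (h : ∀ x, p.f x ≠ none → q.f x ≠ none → p.f x = q.f x) :
    uni p q ≤ q := by
  intro x k hk
  show (p.f x).or (q.f x) = some k
  by_cases h0 : p.f x = none
  · rw [h0, hk]
    rfl
  · rw [h x h0 (by rw [hk]; simp), hk]
    rfl

end COC_

open COC_ in
theorem p_COC (hD : T_DEL) : T_COC := by
  intro Θ ι f hf
  by_contra hc
  obtain ⟨S, r, hS, hr⟩ := hD ι (Θ × ℕ) (fun i => (f i).fin.toFinset) hc
  apply hS
  have hinj : Set.InjOn (fun i : ι => fun x : {x // x ∈ r} => (f i).f x.1) S := by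
    intro i hi j hj hij
    by_contra hne
    refine hf i j hne ⟨uni (f i) (f j), uni_le_left _ _, uni_le_right ?_⟩
    intro x h1 h2
    have hx : x ∈ (r : Set (Θ × ℕ)) := by
      rw [← hr i hi j hj hne]
      simp only [Set.Finite.coe_toFinset]
      exact ⟨h1, h2⟩
    exact congrFun hij ⟨x, hx⟩
  exact (Set.to_countable (Set.range fun i : ι => fun x : {x // x ∈ r} => (f i).f x.1)).mono
    (Set.image_subset_range _ S) |> fun h => Set.countable_of_injective_of_countable_image hinj h

end CofSN
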