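import Pool.Agent.CofSN.Targets

/-!
# MP_3e8648_lc: COF, the strong measure zero sets have a small cofinal family
-/

set_option autoImplicit false

namespace CofSN

namespace COF_

section gen

variable {P : Type} [Preorder P]

theorem ini_ext {s : List Bool} {x y : Nm (RO P) Bool} {p : P} (h : p ∈ ini s x)
    (he : p ∈ x.eqv y) : p ∈ ini s y := by
  refine RO.mem_iInf.2 fun j => ?_
  refine RO.mem_reg fun q hq => ?_
  obtain ⟨r, hr, b, hb⟩ := y.decide j q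
  have h1 : r ∈ x.v j (s.get j) := RO.mem_down (RO.mem_iInf.1 h j) (hr.trans hq)
  have h2 := Nm.mem_eqv.1 he j r (hr.trans hq) _ _ h1 hb
  exact ⟨r, hr, h2 ▸ hb⟩

theorem cyl_ext {σ : Nm (RO P) (List Bool)} {n : ℕ} {x y : Nm (RO P) Bool} {p : P}
    (h : p ∈ cyl σ n x) (he : p ∈ x.eqv y) : p ∈ cyl σ n y := by
  refine RO.mem_iSup.2 fun q hq => ?_
  obtain ⟨r, hr, s, hs⟩ := RO.mem_iSup.1 h q hq
  exact ⟨r, hr, s, hs.1, ini_ext hs.2 (RO.mem_down he (hr.trans hq))⟩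

theorem infv_ext {σ : Nm (RO P) (List Bool)} {x y : Nm (RO P) Bool} :
    infv σ x ⊓ x.eqv y ≤ infv σ y := by
  intro p hp
  refine RO.mem_iInf.2 fun m => RO.mem_iSup.2 fun q hq => ?_
  obtain ⟨r, hr, n, hn⟩ := RO.mem_iSup.1 (RO.mem_iInf.1 hp.1 m) q hq
  obtain ⟨r', hr', hmn, hc⟩ := RO.mem_iSup.1 hn r le_rfl
  refine ⟨r', hr'.trans hr, n, RO.mem_iSup.2 fun t ht => ⟨t, le_rfl, hmn, ?_⟩⟩
  exact cyl_ext (RO.mem_down hc ht) (RO.mem_down hp.2 (ht.trans (hr'.trans (hr.trans hq))))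

theorem infv_le {σ : Nm (RO P) (List Bool)} {x : Nm (RO P) Bool} :
    infv σ x ≤ ⨆ n, cyl σ n x :=
  (iInf_le _ 0).trans (iSup_mono fun _ => iSup_le fun _ => le_rfl)

theorem ht_le {f : Nm (RO P) ℕ} {σ : Nm (RO P) (List Bool)} : ht f σ ≤ htS f σ :=
  le_iSup_of_le 0 (le_iInf fun n => le_iInf fun _ => iInf_le _ n)

theorem htS_mono {f f' : Nm (RO P) ℕ} (h : Nm.leS f f' = ⊤) {σ : Nm (RO P) (List Bool)} :
    htS f' σ ≤ htS f σ := by
  intro p hp
  refine RO.mem_iSup.2 fun q hq => ?_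
  obtain ⟨r, hr, m, hm⟩ := RO.mem_iSup.1 hp q hq
  have h1 : r ∈ Nm.leS f f' := by rw [h]; exact RO.mem_top r
  obtain ⟨r', hr', m', hm'⟩ := Nm.mem_leS.1 h1 r le_rfl
  refine ⟨r', hr'.trans hr, max m m', RO.mem_iInf.2 fun n => RO.mem_iInf.2 fun hn => ?_⟩
  refine Nm.mem_rel.2 fun q' hq' k s hk hs => ?_
  obtain ⟨q'', hq'', b, hb⟩ := f'.decide n q'
  have h2 := hm' n ((le_max_right _ _).trans hn) q'' (hq''.trans hq') k b
    (RO.mem_down hk hq'') hb
  have h3 : q'' ∈ Nm.rel (fun k s => k ≤ s.length) f' σ n n :=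
    RO.mem_down (RO.mem_iInf.1 (RO.mem_iInf.1 hm n) ((le_max_left _ _).trans hn))
      (hq''.trans (hq'.trans hr'))
  exact h2.trans (Nm.mem_rel.1 h3 q'' le_rfl b s hb (RO.mem_down hs hq''))

/-- the maxima of a slalom -/
noncomputable def mx (S : Nm (RO P) (Finset ℕ)) : Nm (RO P) ℕ :=
  Nm.push (fun n => n + 1) (fun n s => (s (Fin.last n)).sup id) S

theorem mem_mx {S : Nm (RO P) (Finset ℕ)} {n : ℕ} {T : ℕ → Finset ℕ} {p : P}
    (hT : ∀ k < n + 1, p ∈ S.v k (T k)) : p ∈ (mx S).v n ((T n).sup id) := by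
  have h := Nm.push_of (N := fun n => n + 1)
    (G := fun n s => (s (Fin.last n)).sup id) (x := S) (n := n) (p := p)
    (fun k : Fin (n + 1) => T k.val) (fun k => hT k.val k.isLt)
  exact h

theorem le_mx {f : Nm (RO P) ℕ} {S : Nm (RO P) (Finset ℕ)} (h : Nm.capt f S = ⊤) :
    Nm.leS f (mx S) = ⊤ := by
  rw [RO.eq_top_iff']
  intro p
  refine Nm.mem_leS.2 fun q _ => ?_
  have h1 : q ∈ Nm.capt f S := by rw [h]; exact RO.mem_top q
  obtain ⟨r, hr, m, hm⟩ := Nm.mem_capt.1 h1 q le_rfl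
  refine ⟨r, hr, m, fun n hn s hs a b ha hb => ?_⟩
  obtain ⟨s', hs', T, hT⟩ := S.decides (n + 1) s
  have h3 : b = (T n).sup id := Nm.uniq (RO.mem_down hb hs') (mem_mx hT)
  have h4 : a ∈ T n := hm n hn s' (hs'.trans hs) a (T n) (RO.mem_down ha hs')
    (hT n (Nat.lt_succ_self n))
  rw [h3]
  exact Finset.le_sup (f := id) h4

end gen

theorem In.mono {L P : Type} [LinearOrder L] [Preorder P] {Λ : Lev L P} {α : Type} {i j : L}
    (hij : i ≤ j) {x : Nm (RO P) α} (h : Λ.In i x) : Λ.In j x :=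
  fun n a => Λ.mono i j hij (h n a)

end COF_

open COF_ in
theorem p_COF (h_TAU : T_TAU) (h_SNI : T_SNI) (h_INX : T_INX) (h_INP : T_INP) : T_COF := by
  intro L P _ _ _ Λ hS
  choose τ hτ1 hτ2 using fun (j : L) (f : Nm (RO P) ℕ) (h : Λ.In j f) => h_TAU L P Λ hS j f h
  let Y : (L → L) → BSet (RO P) := fun h =>
    { v := fun x => ⨅ i, ⨅ f, ⨅ (hf : Λ.In i f),
        infv (τ (max i (h i)) f (In.mono (le_max_left _ _) hf)) x
      ext := by
        intro x y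
        refine le_iInf fun i => le_iInf fun f => le_iInf fun hf => ?_
        refine (inf_le_inf_right _ ((iInf_le _ i).trans ((iInf_le _ f).trans (iInf_le _ hf)))).trans
          infv_ext }
  have hY : ∀ (h : L → L) (x : Nm (RO P) Bool), (Y h).v x = ⨅ i, ⨅ f, ⨅ (hf : Λ.In i f),
      infv (τ (max i (h i)) f (In.mono (le_max_left _ _) hf)) x := fun h x => rfl
  refine ⟨Y, fun h => ?_, fun X => ?_⟩
  · -- strong measure zero
    rw [eq_top_iff]
    refine le_iInf fun f => ?_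
    obtain ⟨i, hi⟩ := h_INX L P Λ ℕ f
    refine le_iSup_of_le (τ (max i (h i)) f (In.mono (le_max_left _ _) hi)) ?_
    rw [hτ1, top_inf_eq]
    refine le_iInf fun x => ?_
    rw [le_himp_iff, top_inf_eq, hY]
    exact ((iInf_le _ i).trans ((iInf_le _ f).trans (iInf_le _ hi))).trans infv_le
  · -- cofinal
    have hgood : ∀ f : Nm (RO P) ℕ, ∃ δ : L, ∃ σ : Nm (RO P) (List Bool), Λ.In δ σ ∧
        SN X ≤ htS f σ ⊓ SubI X σ := by
      intro f
      obtain ⟨σ, hσ⟩ := h_SNI P X f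
      obtain ⟨δ, hδ⟩ := h_INX L P Λ (List Bool) σ
      exact ⟨δ, σ, hδ, hσ.trans (inf_le_inf_right _ ht_le)⟩
    let g : Nm (RO P) ℕ → L := fun f => WellFounded.min (wellFounded_lt (α := L))
      {δ | ∃ σ : Nm (RO P) (List Bool), Λ.In δ σ ∧ SN X ≤ htS f σ ⊓ SubI X σ} (hgood f)
    have hg : ∀ f, ∃ σ : Nm (RO P) (List Bool), Λ.In (g f) σ ∧
        SN X ≤ htS f σ ⊓ SubI X σ := fun f =>
      WellFounded.min_mem (wellFounded_lt (α := L))
        {δ | ∃ σ : Nm (RO P) (List Bool), Λ.In δ σ ∧ SN X ≤ htS f σ ⊓ SubI X σ} (hgood f)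
    have hgm : ∀ f f', Nm.leS f f' = ⊤ → g f ≤ g f' := by
      intro f f' hff
      obtain ⟨σ, hσ1, hσ2⟩ := hg f'
      refine not_lt.1 (WellFounded.not_lt_min (wellFounded_lt (α := L))
        {δ | ∃ σ : Nm (RO P) (List Bool), Λ.In δ σ ∧ SN X ≤ htS f σ ⊓ SubI X σ} ?_)
      exact ⟨σ, hσ1, hσ2.trans (inf_le_inf_right _ (htS_mono hff))⟩
    have hb : ∀ i : L, ∃ b : L, ∀ f : Nm (RO P) ℕ, Λ.In i f → g f ≤ b := by
      intro i
      by_contra hcon
      push Not at hcon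
      choose fb hfb1 hfb2 using hcon
      obtain ⟨S, -, hS2⟩ := hS i fb hfb1
      have h1 : ∀ b, Nm.leS (fb b) (mx S) = ⊤ := by
        intro b
        refine le_mx (hS2 b (fb b) (hfb1 b) ?_)
        rw [RO.eq_top_iff']
        intro p
        refine Nm.mem_leA.2 fun n q _ a c ha hc => ?_
        rw [Nm.uniq ha hc]
      exact absurd (hgm _ _ (h1 (g (mx S)))) (not_le.2 (hfb2 (g (mx S))))
    choose h hh using hb
    refine le_iSup_of_le h ?_
    refine le_iInf fun x => ?_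
    rw [le_himp_iff, hY]
    refine le_iInf fun i => le_iInf fun f => le_iInf fun hf => ?_
    obtain ⟨σ, hσ1, hσ2⟩ := hg (up f)
    have hup : Λ.In i (up f) := (h_INP L P Λ ℕ ℕ i).2 f _ _ hf
    have hσ3 : Λ.In (max i (h i)) σ := In.mono ((hh i _ hup).trans (le_max_right _ _)) hσ1
    refine le_trans ?_ (hτ2 _ _ (In.mono (le_max_left _ _) hf) σ hσ3 x)
    refine le_inf (inf_le_left.trans (hσ2.trans inf_le_left)) ?_
    rw [← le_himp_iff]
    exact hσ2.trans (inf_le_right.trans (iInf_le _ x))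

end CofSN
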