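import Pool.Agent.CofSN.Targets

/-!
# MP_3e8648_lc: compactness of the promises (helper13)
-/

set_option autoImplicit false

namespace CofSN

namespace CPT_

variable {Ω P : Type} [Preorder P]

/-- decide finitely many names at one place -/
theorem dec_many {S : Type} [Finite S] (z : S → Nm (RO P) ℕ) (k : ℕ) (p : P) :
    ∃ q ≤ p, ∃ B : S → ℕ, ∀ s, q ∈ (z s).v k (B s) := by
  classical
  have := Fintype.ofFinite S
  suffices h : ∀ F : Finset S, ∃ q ≤ p, ∃ B : S → ℕ, ∀ s ∈ F, q ∈ (z s).v k (B s) by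
    obtain ⟨q, hq, B, hB⟩ := h Finset.univ
    exact ⟨q, hq, B, fun s => hB s (Finset.mem_univ s)⟩
  intro F
  induction F using Finset.induction_on with
  | empty => exact ⟨p, le_rfl, fun _ => 0, fun s hs => absurd hs (Finset.notMem_empty s)⟩
  | insert s F hs ih =>
    obtain ⟨q, hq, B, hB⟩ := ih
    obtain ⟨r, hr, a, ha⟩ := (z s).decide k q
    refine ⟨r, hr.trans hq, fun s' => if s' = s then a else B s', fun s' hs' => ?_⟩
    by_cases h : s' = s
    · subst h; simpa using ha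
    · simp only [h, if_false]
      rcases Finset.mem_insert.1 hs' with h' | h'
      · exact absurd h' h
      · exact RO.mem_down (hB s' h') hr

/-- the slots of a type -/
abbrev Sl (t : (Ω → Nm (RO P) ℕ) → List (Finset ℕ) × List Ω) : Type :=
  Σ i : (Ω → Nm (RO P) ℕ), Fin (t i).2.length

/-- the promise at the slot -/
def pos {t : (Ω → Nm (RO P) ℕ) → List (Finset ℕ) × List Ω} (c : St Ω P) (s : Sl t)
    (y : Ω × Nm (RO P) ℕ) : Prop := (c.pr s.1)[(s.2 : ℕ)]? = some y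

/-- the condition has type `t` and its promises have the letters of `σ` -/
def Tp (t : (Ω → Nm (RO P) ℕ) → List (Finset ℕ) × List Ω) (σ : List (Sl t → ℕ))
    (c : St Ω P) : Prop :=
  ty c = t ∧ ∀ (k : ℕ) (h : k < σ.length) (s : Sl t) (y : Ω × Nm (RO P) ℕ), pos c s y →
    c.p ∈ y.2.v k (σ[k] s)

theorem len_pr {t : (Ω → Nm (RO P) ℕ) → List (Finset ℕ) × List Ω} {c : St Ω P} (h : ty c = t)
    (i : Ω → Nm (RO P) ℕ) : (c.pr i).length = (t i).2.length := by
  subst h; simp [ty]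

theorem st_eq {t : (Ω → Nm (RO P) ℕ) → List (Finset ℕ) × List Ω} {c : St Ω P} (h : ty c = t)
    (i : Ω → Nm (RO P) ℕ) : c.st i = (t i).1 := by
  subst h; rfl

theorem pos_ex {t : (Ω → Nm (RO P) ℕ) → List (Finset ℕ) × List Ω} {c : St Ω P} (h : ty c = t)
    (s : Sl t) : ∃ y, pos c s y ∧ y.1 = (t s.1).2[(s.2 : ℕ)] ∧ y ∈ c.pr s.1 := by
  have hl : (s.2 : ℕ) < (c.pr s.1).length := by rw [len_pr h]; exact s.2.2
  refine ⟨(c.pr s.1)[(s.2 : ℕ)], List.getElem?_eq_getElem hl, ?_, List.getElem_mem hl⟩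
  subst h
  simp [ty]

theorem ty_put (q : P) (c : St Ω P) : ty (St.put q c) = ty c := rfl

theorem put_le {q : P} {c : St Ω P} (h : q ≤ c.p) : St.put q c ≤ c := by
  refine St.le_def.2 ⟨h, fun i => List.prefix_rfl, fun i => List.Subset.refl _, ?_⟩
  intro i n hn hn'
  exact absurd hn (not_lt.2 hn')

theorem put_le_put {q : P} {c c' : St Ω P} (h : c' ≤ c) (hq : q ≤ c'.p) :
    St.put q c' ≤ St.put q c := by
  have h := St.le_def.1 h
  refine St.le_def.2 ⟨le_rfl, h.2.1, h.2.2.1, ?_⟩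
  intro i n hn hn' y hy
  exact RO.mem_down (h.2.2.2 i n hn hn' y hy) hq

theorem mem_gtv {Q : Type} [Preorder Q] {g : Nm (RO Q) ℕ} {n j : ℕ} {c : Q} :
    c ∈ gtv g n j ↔ ∀ q ≤ c, ∀ l, q ∈ g.v n l → j < l := by
  unfold gtv
  constructor
  · intro h q hq l hl
    obtain ⟨r, hr, l', h⟩ := RO.mem_iSup.1 h q hq
    obtain ⟨r', hr', hl', h⟩ := RO.mem_iSup.1 h r le_rfl
    have := Nm.uniq (RO.mem_down hl (hr'.trans hr)) h
    exact this ▸ hl'
  · intro h
    refine RO.mem_iSup.2 fun q hq => ?_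
    obtain ⟨r, hr, l, hl⟩ := g.decide n q
    exact ⟨r, hr, l, RO.mem_iSup.2 fun s hs => ⟨s, le_rfl, h r (hr.trans hq) l hl,
      RO.mem_down hl hs⟩⟩

theorem gtv_mono {Q : Type} [Preorder Q] {g : Nm (RO Q) ℕ} {n j j' : ℕ} (h : j ≤ j') {c : Q}
    (hc : c ∈ gtv g n j') : c ∈ gtv g n j :=
  mem_gtv.2 fun q hq l hl => lt_of_le_of_lt h (mem_gtv.1 hc q hq l hl)

/-- the regular sets of the tree -/
def Lt (g : Nm (RO (St Ω P)) ℕ) (t : (Ω → Nm (RO P) ℕ) → List (Finset ℕ) × List Ω) (n : ℕ)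
    (σ : List (Sl t → ℕ)) : RO P where
  c := {p | ∀ (j : ℕ), ∀ q ≤ p, ∃ c : St Ω P, c.p ≤ q ∧ Tp t σ c ∧ c ∈ gtv g n j}
  down := fun _ _ hq hp j r hr => hp j r (hr.trans hq)
  reg := by
    intro p hp j q hq
    obtain ⟨r, hr, hrc⟩ := hp q hq
    obtain ⟨c, hc, h⟩ := hrc j r le_rfl
    exact ⟨c, hc.trans hr, h⟩

theorem mem_Lt {g : Nm (RO (St Ω P)) ℕ} {t : (Ω → Nm (RO P) ℕ) → List (Finset ℕ) × List Ω}
    {n : ℕ} {σ : List (Sl t → ℕ)} {p : P} : p ∈ Lt g t n σ ↔
      ∀ (j : ℕ), ∀ q ≤ p, ∃ c : St Ω P, c.p ≤ q ∧ Tp t σ c ∧ c ∈ gtv g n j := Iff.rfl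

theorem Lt_step (g : Nm (RO (St Ω P)) ℕ) (t : (Ω → Nm (RO P) ℕ) → List (Finset ℕ) × List Ω)
    (n : ℕ) [Finite (Sl t)] (σ : List (Sl t → ℕ)) :
    Lt g t n σ ≤ ⨆ a, Lt g t n (σ ++ [a]) := by
  classical
  have := Fintype.ofFinite (Sl t)
  intro p' hp'
  refine RO.mem_iSup.2 fun q hq => ?_
  by_contra hcon
  push Not at hcon
  obtain ⟨q1, hq1, B, hB⟩ := dec_many (fun s : Sl t => s.1 ((t s.1).2[(s.2 : ℕ)])) σ.length q
  have claim : ∀ A : Finset (Sl t → ℕ), ∃ q2 ≤ q1, ∃ j0 : ℕ, ∀ a ∈ A, ∀ c : St Ω P,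
      c.p ≤ q2 → Tp t (σ ++ [a]) c → c ∉ gtv g n j0 := by
    intro A
    induction A using Finset.induction_on with
    | empty => exact ⟨q1, le_rfl, 0, fun a ha => absurd ha (Finset.notMem_empty a)⟩
    | insert a A ha ih =>
      obtain ⟨q2, hq2, j0, h0⟩ := ih
      have h1 : q2 ∉ Lt g t n (σ ++ [a]) := hcon q2 (hq2.trans hq1) a
      rw [mem_Lt] at h1
      push Not at h1
      obtain ⟨j1, q3, hq3, h3⟩ := h1
      refine ⟨q3, hq3.trans hq2, max j0 j1, fun b hb c hc hT hg => ?_⟩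
      rcases Finset.mem_insert.1 hb with hb | hb
      · subst hb
        exact h3 c hc hT (gtv_mono (le_max_right _ _) hg)
      · exact h0 b hb c (hc.trans hq3) hT (gtv_mono (le_max_left _ _) hg)
  obtain ⟨q2, hq2, j0, h0⟩ := claim (Fintype.piFinset fun s => Finset.range (B s + 1))
  obtain ⟨c, hc, hT, hg⟩ := mem_Lt.1 hp' j0 q2 (hq2.trans (hq1.trans hq))
  choose Y hY1 hY2 hY3 using fun s : Sl t => pos_ex hT.1 s
  obtain ⟨r, hr, a, ha⟩ := dec_many (fun s : Sl t => (Y s).2) σ.length c.p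
  refine h0 a ?_ (St.put r c) (hr.trans hc) ⟨(ty_put r c).trans hT.1, ?_⟩
    (RO.mem_down hg (put_le hr))
  · rw [Fintype.mem_piFinset]
    intro s
    rw [Finset.mem_range, Nat.lt_succ_iff]
    have h1 := c.bd s.1 (Y s) (hY3 s)
    have h2 : r ∈ Nm.leA (Y s).2 (s.1 (Y s).1) := by rw [h1]; exact RO.mem_top r
    refine Nm.mem_leA.1 h2 σ.length r le_rfl _ _ (ha s) ?_
    rw [hY2 s]
    exact RO.mem_down (hB s) (hr.trans (hc.trans hq2))
  · intro k hk s y hy
    have hy' : y = Y s := by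
      have h1 : (c.pr s.1)[(s.2 : ℕ)]? = some y := hy
      have h2 : (c.pr s.1)[(s.2 : ℕ)]? = some (Y s) := hY1 s
      rw [h1] at h2
      exact Option.some.inj h2
    change r ∈ y.2.v k ((σ ++ [a])[k] s)
    by_cases hk' : k < σ.length
    · rw [List.getElem_append_left hk']
      exact RO.mem_down (hT.2 k hk' s y hy) hr
    · have hk2 : k = σ.length := by
        rw [List.length_append, List.length_singleton] at hk
        omega
      subst hk2
      have e : (σ ++ [a])[σ.length] = a := by simp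
      rw [e, hy']
      exact ha s

end CPT_

open CPT_ in
/-- compactness of the promises -/
theorem p_CPT (hBRA : T_BRA) (hEXT : T_EXT) : T_CPT := by
  classical
  intro Ω P _ g t n p hall
  have H0 : ∀ j, ∀ q ≤ p, ∃ c : St Ω P, c.p ≤ q ∧ ty c = t ∧ c ∈ gtv g n j := by
    intro j q hq
    obtain ⟨r, hr, s, ⟨c, hcs, hct, hcg⟩, hrs⟩ := RO.mem_gen.1 (hall j) q hq
    refine ⟨St.put r c, hr, (ty_put r c).trans hct, RO.mem_down hcg (put_le ?_)⟩
    rw [hcs]; exact hrs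
  obtain ⟨c0, _, hc0, _⟩ := H0 0 p le_rfl
  have hIfin : {i | (t i).1 ≠ []}.Finite := by
    refine c0.fin.subset fun i hi => ?_
    rw [Set.mem_ofPred_eq, st_eq hc0]; exact hi
  have hlen : ∀ i, (t i).2.length ≤ (t i).1.length := by
    intro i
    rw [← len_pr hc0, ← st_eq hc0]; exact c0.len i
  have hnil : ∀ i, i ∉ {i | (t i).1 ≠ []} → (t i).2.length = 0 := by
    intro i hi
    rw [Set.mem_ofPred_eq, not_not] at hi
    have := hlen i
    rw [hi] at this
    simpa using this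
  have hfinS : Finite (Sl t) := by
    have := hIfin.to_subtype
    let f : Sl t → Σ i : {i | (t i).1 ≠ []}, Fin (t i.1).2.length := fun s =>
      ⟨⟨s.1, fun h => by
        have h1 := hnil s.1 (by rw [Set.mem_ofPred_eq, not_not]; exact h)
        have h2 := s.2.2
        omega⟩, s.2⟩
    refine Finite.of_injective f ?_
    intro s s' h
    obtain ⟨i, l⟩ := s
    obtain ⟨i', l'⟩ := s'
    simp only [f, Sigma.mk.injEq, Subtype.mk.injEq] at h
    obtain ⟨h1, h2⟩ := h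
    subst h1
    rw [heq_eq_eq] at h2
    rw [h2]
  obtain ⟨z, hz1, hz2⟩ := hBRA P (Sl t → ℕ) (Lt g t n) (Lt_step g t n)
  have hp0 : p ∈ Lt g t n [] := by
    refine mem_Lt.2 fun j q hq => ?_
    obtain ⟨c, hc, hct, hcg⟩ := H0 j q hq
    exact ⟨c, hc, ⟨hct, fun k hk => absurd hk (Nat.not_lt_zero k)⟩, hcg⟩
  -- the limit promises
  let xi : Sl t → Nm (RO P) ℕ := fun s => Nm.push (fun n => n + 1)
    (fun m (w : Fin (m + 1) → (Sl t → ℕ)) => w (Fin.last m) s) z
  have hxi : ∀ (s : Sl t) (m : ℕ) (a : Sl t → ℕ) (q : P), q ∈ z.v m a → q ∈ (xi s).v m (a s) := by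
    intro s m a q hq
    refine Nm.mem_push.2 fun q' hq' w hw => ?_
    have h1 := hw (Fin.last m)
    have h2 : q' ∈ z.v m (w (Fin.last m)) := by simpa using h1
    rw [Nm.uniq h2 (RO.mem_down hq hq')]
  have hword : ∀ (q : P) (N : ℕ) (w : ℕ → (Sl t → ℕ)), q ∈ Lt g t n [] →
      (∀ k < N, q ∈ z.v k (w k)) → q ∈ Lt g t n (List.ofFn fun k : Fin N => w k) := by
    intro q N w hq hw
    refine hz1 q hq _ fun k hk => ?_
    rw [List.getElem_ofFn]
    rw [List.length_ofFn] at hk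
    exact hw k hk
  have hle : ∀ s : Sl t, Nm.leA (xi s) (s.1 ((t s.1).2[(s.2 : ℕ)])) = ⊤ := by
    intro s
    rw [RO.eq_top_iff']
    intro p'
    refine Nm.mem_leA.2 fun m q hq a b ha hb => ?_
    by_cases hex : ∃ q1 ≤ q, q1 ∈ Lt g t n []
    · obtain ⟨q1, hq1, hq1L⟩ := hex
      obtain ⟨q2, hq2, w, hw⟩ := z.decides (m + 1) q1
      have h2 := hword q2 (m + 1) w (RO.mem_down hq1L hq2) hw
      obtain ⟨c, hc, hT, _⟩ := mem_Lt.1 h2 0 q2 le_rfl
      obtain ⟨y, hy1, hy2, hy3⟩ := pos_ex hT.1 s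
      have hm : m < (List.ofFn fun k : Fin (m + 1) => w k).length := by
        rw [List.length_ofFn]; omega
      have h3 := hT.2 m hm s y hy1
      rw [List.getElem_ofFn] at h3
      have h4 := c.bd s.1 y hy3
      have h5 : c.p ∈ Nm.leA y.2 (s.1 y.1) := by rw [h4]; exact RO.mem_top c.p
      have hcq : c.p ≤ q := hc.trans (hq2.trans hq1)
      have h6 : w m s ≤ b := by
        refine Nm.mem_leA.1 h5 m c.p le_rfl _ _ h3 ?_
        rw [hy2]
        exact RO.mem_down hb hcq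
      have h7 : q2 ∈ (xi s).v m (w m s) := hxi s m (w m) q2 (hw m (by omega))
      rw [Nm.uniq (RO.mem_down ha (hq2.trans hq1)) h7]
      exact h6
    · have hqc : q ∈ (Lt g t n [])ᶜ := RO.mem_compl.2 fun q1 hq1 h1 => hex ⟨q1, hq1, h1⟩
      have h1 := hxi s m default q (hz2 q hqc m)
      rw [Nm.uniq ha h1]
      exact Nat.zero_le b
  -- the limit condition
  let ci : St Ω P :=
    { p := p
      st := fun i => (t i).1
      pr := fun i => List.ofFn fun l : Fin (t i).2.length => ((t i).2[(l : ℕ)], xi ⟨i, l⟩)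
      fin := hIfin
      card := fun i m h => by
        have h1 := c0.card i m (by rw [st_eq hc0]; exact h)
        simpa only [st_eq hc0] using h1
      len := fun i => by
        rw [List.length_ofFn]; exact hlen i
      bd := fun i y hy => by
        rw [List.mem_ofFn] at hy
        obtain ⟨l, rfl⟩ := hy
        exact hle ⟨i, l⟩ }
  obtain ⟨c1, hc1, v, hv⟩ := g.decide n ci
  -- long stems
  obtain ⟨N1, hN1⟩ : ∃ N1, ∀ i ∈ {i | (t i).1 ≠ []},
      (c1.pr i).length + (t i).2.length ≤ N1 := by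
    obtain ⟨N1, hN1⟩ := (hIfin.image fun i => (c1.pr i).length + (t i).2.length).bddAbove
    exact ⟨N1, fun i hi => hN1 (Set.mem_image_of_mem _ hi)⟩
  obtain ⟨c2, hc2, hpr2, hst2, _⟩ := hEXT Ω P c1 {i | (t i).1 ≠ []} N1 hIfin
  have hc2i : c2 ≤ ci := hc2.trans hc1
  have hlen2 : ∀ i, (c2.pr i).length + (t i).2.length ≤ (c2.st i).length := by
    intro i
    by_cases hi : i ∈ {i | (t i).1 ≠ []}
    · rw [hpr2]; exact (hN1 i hi).trans (hst2 i hi)
    · rw [hnil i hi]; exact c2.len i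
  obtain ⟨N2, hN2⟩ : ∃ N2, ∀ i, (c2.st i).length ≤ N2 := by
    obtain ⟨N2, hN2⟩ := (c2.fin.image fun i => (c2.st i).length).bddAbove
    refine ⟨N2, fun i => ?_⟩
    by_cases hi : c2.st i ≠ []
    · exact hN2 (Set.mem_image_of_mem _ hi)
    · rw [not_not] at hi
      rw [hi]; exact Nat.zero_le _
  obtain ⟨q, hq, w, hw⟩ := z.decides N2 c2.p
  have hc2i' := St.le_def.1 hc2i
  have hqp : q ≤ p := hq.trans hc2i'.1
  have hqL := hword q N2 w (RO.mem_down hp0 hqp) hw
  obtain ⟨c, hc, hT, hcg⟩ := mem_Lt.1 hqL v q le_rfl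
  let d : St Ω P :=
    { p := c.p
      st := c2.st
      pr := fun i => c2.pr i ++ c.pr i
      fin := c2.fin
      card := c2.card
      len := fun i => by
        rw [List.length_append, len_pr hT.1]; exact hlen2 i
      bd := fun i y hy => by
        rcases List.mem_append.1 hy with hy | hy
        · exact c2.bd i y hy
        · exact c.bd i y hy }
  have hd2 : d ≤ c2 := by
    refine St.le_def.2 ⟨hc.trans hq, fun i => List.prefix_rfl,
      fun i => List.subset_append_left _ _, ?_⟩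
    intro i m hm hm'
    exact absurd hm (not_lt.2 hm')
  have hdc : d ≤ c := by
    refine St.le_def.2 ⟨le_rfl, fun i => ?_, fun i => List.subset_append_right _ _, ?_⟩
    · have h1 := hc2i'.2.1 i
      have h2 : ci.st i = c.st i := (st_eq hT.1 i).symm
      rw [← h2]; exact h1
    · intro i m hm hm' y hy
      obtain ⟨l, hl, hly⟩ := List.getElem_of_mem hy
      have hl' : l < (t i).2.length := by rw [← len_pr hT.1]; exact hl
      have hpos : pos (t := t) c ⟨i, ⟨l, hl'⟩⟩ y := by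
        show (c.pr i)[l]? = some y
        rw [List.getElem?_eq_getElem hl, hly]
      have hm2 : m < (c2.st i).length := hm
      have hmN : m < N2 := hm2.trans_le (hN2 i)
      have h3 := hT.2 m (by rw [List.length_ofFn]; exact hmN) ⟨i, ⟨l, hl'⟩⟩ y hpos
      rw [List.getElem_ofFn] at h3
      have hmem : ((t i).2[l], xi ⟨i, ⟨l, hl'⟩⟩) ∈ ci.pr i := by
        show _ ∈ List.ofFn fun l : Fin (t i).2.length => ((t i).2[(l : ℕ)], xi ⟨i, l⟩)
        rw [List.mem_ofFn]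
        exact ⟨⟨l, hl'⟩, rfl⟩
      have hm3 : (ci.st i).length ≤ m := by
        have h2 : ci.st i = c.st i := (st_eq hT.1 i).symm
        rw [h2]; exact hm'
      have h4 := hc2i'.2.2.2 i m hm2 hm3 _ hmem
      have h5 : c.p ∈ (xi ⟨i, ⟨l, hl'⟩⟩).v m (w m ⟨i, ⟨l, hl'⟩⟩) :=
        hxi _ m (w m) c.p (RO.mem_down (hw m hmN) hc)
      have h6 := Nm.mem_memv.1 h4 c.p (hc.trans hq) _ h5
      refine Nm.mem_memv.2 fun q' hq' a ha => ?_
      rw [Nm.uniq ha (RO.mem_down h3 hq')]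
      exact h6
  have h1 : d ∈ g.v n v := RO.mem_down hv (hd2.trans hc2)
  exact lt_irrefl v (mem_gtv.1 (RO.mem_down hcg hdc) d le_rfl v h1)

end CofSN
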