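import Pool.Agent.CofSN.Targets

/-!
# MP_3e8648_lc, target CSU: the countable chain condition of the successor step
-/

set_option autoImplicit false

namespace CofSN

namespace CSU_

variable {Ω P : Type} [Preorder P]

/-- stems twice as long as the promises -/
theorem long (hE : T_EXT) (c : St Ω P) :
    ∃ c' : St Ω P, c' ≤ c ∧ ∀ i, 2 * (c'.pr i).length ≤ (c'.st i).length := by
  obtain ⟨N, hN⟩ : ∃ N : ℕ, ∀ i ∈ {i | c.st i ≠ []}, 2 * (c.pr i).length ≤ N := by
    obtain ⟨N, hN⟩ := (c.fin.image fun i => 2 * (c.pr i).length).bddAbove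
    exact ⟨N, fun i hi => hN ⟨i, hi, rfl⟩⟩
  obtain ⟨c', h1, h2, h3, h4⟩ := hE Ω P c {i | c.st i ≠ []} N c.fin
  refine ⟨c', h1, fun i => ?_⟩
  by_cases hi : i ∈ {i | c.st i ≠ []}
  · rw [h2]
    exact (hN i hi).trans (h3 i hi)
  · have h5 : c.st i = [] := by
      by_contra h
      exact hi h
    have h6 := c.len i
    rw [h5] at h6
    rw [h2]
    simp only [List.length_nil, Nat.le_zero] at h6
    rw [h6]
    exact Nat.zero_le _

theorem nil_pr {c : St Ω P} {i : Ω → Nm (RO P) ℕ} (h : c.st i = []) : c.pr i = [] := by
  have h6 := c.len i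
  rw [h] at h6
  simp only [List.length_nil, Nat.le_zero] at h6
  exact List.length_eq_zero_iff.1 h6

/-- a common extension -/
theorem common (a b : St Ω P) (q : P) (hqa : q ≤ a.p) (hqb : q ≤ b.p)
    (ha : ∀ i, 2 * (a.pr i).length ≤ (a.st i).length)
    (hb : ∀ i, 2 * (b.pr i).length ≤ (b.st i).length)
    (hab : ∀ i, a.st i ≠ [] → b.st i ≠ [] → a.st i = b.st i) : Cmp a b := by
  classical
  set s : (Ω → Nm (RO P) ℕ) → List (Finset ℕ) :=
    fun i => if a.st i = [] then b.st i else a.st i with hs
  have hsa : ∀ i, s i = a.st i ∨ (a.st i = [] ∧ a.pr i = []) := by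
    intro i
    by_cases h : a.st i = []
    · exact Or.inr ⟨h, nil_pr h⟩
    · refine Or.inl ?_
      simp only [hs, if_neg h]
  have hsb : ∀ i, s i = b.st i ∨ (b.st i = [] ∧ b.pr i = []) := by
    intro i
    by_cases h : a.st i = []
    · refine Or.inl ?_
      simp only [hs, if_pos h]
    · by_cases h' : b.st i = []
      · exact Or.inr ⟨h', nil_pr h'⟩
      · refine Or.inl ?_
        simp only [hs, if_neg h]
        exact hab i h h'
  have hab2 : ∀ i, s i = a.st i ∨ s i = b.st i := by
    intro i
    by_cases h : a.st i = []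
    · refine Or.inr ?_
      simp only [hs, if_pos h]
    · refine Or.inl ?_
      simp only [hs, if_neg h]
  let d : St Ω P :=
    { p := q
      st := s
      pr := fun i => a.pr i ++ b.pr i
      fin := by
        refine (a.fin.union b.fin).subset fun i hi => ?_
        rcases hab2 i with h | h
        · refine Or.inl ?_
          have hi' : s i ≠ [] := hi
          rw [h] at hi'
          exact hi'
        · refine Or.inr ?_
          have hi' : s i ≠ [] := hi
          rw [h] at hi'
          exact hi'
      card := by
        intro i n hn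
        rcases hab2 i with h | h
        · simp only [h] at hn ⊢
          exact a.card i n hn
        · simp only [h] at hn ⊢
          exact b.card i n hn
      len := by
        intro i
        have h1 := ha i
        have h2 := hb i
        have h3 : 2 * (a.pr i).length ≤ (s i).length := by
          rcases hsa i with h | h
          · rw [h]
            exact h1
          · rw [h.2]
            exact Nat.zero_le _
        have h4 : 2 * (b.pr i).length ≤ (s i).length := by
          rcases hsb i with h | h
          · rw [h]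
            exact h2
          · rw [h.2]
            exact Nat.zero_le _
        rw [List.length_append]
        omega
      bd := by
        intro i y hy
        rcases List.mem_append.1 hy with h | h
        · exact a.bd i y h
        · exact b.bd i y h }
  refine ⟨d, St.le_def.2 ⟨hqa, ?_, ?_, ?_⟩, St.le_def.2 ⟨hqb, ?_, ?_, ?_⟩⟩
  · intro i
    change a.st i <+: s i
    rcases hsa i with h | h
    · rw [h]
    · rw [h.1]
      exact List.nil_prefix
  · intro i
    exact List.subset_append_left _ _
  · intro i n hn hn2 y hy
    exfalso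
    have hn' : n < (s i).length := hn
    rcases hsa i with h | h
    · rw [h] at hn'
      omega
    · rw [h.2] at hy
      exact absurd hy List.not_mem_nil
  · intro i
    change b.st i <+: s i
    rcases hsb i with h | h
    · rw [h]
    · rw [h.1]
      exact List.nil_prefix
  · intro i
    exact List.subset_append_right _ _
  · intro i n hn hn2 y hy
    exfalso
    have hn' : n < (s i).length := hn
    rcases hsb i with h | h
    · rw [h] at hn'
      omega
    · rw [h.2] at hy
      exact absurd hy List.not_mem_nil

end CSU_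

open CSU_ in
/-- CSU: the successor step has the countable chain condition -/
theorem p_CSU (hEXT : T_EXT) (hDEL : T_DEL) : T_CSU := by
  classical
  intro Ω P _ hP ι f hf
  by_contra hι
  choose g hg1 hg2 using fun a => long hEXT (f a)
  obtain ⟨S, r, hS, hr⟩ := hDEL ι (Ω → Nm (RO P) ℕ) (fun a => (g a).fin.toFinset) hι
  obtain ⟨t, ht⟩ : ∃ t : (↥r → List (Finset ℕ)),
      ¬ {a | a ∈ S ∧ (fun i : ↥r => (g a).st i) = t}.Countable := by
    by_contra hcon
    push Not at hcon
    apply hS
    refine (Set.countable_iUnion hcon).mono fun a ha => ?_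
    simp only [Set.mem_iUnion]
    exact ⟨_, ha, rfl⟩
  set S' : Set ι := {a | a ∈ S ∧ (fun i : ↥r => (g a).st i) = t} with hS'
  obtain ⟨a, b, hne, q, hqa, hqb⟩ : ∃ a b : ↥S', a ≠ b ∧ ∃ q, q ≤ (g a).p ∧ q ≤ (g b).p := by
    by_contra hcon
    push Not at hcon
    apply ht
    have := hP ↥S' (fun a => (g a).p) (fun a b hab hc => by
      obtain ⟨q, h1, h2⟩ := hc
      exact hcon a b hab q h1 h2)
    exact Set.countable_coe_iff.1 this
  have hne' : (a : ι) ≠ b := fun h => hne (Subtype.ext h)
  have hst : ∀ i, (g a).st i ≠ [] → (g b).st i ≠ [] → (g a).st i = (g b).st i := by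
    intro i h1 h2
    have h3 := hr a a.2.1 b b.2.1 hne'
    have h4 : i ∈ (r : Set (Ω → Nm (RO P) ℕ)) := by
      rw [← h3]
      refine ⟨?_, ?_⟩
      · simp only [Set.Finite.coe_toFinset]
        exact h1
      · simp only [Set.Finite.coe_toFinset]
        exact h2
    have h5 := congrFun a.2.2 ⟨i, h4⟩
    have h6 := congrFun b.2.2 ⟨i, h4⟩
    simp only at h5 h6
    rw [h5, h6]
  obtain ⟨d, h1, h2⟩ := common (g a) (g b) q hqa hqb (hg2 a) (hg2 b) hst
  exact hf a b hne' ⟨d, h1.trans (hg1 a), h2.trans (hg1 b)⟩

end CofSN
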