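import Pool.Agent.CofSN.Defs

/-!
# MP_3e8648_lc: the category of sets with a relation has colimits (helper90)
-/

set_option autoImplicit false

namespace CofSN

open CategoryTheory CategoryTheory.Limits

/-- a type with a relation -/
structure RT where
  V : Type
  r : V → V → Prop

namespace RT

/-- relation preserving maps -/
@[ext] structure Hom (X Y : RT) where
  f : X.V → Y.V
  h : ∀ a b, X.r a b → Y.r (f a) (f b)

instance : Category RT where
  Hom := Hom
  id X := ⟨id, fun _ _ h => h⟩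
  comp f g := ⟨g.f ∘ f.f, fun a b h => g.h _ _ (f.h a b h)⟩

/-- the map -/
def mf {X Y : RT} (f : X ⟶ Y) : X.V → Y.V := Hom.f f

theorem mf_ext {X Y : RT} {f g : X ⟶ Y} (h : ∀ x, mf f x = mf g x) : f = g :=
  Hom.ext (funext h)

theorem mf_r {X Y : RT} (f : X ⟶ Y) {a b : X.V} (h : X.r a b) : Y.r (mf f a) (mf f b) :=
  Hom.h f a b h

@[simp] theorem id_f (X : RT) (x : X.V) : mf (𝟙 X) x = x := rfl
@[simp] theorem comp_f {X Y Z : RT} (f : X ⟶ Y) (g : Y ⟶ Z) (x : X.V) :
    mf (f ≫ g) x = mf g (mf f x) := rfl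

variable {K : Type} [SmallCategory K] (F : K ⥤ RT)

/-- the points of the colimit -/
def CV : Type := Quot fun (x y : Σ k, (F.obj k).V) => ∃ f : x.1 ⟶ y.1, mf (F.map f) x.2 = y.2

/-- the map to the colimit -/
def ci (k : K) (a : (F.obj k).V) : CV F := Quot.mk _ ⟨k, a⟩

theorem ci_w {k l : K} (f : k ⟶ l) (a : (F.obj k).V) : ci F l (mf (F.map f) a) = ci F k a :=
  (Quot.sound ⟨f, rfl⟩).symm

/-- the relation on the colimit -/
def cr (x y : CV F) : Prop :=
  ∃ (k : K) (a b : (F.obj k).V), (F.obj k).r a b ∧ ci F k a = x ∧ ci F k b = y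

/-- the colimit cocone -/
def cc : Cocone F where
  pt := ⟨CV F, cr F⟩
  ι := {
    app := fun k => ⟨ci F k, fun a b h => ⟨k, a, b, h, rfl, rfl⟩⟩
    naturality := by
      intro i j f
      refine mf_ext fun x => ?_
      exact ci_w F f x }

/-- it is a colimit -/
def ccl : IsColimit (cc F) where
  desc s := ⟨Quot.lift (fun x => mf (s.ι.app x.1) x.2) (by
      rintro ⟨k, a⟩ ⟨l, b⟩ ⟨f, hf⟩
      dsimp only at f hf
      have h := congrArg (fun g => mf g a) (s.w f)
      simp only [comp_f] at h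
      rw [hf] at h
      exact h.symm), by
    rintro x y ⟨k, a, b, h, rfl, rfl⟩
    exact mf_r (s.ι.app k) h⟩
  fac s k := mf_ext fun x => rfl
  uniq s m hm := by
    refine mf_ext fun x => ?_
    obtain ⟨⟨k, a⟩, rfl⟩ := Quot.exists_rep x
    exact congrArg (fun g => mf g a) (hm k)

instance : HasColimitsOfShape K RT := ⟨fun F => ⟨⟨⟨cc F, ccl F⟩⟩⟩⟩

end RT

end CofSN
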