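import Pool.Agent.CofSN.Targets

/-!
# MP_3e8648_lc, target DEL: the Δ-system lemma
-/

set_option autoImplicit false

namespace CofSN

namespace DEL_

open Set

lemma step {ι α : Type} (n : ℕ) : ∀ (F : ι → Finset α) (S : Set ι), ¬ S.Countable →
    (∀ i ∈ S, (F i).card = n) → ∃ T ⊆ S, ∃ r : Finset α, ¬ T.Countable ∧
    ∀ i ∈ T, ∀ j ∈ T, i ≠ j → ((F i : Set α) ∩ (F j : Set α)) = (r : Set α) := by
  classical
  induction n with
  | zero =>
    intro F S hS hF
    refine ⟨S, Subset.rfl, ∅, hS, fun i hi j hj _ => ?_⟩
    rw [Finset.card_eq_zero.mp (hF i hi)]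
    simp
  | succ n ih =>
    intro F S hS hF
    by_cases hx : ∃ x, ¬ {i | i ∈ S ∧ x ∈ F i}.Countable
    · obtain ⟨x, hx⟩ := hx
      obtain ⟨T, hTS, r, hT, hr⟩ := ih (fun i => (F i).erase x) {i | i ∈ S ∧ x ∈ F i} hx (by
        rintro i ⟨hi, hxi⟩
        rw [Finset.card_erase_of_mem hxi, hF i hi]
        rfl)
      refine ⟨T, fun i hi => (hTS hi).1, insert x r, hT, fun i hi j hj hij => ?_⟩
      have h := hr i hi j hj hij
      have hxi : x ∈ F i := (hTS hi).2
      have hxj : x ∈ F j := (hTS hj).2
      ext y
      have hy := Set.ext_iff.mp h y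
      simp only [Finset.coe_erase, Set.mem_inter_iff, Set.mem_sdiff, Finset.mem_coe,
        Set.mem_singleton_iff] at hy
      simp only [Finset.coe_insert, Set.mem_insert_iff, Set.mem_inter_iff, Finset.mem_coe]
      by_cases hyx : y = x
      · subst hyx
        simp [hxi, hxj]
      · rw [← hy]
        simp [hyx]
    · have hx' : ∀ x, {i | i ∈ S ∧ x ∈ F i}.Countable := fun x => by
        by_contra h
        exact hx ⟨x, h⟩
      -- a maximal family of indices with pairwise disjoint sets
      obtain ⟨T, hT⟩ : ∃ T, Maximal (fun T : Set ι => T ⊆ S ∧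
          T.PairwiseDisjoint F) T := by
        refine zorn_subset {T : Set ι | T ⊆ S ∧ T.PairwiseDisjoint F} ?_
        intro c hc hch
        refine ⟨⋃₀ c, ⟨sUnion_subset fun t ht => (hc ht).1, ?_⟩,
          fun t ht => subset_sUnion_of_mem ht⟩
        exact (pairwiseDisjoint_sUnion hch.directedOn).mpr fun t ht => (hc ht).2
      have hTS : T ⊆ S := hT.prop.1
      have hTd : T.PairwiseDisjoint F := hT.prop.2
      by_cases hc : T.Countable
      · exfalso
        apply hS
        have hK : (⋃ i ∈ T, (F i : Set α)).Countable :=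
          hc.biUnion fun i _ => (F i).countable_toSet
        refine (hK.biUnion (t := fun x _ => {i | i ∈ S ∧ x ∈ F i}) fun x _ => hx' x).mono ?_
        intro i hi
        by_contra hcon
        have hdis : ∀ j ∈ T, Disjoint (F i) (F j) := by
          intro j hj
          rw [Finset.disjoint_left]
          intro x hxi hxj
          apply hcon
          simp only [Set.mem_iUnion]
          exact ⟨x, ⟨j, hj, hxj⟩, hi, hxi⟩
        have hmem : i ∈ T := by
          refine hT.le_of_ge (y := insert i T) ⟨insert_subset hi hTS, ?_⟩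
            (subset_insert i T) (mem_insert i T)
          exact hTd.insert fun j hj _ => hdis j hj
        have h0 := hdis i hmem
        rw [disjoint_self] at h0
        have h1 := hF i hi
        rw [h0] at h1
        simp at h1
      · refine ⟨T, hTS, ∅, hc, fun i hi j hj hij => ?_⟩
        have h := hTd hi hj hij
        rw [Function.onFun, ← Finset.disjoint_coe] at h
        rw [h.inter_eq]
        simp

end DEL_

/-- DEL: the Δ-system lemma -/
theorem p_DEL : T_DEL := by
  intro ι α F hι
  have h : ∃ n : ℕ, ¬ {i : ι | (F i).card = n}.Countable := by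
    by_contra hcon
    push Not at hcon
    apply hι
    rw [← Set.countable_univ_iff]
    have : (Set.univ : Set ι) = ⋃ n : ℕ, {i : ι | (F i).card = n} := by
      ext i
      simp
    rw [this]
    exact Set.countable_iUnion hcon
  obtain ⟨n, hn⟩ := h
  obtain ⟨T, -, r, hT, hr⟩ := DEL_.step n F _ hn (fun i hi => hi)
  exact ⟨T, r, hT, hr⟩

end CofSN
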