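import Pool.Agent.CofSN.RO

/-!
# MP_3e8648_lc: names, projections, the successor step (helper90)
-/

set_option autoImplicit false

namespace CofSN

/-! ## Boolean valued sequences -/

/-- a `B`-valued sequence of elements of `α` -/
@[ext] structure Nm (B : Type) [CompleteBooleanAlgebra B] (α : Type) where
  /-- `v n a` is the Boolean value of `x(n) = a` -/
  v : ℕ → α → B
  disj : ∀ n a b, a ≠ b → v n a ⊓ v n b = ⊥
  tot : ∀ n, ⨆ a, v n a = ⊤

namespace Nm

variable {B : Type} [CompleteBooleanAlgebra B] {α β : Type}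

/-- Boolean value of `x = y` -/
def eqv (x y : Nm B α) : B := ⨅ n, ⨆ a, x.v n a ⊓ y.v n a

/-- Boolean value of `R (x(n)) (y(m))` -/
def rel (R : α → β → Prop) (x : Nm B α) (y : Nm B β) (n m : ℕ) : B :=
  ⨆ a, ⨆ b, ⨆ (_ : R a b), x.v n a ⊓ y.v m b

/-- Boolean value of `x(n) ∈ T` -/
def memv (x : Nm B α) (n : ℕ) (T : Set α) : B := ⨆ a ∈ T, x.v n a

/-- Boolean value of `x(n) ≤ y(n)` for all `n` -/
def leA (x y : Nm B ℕ) : B := ⨅ n, rel (· ≤ ·) x y n n

/-- Boolean value of `x(n) ≤ y(n)` for all but finitely many `n` -/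
def leS (x y : Nm B ℕ) : B := ⨆ m, ⨅ n, ⨅ (_ : m ≤ n), rel (· ≤ ·) x y n n

/-- Boolean value of `x(n) ∈ S(n)` for all but finitely many `n` -/
def capt (x : Nm B ℕ) (S : Nm B (Finset ℕ)) : B :=
  ⨆ m, ⨅ n, ⨅ (_ : m ≤ n), rel (fun a T => a ∈ T) x S n n

end Nm

/-! ## Embeddings with projections -/

/-- `e` is a complete embedding of `P` in `Q` with projection `π` -/
structure EP {P Q : Type} [Preorder P] [Preorder Q] (e : P → Q) (π : Q → P) : Prop where
  emono : Monotone e
  pmono : Monotone π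
  pe : ∀ p, π (e p) ≤ p
  pe' : ∀ p, p ≤ π (e p)
  ep : ∀ q, q ≤ e (π q)
  lift : ∀ q p, p ≤ π q → ∃ q' ≤ q, q' ≤ e p

namespace RO

variable {P Q : Type} [Preorder P] [Preorder Q]

/-- preimage of a regular set under a projection -/
def cm {e : P → Q} {π : Q → P} (h : EP e π) (U : RO P) : RO Q where
  c := {q | π q ∈ U}
  down := fun _ _ hq hp => mem_down hp (h.pmono hq)
  reg := by
    intro p hp
    refine mem_reg fun q hq => ?_
    obtain ⟨q', h1, h2⟩ := h.lift p q hq
    obtain ⟨r, hr, hrU⟩ := hp q' h1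
    exact ⟨π r, (h.pmono (hr.trans h2)).trans (h.pe q), hrU⟩

theorem mem_cm {e : P → Q} {π : Q → P} (h : EP e π) (U : RO P) (q : Q) :
    q ∈ cm h U ↔ π q ∈ U := Iff.rfl

end RO

/-- two conditions are compatible -/
def Cmp {P : Type} [Preorder P] (p q : P) : Prop := ∃ r, r ≤ p ∧ r ≤ q

/-- the countable chain condition, for families -/
def CCC (P : Type) [Preorder P] : Prop :=
  ∀ (ι : Type) (f : ι → P), (∀ i j, i ≠ j → ¬ Cmp (f i) (f j)) → Countable ι

/-! ## The successor step -/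

variable (Ω : Type) (P : Type) [Preorder P]

/-- Conditions of the successor step: a condition of `P`, and for every sequence `i` of reals
of `P` indexed by `Ω` (finitely many of them active) a finite slalom `st i` of widths
`1, 2, 3, …` and a list of promises `(ξ, x)`, `x ≤ i ξ`. -/
@[ext] structure St where
  p : P
  st : (Ω → Nm (RO P) ℕ) → List (Finset ℕ)
  pr : (Ω → Nm (RO P) ℕ) → List (Ω × Nm (RO P) ℕ)
  fin : {i | st i ≠ []}.Finite
  card : ∀ i n (h : n < (st i).length), ((st i)[n]).card ≤ n + 1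
  len : ∀ i, (pr i).length ≤ (st i).length
  bd : ∀ i, ∀ y ∈ pr i, Nm.leA y.2 (i y.1) = ⊤

namespace St

variable {Ω P}

instance : Preorder (St Ω P) where
  le c' c := c'.p ≤ c.p ∧ (∀ i, c.st i <+: c'.st i) ∧ (∀ i, c.pr i ⊆ c'.pr i) ∧
    ∀ i n (h : n < (c'.st i).length), (c.st i).length ≤ n → ∀ y ∈ c.pr i,
      c'.p ∈ Nm.memv y.2 n (((c'.st i)[n] : Finset ℕ) : Set ℕ)
  le_refl c := ⟨le_rfl, fun _ => List.prefix_rfl, fun _ => List.Subset.refl _,
    fun _ _ h h' => absurd h (not_lt.2 h')⟩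
  le_trans := by
    intro a b c hab hbc
    refine ⟨hab.1.trans hbc.1, fun i => (hbc.2.1 i).trans (hab.2.1 i),
      fun i => List.Subset.trans (hbc.2.2.1 i) (hab.2.2.1 i), ?_⟩
    intro i n h hn y hy
    by_cases hn' : n < (b.st i).length
    · have h1 := hbc.2.2.2 i n hn' hn y hy
      have h2 : (a.st i)[n] = (b.st i)[n] := ((hab.2.1 i).getElem hn').symm
      rw [h2]
      exact RO.mem_down h1 hab.1
    · exact hab.2.2.2 i n h (not_lt.1 hn') y (hbc.2.2.1 i hy)

theorem le_def {c' c : St Ω P} : c' ≤ c ↔ c'.p ≤ c.p ∧ (∀ i, c.st i <+: c'.st i) ∧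
    (∀ i, c.pr i ⊆ c'.pr i) ∧
    ∀ i n (h : n < (c'.st i).length), (c.st i).length ≤ n → ∀ y ∈ c.pr i,
      c'.p ∈ Nm.memv y.2 n (((c'.st i)[n] : Finset ℕ) : Set ℕ) := Iff.rfl

/-- the condition with no information on the slaloms -/
def emb (p : P) : St Ω P where
  p := p
  st := fun _ => []
  pr := fun _ => []
  fin := by simp
  card := by simp
  len := by simp
  bd := by simp

/-- the same slalom information over another condition of `P` -/
def put (q : P) (c : St Ω P) : St Ω P := { c with p := q }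

end St

/-- the Boolean value of `S(n) = T` for the generic slalom with index `i` -/
def slv {Ω P : Type} [Preorder P] (i : Ω → Nm (RO P) ℕ) (n : ℕ) (T : Finset ℕ) : RO (St Ω P) :=
  RO.gen {c | ∃ h : n < (c.st i).length, (c.st i)[n] = T}

end CofSN
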