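import Pool.Agent.CofSN.Targets

/-!
# MP_3e8648_lc: target EPE, the embedding of `P` in `St Ω P` (helper49)
-/

set_option autoImplicit false

namespace CofSN

namespace EPE_

variable {Ω P : Type} [Preorder P]

theorem le_emb (c : St Ω P) (p : P) (h : c.p ≤ p) : c ≤ (St.emb p : St Ω P) := by
  refine ⟨h, fun i => List.nil_prefix, fun i => List.nil_subset _, ?_⟩
  intro i n _ _ y hy
  exact absurd hy (by simp [St.emb])

theorem put_le (c : St Ω P) (p : P) (h : p ≤ c.p) : St.put p c ≤ c :=
  ⟨h, fun _ => List.prefix_rfl, fun _ => List.Subset.refl _,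
    fun _ _ h h' => absurd h (not_lt.2 h')⟩

end EPE_

theorem p_EPE : T_EPE := by
  intro Ω P _
  exact
  { emono := fun p q h => EPE_.le_emb _ _ h
    pmono := fun a b h => h.1
    pe := fun p => le_rfl
    pe' := fun p => le_rfl
    ep := fun q => EPE_.le_emb _ _ le_rfl
    lift := fun q p h => ⟨St.put p q, EPE_.put_le q p h, EPE_.le_emb _ _ le_rfl⟩ }

end CofSN
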