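import Pool.Agent.CofSN.Targets

/-!
# MP_3e8648_lc: extending the slaloms (helper86)
-/

set_option autoImplicit false

namespace CofSN

namespace EXT_

variable {Ω P : Type} [Preorder P]

/-- the next values of finitely many promises decided at once -/
theorem dec (l : List (Ω × Nm (RO P) ℕ)) (n : ℕ) (p : P) :
    ∃ q ≤ p, ∃ T : Finset ℕ, T.card ≤ l.length ∧ ∀ y ∈ l, ∃ a ∈ T, q ∈ y.2.v n a := by
  classical
  induction l with
  | nil => exact ⟨p, le_rfl, ∅, by simp, by simp⟩
  | cons x l ih =>
    obtain ⟨q, hq, T, hT, h⟩ := ih
    obtain ⟨r, hr, a, ha⟩ := x.2.decide n q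
    refine ⟨r, hr.trans hq, insert a T, (Finset.card_insert_le a T).trans (by simpa using hT), ?_⟩
    intro y hy
    rcases List.mem_cons.1 hy with rfl | hy
    · exact ⟨a, Finset.mem_insert_self a T, ha⟩
    · obtain ⟨b, hb, hb2⟩ := h y hy
      exact ⟨b, Finset.mem_insert_of_mem hb, RO.mem_down hb2 hr⟩

/-- one more set at one index -/
theorem step (c : St Ω P) (i : Ω → Nm (RO P) ℕ) :
    ∃ c' : St Ω P, c' ≤ c ∧ c'.pr = c.pr ∧ (c'.st i).length = (c.st i).length + 1 ∧
      ∀ j, j ≠ i → c'.st j = c.st j := by
  classical
  obtain ⟨q, hq, T, hT, h⟩ := dec (c.pr i) (c.st i).length c.p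
  have hself : Function.update c.st i (c.st i ++ [T]) i = c.st i ++ [T] :=
    Function.update_self ..
  have hne : ∀ j, j ≠ i → Function.update c.st i (c.st i ++ [T]) j = c.st j := fun j hj =>
    Function.update_of_ne hj ..
  refine ⟨⟨q, Function.update c.st i (c.st i ++ [T]), c.pr, ?_, ?_, ?_, c.bd⟩, ?_, rfl, ?_, hne⟩
  · refine (c.fin.insert i).subset fun j hj => ?_
    by_cases hji : j = i
    · exact Or.inl hji
    · refine Or.inr ?_
      have h1 : Function.update c.st i (c.st i ++ [T]) j ≠ [] := hj
      rw [hne j hji] at h1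
      exact h1
  · intro j n hn
    by_cases hji : j = i
    · subst hji
      simp only [hself] at hn ⊢
      by_cases hn2 : n < (c.st j).length
      · rw [List.getElem_append_left hn2]
        exact c.card j n hn2
      · have hn3 : n = (c.st j).length := by
          rw [List.length_append, List.length_singleton] at hn
          omega
        subst hn3
        simp only [List.getElem_concat_length]
        exact (hT.trans (c.len j)).trans (Nat.le_succ _)
    · simp only [hne j hji] at hn ⊢
      exact c.card j n hn
  · intro j
    by_cases hji : j = i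
    · subst hji
      rw [hself, List.length_append]
      exact (c.len j).trans (Nat.le_add_right _ _)
    · rw [hne j hji]
      exact c.len j
  · refine St.le_def.2 ⟨hq, ?_, fun j => List.Subset.refl _, ?_⟩
    · intro j
      dsimp only
      by_cases hji : j = i
      · subst hji
        rw [hself]
        exact List.prefix_append _ _
      · rw [hne j hji]
    · intro j n hn hn2 y hy
      dsimp only at hn ⊢
      by_cases hji : j = i
      · subst hji
        have hn3 : n = (c.st j).length := by
          rw [hself, List.length_append, List.length_singleton] at hn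
          omega
        subst hn3
        simp only [hself, List.getElem_concat_length]
        obtain ⟨a, ha, ha2⟩ := h y hy
        refine Nm.mem_memv.2 fun r hr b hb => ?_
        rw [Nm.uniq hb (RO.mem_down ha2 hr)]
        exact ha
      · rw [hne j hji] at hn
        exact absurd hn (not_lt.2 hn2)
  · dsimp only
    rw [hself, List.length_append, List.length_singleton]

/-- many more sets at one index -/
theorem steps (i : Ω → Nm (RO P) ℕ) (N : ℕ) (c : St Ω P) :
    ∃ c' : St Ω P, c' ≤ c ∧ c'.pr = c.pr ∧ N ≤ (c'.st i).length ∧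
      ∀ j, j ≠ i → c'.st j = c.st j := by
  induction N with
  | zero => exact ⟨c, le_rfl, rfl, Nat.zero_le _, fun _ _ => rfl⟩
  | succ N ih =>
    obtain ⟨c1, h1, h2, h3, h4⟩ := ih
    obtain ⟨c2, k1, k2, k3, k4⟩ := step c1 i
    exact ⟨c2, k1.trans h1, k2.trans h2, by omega, fun j hj => (k4 j hj).trans (h4 j hj)⟩

end EXT_

open EXT_ in
/-- EXT: the slaloms can be made as long as one likes -/
theorem p_EXT : T_EXT := by
  intro Ω P _ c I N hI
  induction I, hI using Set.Finite.induction_on with
  | empty => exact ⟨c, le_rfl, rfl, fun i hi => absurd hi (Set.notMem_empty i), fun _ _ => rfl⟩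
  | @insert i I _ _ ih =>
    obtain ⟨c1, h1, h2, h3, h4⟩ := ih
    obtain ⟨c2, k1, k2, k3, k4⟩ := steps i N c1
    refine ⟨c2, k1.trans h1, k2.trans h2, ?_, ?_⟩
    · intro j hj
      by_cases hji : j = i
      · subst hji; exact k3
      · rw [k4 j hji]
        exact h3 j (hj.resolve_left hji)
    · intro j hj
      have hji : j ≠ i := fun e => hj (Or.inl e)
      rw [k4 j hji]
      exact h4 j fun e => hj (Or.inr e)

end CofSN
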