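import Pool.Agent.CofSN.Targets

/-!
# MP_3e8648_lc: assembly (helper90)
-/

set_option autoImplicit false

namespace CofSN

namespace FIN_

open Cardinal

theorem few_iUnion {K Θ : Type} [Infinite K] (S : K → Set Θ) (h : ∀ i, Few K (S i)) :
    Few K (⋃ i, S i) := by
  unfold Few at *
  refine (mk_iUnion_le_sum_mk).trans ((sum_le_sum _ _ h).trans ?_)
  rw [sum_const', mul_eq_self (aleph0_le_mk K)]

variable {P P0 Θ : Type} [Preorder P]

/-- projections are unique up to equivalence -/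
theorem ep_least {P Q : Type} [Preorder P] [Preorder Q] {e : P → Q} {π : Q → P} (h : EP e π)
    {q : Q} {p : P} (hq : q ≤ e p) : π q ≤ p := (h.pmono hq).trans (h.pe p)

theorem ep_refl {P Q : Type} [Preorder P] [Preorder Q] {e : P → Q} {π : Q → P} (h : EP e π)
    {p q : P} (hq : e p ≤ e q) : p ≤ q := (h.pe' p).trans (ep_least h hq)

end FIN_

open FIN_ Cardinal in
/-- FIN -/
theorem p_FIN (h_COF : T_COF) (h_CMH : T_CMH) (h_WOR : T_WOR) (h_TEP : T_TEP) (h_TCC : T_TCC)
    (h_TCT : T_TCT) (h_TR3 : T_TR3) (h_TR0 : T_TR0) (h_TSL : T_TSL) (h_COC : T_COC)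
    (h_CO3 : T_CO3) : T_FIN := by
  classical
  obtain ⟨L, i1, i2, i3, i4, i5, hinf, hcnt, hbdd⟩ := h_WOR
  let K : Type := L → L
  have hLK : Cardinal.mk L ≤ Cardinal.mk K := by
    refine Cardinal.mk_le_of_injective (f := fun a : L => (fun _ => a : L → L)) ?_
    intro a b hab
    exact congrFun hab a
  haveI : Infinite K := by
    rw [Cardinal.infinite_iff] at hinf ⊢
    exact hinf.trans hLK
  let Θ : Type := Set K
  let P0 : Type := Co Θ
  obtain ⟨T⟩ := tower_exists (WithTop L) L P0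
  have hEP : ∀ i : L, ∃ π, EP (T.e i ⊤ le_top) π := fun i => h_TEP _ _ _ T i ⊤ le_top
  choose π hE using hEP
  have hWT : ∀ i : L, (Set.Iio (i : WithTop L)).Countable := by
    intro i
    have : Set.Iio (i : WithTop L) ⊆ (fun a : L => (a : WithTop L)) '' Set.Iio i := by
      intro x hx
      cases x with
      | top => exact absurd hx (by simp)
      | coe a => exact ⟨a, by simpa using hx, rfl⟩
    exact ((hcnt i).image _).mono this
  have hC0 : CCC P0 := h_COC Θ
  have hCT : CCC (T.A ⊤) := h_TCT L L P0 T hcnt hbdd hC0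
  have hCC : ∀ j, CCC (T.A j) := by
    intro j
    cases j with
    | top => exact hCT
    | coe i => exact h_TCC _ _ _ T hC0 i (hWT i)
  have hJK : Cardinal.mk (WithTop L) ≤ Cardinal.mk K := by
    have : Cardinal.mk (WithTop L) = Cardinal.mk L + 1 := Cardinal.mk_option
    rw [this]
    exact Cardinal.add_le_of_le (Cardinal.aleph0_le_mk K) hLK
      (Cardinal.one_le_aleph0.trans (Cardinal.aleph0_le_mk K))
  have hR3 := h_TR3 K (WithTop L) L Θ P0 T Co.D hLK hJK hCC (h_CO3 K Θ) ⊤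
  -- projections between stages
  have hmid : ∀ (i j : L) (h : i ≤ j) (U : RO (T.A i)), ∃ V : RO (T.A j),
      RO.cm (hE i) U = RO.cm (hE j) V := by
    intro i j h U
    obtain ⟨ρ, hρ⟩ := h_TEP _ _ _ T i j (WithTop.coe_le_coe.2 h)
    refine ⟨RO.cm hρ U, RO.ext_mem fun q => ?_⟩
    rw [RO.mem_cm, RO.mem_cm, RO.mem_cm]
    have e1 : π i q ≤ ρ (π j q) := by
      refine ep_least (hE i) ?_
      rw [← T.e_trans i j ⊤ (WithTop.coe_le_coe.2 h) le_top]
      exact ((hE j).ep q).trans (T.e_mono _ _ _ _ _ (hρ.ep _))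
    have e2 : ρ (π j q) ≤ π i q := by
      refine ep_least hρ (ep_least (hE j) ?_)
      rw [T.e_trans]
      exact (hE i).ep q
    exact ⟨fun h => RO.mem_down h e2, fun h => RO.mem_down h e1⟩
  let Λ : Lev L (T.A ⊤) := {
    Lv := fun i => Set.range (RO.cm (hE i))
    mono := by
      rintro i j h _ ⟨U, rfl⟩
      obtain ⟨V, hV⟩ := hmid i j h U
      exact ⟨V, hV.symm⟩
    sup := by
      intro i S hS
      obtain ⟨_, h2, _⟩ := h_CMH _ _ _ _ (hE i)
      refine ⟨sSup (RO.cm (hE i) ⁻¹' S), ?_⟩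
      rw [h2, Set.image_preimage_eq_of_subset hS]
    cpl := by
      rintro i _ ⟨U, rfl⟩
      obtain ⟨h1, _⟩ := h_CMH _ _ _ _ (hE i)
      exact ⟨Uᶜ, h1 U⟩
    all := by
      intro U
      obtain ⟨i, U', h⟩ := h_TR0 L L P0 T π hE hbdd hCT U
      exact ⟨i, U', h.symm⟩
    bdd := hbdd }
  have hS : Slal Λ := by
    intro i f hf
    obtain ⟨_, _, _, h4, h5, _⟩ := h_CMH _ _ _ _ (hE i)
    choose f' hf' using fun ξ => h4 ℕ (f ξ) (hf ξ)
    obtain ⟨S, hS1, hS2⟩ := h_TSL L L P0 T π hE i f'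
    refine ⟨S, hS1, fun ξ x hx hle => ?_⟩
    obtain ⟨x', rfl⟩ := h4 ℕ x hx
    refine hS2 ξ x' ?_
    rw [hf' ξ, h5] at hle
    refine RO.eq_top_iff'.2 fun p => ?_
    have h6 := RO.eq_top_iff'.1 hle (T.e i ⊤ le_top p)
    rw [RO.mem_cm] at h6
    exact RO.mem_down h6 ((hE i).pe' p)
  obtain ⟨Y, hY1, hY2⟩ := h_COF L (T.A ⊤) Λ hS
  have hne : Nonempty (T.A ⊤) :=
    ⟨T.e ⊥ ⊤ bot_le (T.z.symm ⟨fun _ => none, by simp⟩)⟩
  refine ⟨RO (T.A ⊤), inferInstance, K, ?_, ⟨Y, hY1, hY2⟩, ?_⟩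
  · obtain ⟨p⟩ := hne
    intro h
    exact RO.notMem_bot p (h ▸ RO.mem_top p)
  · intro g
    let e0 : P0 → T.A ⊤ := fun p => T.e ⊥ ⊤ bot_le (T.z.symm p)
    -- the basic reals
    obtain ⟨π0, hπ0⟩ := h_TEP _ _ _ T ⊥ ⊤ bot_le
    have hEP0 : EP e0 (fun q => T.z (π0 q)) := {
      emono := fun p q h => T.e_mono _ _ _ _ _ (T.z.symm.monotone h)
      pmono := fun p q h => T.z.monotone (hπ0.pmono h)
      pe := fun p => by
        have h := T.z.monotone (hπ0.pe (T.z.symm p))
        rwa [T.z.apply_symm_apply] at h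
      pe' := fun p => by
        have h := T.z.monotone (hπ0.pe' (T.z.symm p))
        rwa [T.z.apply_symm_apply] at h
      ep := fun q => by
        have h := hπ0.ep q
        simpa [e0] using h
      lift := fun q p h => by
        obtain ⟨q', h1, h2⟩ := hπ0.lift q (T.z.symm p) (by
          have := T.z.symm.monotone h
          rwa [T.z.symm_apply_apply] at this)
        exact ⟨q', h1, h2⟩ }
    have hc : ∀ η : Θ, ∃ c : Nm (RO (T.A ⊤)) ℕ, ∀ n k p, Dc Co.D e0 η n k p → p ∈ c.v n k := by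
      intro η
      refine ⟨{
        v := fun n k => RO.gen {p | Dc Co.D e0 η n k p}
        disj := ?_
        tot := ?_ }, fun n k p hp q hq => ⟨q, le_rfl, p, hp, hq⟩⟩
      · intro n k l hkl
        refine le_antisymm (fun p hp => ?_) bot_le
        obtain ⟨q, hq, s, ⟨a, ha, hsa⟩, hqs⟩ := hp.1 p le_rfl
        obtain ⟨r, hr, t, ⟨b, hb, htb⟩, hrt⟩ := hp.2 q hq
        exfalso
        have h1 : T.z (π0 r) ≤ a := ep_least hEP0 (hr.trans (hqs.trans hsa))
        have h2 : T.z (π0 r) ≤ b := ep_least hEP0 (hrt.trans htb)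
        have h3 := h1 _ _ ha
        have h4 := h2 _ _ hb
        rw [h3] at h4
        exact hkl (Option.some.inj h4)
      · intro n
        refine RO.eq_top_iff'.2 fun p => RO.mem_iSup.2 fun q _ => ?_
        let a : Co Θ := T.z (π0 q)
        by_cases ha : ∃ k, a.f (η, n) = some k
        · obtain ⟨k, hk⟩ := ha
          exact ⟨q, le_rfl, k, fun r hr => ⟨r, le_rfl, q, ⟨a, hk, hEP0.ep q⟩, hr⟩⟩
        · let b : Co Θ := ⟨Function.update a.f (η, n) (some 0), by
            refine (a.fin.union (Set.finite_singleton (η, n))).subset ?_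
            intro x hx
            by_cases hxe : x = (η, n)
            · exact Or.inr hxe
            · left
              simpa [Function.update_of_ne hxe] using hx⟩
          have hba : b ≤ a := by
            intro x k hk
            by_cases hxe : x = (η, n)
            · subst hxe; exact absurd ⟨k, hk⟩ ha
            · simpa [b, Function.update_of_ne hxe] using hk
          obtain ⟨q', h1, h2⟩ := hEP0.lift q b hba
          refine ⟨q', h1, 0, fun r hr => ⟨r, le_rfl, q', ⟨b, ?_, h2⟩, hr⟩⟩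
          change Function.update a.f (η, n) (some 0) (η, n) = some 0
          simp
    choose c hc using hc
    have hfew : Few K (⋃ i : K, {η : Θ | ∃ p : T.A ⊤, ∃ m, ∀ n, m ≤ n → ∀ q ≤ p, ∀ k l,
        Dc Co.D e0 η n k q → q ∈ (g i).v n l → k ≤ l}) :=
      few_iUnion _ fun i => hR3 (g i)
    have hex : ∃ η : Θ, η ∉ (⋃ i : K, {η : Θ | ∃ p : T.A ⊤, ∃ m, ∀ n, m ≤ n → ∀ q ≤ p, ∀ k l,
        Dc Co.D e0 η n k q → q ∈ (g i).v n l → k ≤ l}) := by
      by_contra hcon
      push Not at hcon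
      have h1 : Cardinal.mk Θ ≤ Cardinal.mk K := by
        have := Set.eq_univ_of_forall hcon
        rw [this] at hfew
        unfold Few at hfew
        rwa [Cardinal.mk_univ] at hfew
      exact absurd h1 (not_le.2 (by
        have : Cardinal.mk Θ = 2 ^ Cardinal.mk K := Cardinal.mk_set
        rw [this]
        exact Cardinal.cantor _))
    obtain ⟨η, hη⟩ := hex
    refine top_le_iff.1 (le_iSup_of_le (c η) ?_)
    refine le_iInf fun i p _ => ?_
    rw [RO.mem_compl]
    intro q _ hq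
    obtain ⟨r, hr, m, hm⟩ := Nm.mem_leS.1 hq q le_rfl
    refine hη (Set.mem_iUnion.2 ⟨i, r, m, fun n hn s hs k l hk hl => ?_⟩)
    exact hm n hn s hs k l (hc η n k s hk) hl

end CofSN
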