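import Pool.Agent.CofSN.Targets

/-!
# MP_3e8648_lc: levels are closed under the operations (INP)
-/

set_option autoImplicit false

namespace CofSN

namespace INP_

variable {L P : Type} [LinearOrder L] [Preorder P] (Λ : Lev L P)

theorem mem_iSup {ι : Sort*} {i : L} {U : ι → RO P} (h : ∀ j, U j ∈ Λ.Lv i) :
    (⨆ j, U j) ∈ Λ.Lv i := by
  rw [iSup]
  refine Λ.sup i _ ?_
  rintro _ ⟨j, rfl⟩
  exact h j

theorem mem_iInf {ι : Sort*} {i : L} {U : ι → RO P} (h : ∀ j, U j ∈ Λ.Lv i) :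
    (⨅ j, U j) ∈ Λ.Lv i := by
  have h1 : (⨅ j, U j) = (⨆ j, (U j)ᶜ)ᶜ := by
    rw [compl_iSup]
    simp only [compl_compl]
  rw [h1]
  exact Λ.cpl i _ (mem_iSup Λ fun j => Λ.cpl i _ (h j))

theorem mem_inf {i : L} {U V : RO P} (hU : U ∈ Λ.Lv i) (hV : V ∈ Λ.Lv i) :
    U ⊓ V ∈ Λ.Lv i := by
  have h1 : U ⊓ V = (sSup {Uᶜ, Vᶜ})ᶜ := by
    rw [sSup_pair, compl_sup, compl_compl, compl_compl]
  rw [h1]
  refine Λ.cpl i _ (Λ.sup i _ ?_)
  rintro W (rfl | rfl)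
  · exact Λ.cpl i _ hU
  · exact Λ.cpl i _ hV

end INP_

/-- INP: levels are closed under the operations -/
theorem p_INP : T_INP := by
  intro L P _ _ Λ α β i
  refine ⟨?_, ?_⟩
  · intro x y hx hy n a
    exact INP_.mem_inf Λ (hx n a.1) (hy n a.2)
  · intro x N G hx n b
    exact INP_.mem_iSup Λ fun s => INP_.mem_iSup Λ fun _ => INP_.mem_iInf Λ fun k => hx k (s k)

end CofSN
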