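import Pool.Agent.CofSN.Targets

/-!
# MP_3e8648_lc: INX, every name with countably many values has a level (helper29)
-/

set_option autoImplicit false

namespace CofSN

theorem p_INX : T_INX := by
  intro L P _ _ Λ α _ x
  choose ℓ hℓ using fun z : ℕ × α => Λ.all (x.v z.1 z.2)
  by_cases hα : Nonempty α
  · obtain ⟨g, hg⟩ := exists_surjective_nat (ℕ × α)
    obtain ⟨b, hb⟩ := Λ.bdd fun k => ℓ (g k)
    refine ⟨b, fun n a => ?_⟩
    obtain ⟨k, hk⟩ := hg (n, a)
    have h1 := hℓ (n, a)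
    rw [← hk] at h1
    have h2 := Λ.mono _ _ (hb k) h1
    rwa [hk] at h2
  · obtain ⟨i, _⟩ := Λ.all ⊤
    exact ⟨i, fun n a => (hα ⟨a⟩).elim⟩

end CofSN
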