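import Pool.Agent.CofSN.Targets

/-!
# MP_3e8648_lc: LIM, direct limits of length at most `K`
-/

set_option autoImplicit false

namespace CofSN

namespace LIM_

variable {A P : Type} [Preorder A] [Preorder P] {e : A → P} {π : P → A}

/-- the conditions of the smaller order which force a regular set -/
def pull (h : EP e π) (U : RO P) : RO A where
  c := {a | e a ∈ U}
  down := fun _ _ hq hp => RO.mem_down hp (h.emono hq)
  reg := by
    intro a ha
    refine RO.mem_reg fun q hq => ?_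
    obtain ⟨c, hc, hcU⟩ := ha (π q) ((h.pmono hq).trans (h.pe a))
    obtain ⟨q', h1, h2⟩ := h.lift q c hc
    exact ⟨q', h1, RO.mem_down hcU h2⟩

theorem mem_pull (h : EP e π) (U : RO P) (a : A) : a ∈ pull h U ↔ e a ∈ U := Iff.rfl

/-- forces `g(n) ≥ j` -/
def V (h : EP e π) (g : Nm (RO P) ℕ) (n j : ℕ) : RO A := pull h (g.memv n (Set.Ici j))

theorem mem_V (h : EP e π) (g : Nm (RO P) ℕ) (n j : ℕ) (a : A) :
    a ∈ V h g n j ↔ ∀ q ≤ e a, ∀ l, q ∈ g.v n l → j ≤ l := by
  rw [V, mem_pull, Nm.mem_memv]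
  rfl

/-- the name of the least `j` such that `g(n) ≥ j + 1` fails -/
def nm (h : EP e π) (g : Nm (RO P) ℕ) : Nm (RO A) ℕ where
  v n j := V h g n j ⊓ (V h g n (j + 1))ᶜ
  disj n a b hab := by
    have key : ∀ a b : ℕ, a < b → (V h g n a ⊓ (V h g n (a + 1))ᶜ) ⊓
        (V h g n b ⊓ (V h g n (b + 1))ᶜ) = ⊥ := by
      intro a b hab
      refine le_antisymm (fun q hq => ?_) bot_le
      have h1 := RO.mem_compl.1 hq.1.2 q le_rfl
      exact absurd ((mem_V h g n (a + 1) q).2 fun r hr l hl =>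
        le_trans hab ((mem_V h g n b q).1 hq.2.1 r hr l hl)) h1
    rcases lt_or_gt_of_ne hab with h1 | h1
    · exact key a b h1
    · rw [inf_comm]
      exact key b a h1
  tot n := by
    rw [RO.eq_top_iff']
    intro p
    refine RO.mem_iSup.2 fun q _ => ?_
    obtain ⟨s, hs, l, hl⟩ := g.decide n (e q)
    have hex : ∃ j, q ∉ V h g n (j + 1) := by
      refine ⟨l, fun hc => ?_⟩
      have := (mem_V h g n (l + 1) q).1 hc s hs l hl
      omega
    classical
    have h1 := Nat.find_spec hex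
    have h2 : q ∈ V h g n (Nat.find hex) := by
      rcases Nat.eq_zero_or_pos (Nat.find hex) with h0 | h0
      · rw [h0, mem_V]
        intro _ _ _ _
        omega
      · have h3 := Nat.find_min hex (m := Nat.find hex - 1) (by omega)
        rw [not_not, Nat.sub_add_cancel h0] at h3
        exact h3
    obtain ⟨r, hr, hrc⟩ := RO.exists_compl h1
    exact ⟨r, hr, Nat.find hex, RO.mem_down h2 hr, hrc⟩

theorem union_few (K : Type) [Infinite K] {ι Θ : Type} (hι : Cardinal.mk ι ≤ Cardinal.mk K)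
    (S : ι → Set Θ) (h : ∀ i, Few K (S i)) : Few K (⋃ i, S i) := by
  unfold Few at *
  calc Cardinal.mk (⋃ i, S i) ≤ Cardinal.sum fun i => Cardinal.mk (S i) :=
        Cardinal.mk_iUnion_le_sum_mk
    _ ≤ Cardinal.sum fun _ : ι => Cardinal.mk K := Cardinal.sum_le_sum _ _ h
    _ = Cardinal.mk ι * Cardinal.mk K := by rw [Cardinal.sum_const']
    _ ≤ Cardinal.mk K * Cardinal.mk K := by gcongr
    _ = Cardinal.mk K := Cardinal.mul_eq_self (Cardinal.aleph0_le_mk K)

end LIM_

open LIM_ in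
/-- LIM: direct limits of length at most `K` -/
theorem p_LIM : T_LIM := by
  intro K Θ P0 ι P _ _ A _ e π D e0 e1 hι hE hs he h3 g
  have hu := union_few K hι _ fun i => h3 i (nm (hE i) g)
  refine le_trans (Cardinal.mk_le_mk_of_subset ?_) hu
  rintro η ⟨p, m, hp⟩
  obtain ⟨i, a, rfl⟩ := hs p
  refine Set.mem_iUnion.2 ⟨i, a, m, fun n hn q hq k l hD hl => ?_⟩
  by_contra hkl
  obtain ⟨p0, hp0, hqp⟩ := hD
  refine RO.mem_compl.1 hl.2 q le_rfl ((mem_V (hE i) g n (l + 1) q).2 fun q' hq' l' hl' => ?_)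
  have h1 := hp n hn q' (hq'.trans ((hE i).emono hq)) k l'
    ⟨p0, hp0, hq'.trans (((hE i).emono hqp).trans (he i p0).le)⟩ hl'
  omega

end CofSN
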