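import Pool.Agent.CofSN.Targets

/-!
# MP_3e8648_lc: the maximum principle for names (helper76)
-/

set_option autoImplicit false

namespace CofSN

namespace MIX_

variable {B : Type} [CompleteBooleanAlgebra B] {α : Type}

/-- the join of the values at the smaller names -/
noncomputable def lo (φ : Nm B α → B) (y : Nm B α) : B :=
  ⨆ y', ⨆ (_ : WellOrderingRel y' y), φ y'

/-- the disjoint refinement -/
noncomputable def da (φ : Nm B α → B) (y : Nm B α) : B := φ y ⊓ (lo φ y)ᶜ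

theorem da_le (φ : Nm B α → B) (y : Nm B α) : da φ y ≤ φ y := inf_le_left

theorem da_disj_aux (φ : Nm B α → B) {y y' : Nm B α} (h : WellOrderingRel y' y) :
    da φ y ⊓ da φ y' = ⊥ := by
  have h1 : φ y' ≤ lo φ y := le_iSup₂_of_le y' h le_rfl
  have h2 : da φ y ⊓ da φ y' ≤ (lo φ y)ᶜ ⊓ lo φ y :=
    inf_le_inf inf_le_right ((da_le φ y').trans h1)
  rwa [compl_inf_eq_bot, le_bot_iff] at h2

theorem da_disj (φ : Nm B α → B) {y y' : Nm B α} (h : y ≠ y') : da φ y ⊓ da φ y' = ⊥ := by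
  rcases trichotomous_of WellOrderingRel y y' with h1 | h1 | h1
  · rw [inf_comm]
    exact da_disj_aux φ h1
  · exact absurd h1 h
  · exact da_disj_aux φ h1

theorem le_da (φ : Nm B α → B) (y : Nm B α) : φ y ≤ ⨆ y', da φ y' := by
  have wf : WellFounded (WellOrderingRel (α := Nm B α)) := WellOrderingRel.isWellOrder.wf
  induction y using wf.induction with
  | _ y ih =>
    have h1 : lo φ y ≤ ⨆ y', da φ y' := iSup₂_le fun y' h => ih y' h
    have h2 : φ y = (φ y ⊓ lo φ y) ⊔ da φ y := by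
      unfold da
      rw [← inf_sup_left, sup_compl_eq_top, inf_top_eq]
    rw [h2]
    exact sup_le (inf_le_right.trans h1) (le_iSup (da φ) y)

open Classical in
/-- the values of the mixture -/
noncomputable def mv [Inhabited α] (φ : Nm B α → B) (n : ℕ) (b : α) : B :=
  (⨆ y, da φ y ⊓ y.v n b) ⊔ (if b = default then (⨆ y, da φ y)ᶜ else ⊥)

theorem mv_disj [Inhabited α] (φ : Nm B α → B) (n : ℕ) (b c : α) (h : b ≠ c) :
    mv φ n b ⊓ mv φ n c = ⊥ := by
  classical
  have hA : ∀ b : α, (⨆ y, da φ y ⊓ y.v n b) ≤ ⨆ y, da φ y := fun b =>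
    iSup_mono fun y => inf_le_left
  have h1 : (⨆ y, da φ y ⊓ y.v n b) ⊓ (⨆ y, da φ y ⊓ y.v n c) = ⊥ := by
    rw [iSup_inf_iSup, iSup_eq_bot]
    rintro ⟨y, y'⟩
    by_cases hy : y = y'
    · subst hy
      rw [eq_bot_iff, ← y.disj n b c h]
      exact inf_le_inf inf_le_right inf_le_right
    · rw [eq_bot_iff, ← da_disj φ hy]
      exact inf_le_inf inf_le_left inf_le_left
  have h2 : ∀ b c : α, (⨆ y, da φ y ⊓ y.v n b) ⊓
      (if c = default then (⨆ y, da φ y)ᶜ else ⊥) = ⊥ := by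
    intro b c
    split_ifs
    · rw [eq_bot_iff, ← inf_compl_eq_bot (a := ⨆ y, da φ y)]
      exact inf_le_inf_right _ (hA b)
    · exact inf_bot_eq _
  have h3 : (if b = default then (⨆ y, da φ y)ᶜ else ⊥) ⊓
      (if c = default then (⨆ y, da φ y)ᶜ else ⊥) = ⊥ := by
    by_cases hb : b = default
    · have hc : c ≠ default := fun hc => h (hb.trans hc.symm)
      rw [if_neg hc, inf_bot_eq]
    · rw [if_neg hb, bot_inf_eq]
  unfold mv
  rw [inf_sup_left, inf_sup_right, inf_sup_right, h1, h2, h3, inf_comm, h2]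
  simp

theorem mv_tot [Inhabited α] (φ : Nm B α → B) (n : ℕ) : ⨆ b, mv φ n b = ⊤ := by
  classical
  have h1 : (⨆ y, da φ y) ≤ ⨆ b, mv φ n b := by
    refine iSup_le fun y => ?_
    have h2 : da φ y = ⨆ b, da φ y ⊓ y.v n b := by
      rw [← inf_iSup_eq, y.tot, inf_top_eq]
    rw [h2]
    exact iSup_mono fun b => (le_iSup (fun y => da φ y ⊓ y.v n b) y).trans le_sup_left
  have h2 : (⨆ y, da φ y)ᶜ ≤ ⨆ b, mv φ n b := by
    refine le_iSup_of_le default ?_
    unfold mv
    rw [if_pos rfl]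
    exact le_sup_right
  rw [eq_top_iff, ← sup_compl_eq_top (x := ⨆ y, da φ y)]
  exact sup_le h1 h2

/-- the mixture -/
noncomputable def mix [Inhabited α] (φ : Nm B α → B) : Nm B α where
  v := mv φ
  disj := mv_disj φ
  tot := mv_tot φ

theorem da_le_eqv [Inhabited α] (φ : Nm B α → B) (y : Nm B α) : da φ y ≤ y.eqv (mix φ) := by
  refine le_iInf fun n => ?_
  have h2 : da φ y = ⨆ b, da φ y ⊓ y.v n b := by
    rw [← inf_iSup_eq, y.tot, inf_top_eq]
  rw [h2]
  exact iSup_mono fun b => le_inf inf_le_right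
    ((le_iSup (fun y => da φ y ⊓ y.v n b) y).trans le_sup_left)

end MIX_

open MIX_ in
theorem p_MIX : T_MIX := by
  intro B _ α _ φ hφ
  refine ⟨mix φ, ?_⟩
  have h1 : (⨆ y, φ y) ≤ ⨆ y, da φ y := iSup_le fun y => le_da φ y
  refine h1.trans (iSup_le fun y => ?_)
  exact (le_inf (da_le φ y) (da_le_eqv φ y)).trans (hφ y (mix φ))

end CofSN
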