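import Mathlib

/-!
# MP_3e8648_lc: regular open sets of a preorder (helper90)

`RO P` is the complete Boolean algebra of the regular down sets of a preorder `P`
(smaller = stronger); `p ∈ U` means that the condition `p` forces `U`.
-/

set_option autoImplicit false

namespace CofSN

/-- a regular down set of the preorder `P` -/
@[ext] structure RO (P : Type) [Preorder P] where
  /-- the conditions in the set -/
  c : Set P
  down : ∀ p q : P, q ≤ p → p ∈ c → q ∈ c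
  reg : ∀ p : P, (∀ q ≤ p, ∃ r ≤ q, r ∈ c) → p ∈ c

namespace RO

variable {P : Type} [Preorder P]

instance : Membership P (RO P) := ⟨fun U p => p ∈ U.c⟩

theorem mem_def {U : RO P} {p : P} : p ∈ U ↔ p ∈ U.c := Iff.rfl

theorem mem_down {U : RO P} {p q : P} (h : p ∈ U) (hq : q ≤ p) : q ∈ U := U.down p q hq h

theorem mem_reg {U : RO P} {p : P} (h : ∀ q ≤ p, ∃ r ≤ q, r ∈ U) : p ∈ U := U.reg p h

theorem ext_mem {U V : RO P} (h : ∀ p, p ∈ U ↔ p ∈ V) : U = V := by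
  ext p; exact h p

/-- the regular set generated by an arbitrary set of conditions -/
def gen (S : Set P) : RO P where
  c := {p | ∀ q ≤ p, ∃ r ≤ q, ∃ s ∈ S, r ≤ s}
  down := fun p q hq hp r hr => hp r (hr.trans hq)
  reg := by
    intro p hp q hq
    obtain ⟨r, hr, hrc⟩ := hp q hq
    obtain ⟨t, ht, s, hs, hts⟩ := hrc r le_rfl
    exact ⟨t, ht.trans hr, s, hs, hts⟩

theorem mem_gen {S : Set P} {p : P} : p ∈ gen S ↔ ∀ q ≤ p, ∃ r ≤ q, ∃ s ∈ S, r ≤ s := Iff.rfl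

instance : LE (RO P) := ⟨fun U V => ∀ p, p ∈ U → p ∈ V⟩

theorem le_def {U V : RO P} : U ≤ V ↔ ∀ p, p ∈ U → p ∈ V := Iff.rfl

instance : PartialOrder (RO P) where
  le_refl := fun U p h => h
  le_trans := fun U V W h1 h2 p h => h2 p (h1 p h)
  le_antisymm := fun U V h1 h2 => ext_mem fun p => ⟨h1 p, h2 p⟩

instance : InfSet (RO P) := ⟨fun S =>
  { c := {p | ∀ U ∈ S, p ∈ U}
    down := fun p q hq hp U hU => mem_down (hp U hU) hq
    reg := fun p hp U hU => mem_reg fun q hq => by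
      obtain ⟨r, hr, h⟩ := hp q hq
      exact ⟨r, hr, h U hU⟩ }⟩

theorem mem_sInf {S : Set (RO P)} {p : P} : p ∈ sInf S ↔ ∀ U ∈ S, p ∈ U := Iff.rfl

instance : SupSet (RO P) := ⟨fun S => gen {p | ∃ U ∈ S, p ∈ U}⟩

theorem mem_sSup {S : Set (RO P)} {p : P} :
    p ∈ sSup S ↔ ∀ q ≤ p, ∃ r ≤ q, ∃ U ∈ S, r ∈ U := by
  constructor
  · intro h q hq
    obtain ⟨r, hr, s, ⟨U, hU, hs⟩, hrs⟩ := h q hq
    exact ⟨r, hr, U, hU, mem_down hs hrs⟩
  · intro h q hq
    obtain ⟨r, hr, U, hU, hs⟩ := h q hq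
    exact ⟨r, hr, r, ⟨U, hU, hs⟩, le_rfl⟩

instance : Max (RO P) := ⟨fun U V => gen {p | p ∈ U ∨ p ∈ V}⟩

theorem mem_sup {U V : RO P} {p : P} :
    p ∈ U ⊔ V ↔ ∀ q ≤ p, ∃ r ≤ q, r ∈ U ∨ r ∈ V := by
  constructor
  · intro h q hq
    obtain ⟨r, hr, s, hs, hrs⟩ := h q hq
    exact ⟨r, hr, hs.imp (fun h => mem_down h hrs) (fun h => mem_down h hrs)⟩
  · intro h q hq
    obtain ⟨r, hr, hs⟩ := h q hq
    exact ⟨r, hr, r, hs, le_rfl⟩

instance : Min (RO P) := ⟨fun U V =>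
  { c := {p | p ∈ U ∧ p ∈ V}
    down := fun p q hq hp => ⟨mem_down hp.1 hq, mem_down hp.2 hq⟩
    reg := fun p hp => ⟨mem_reg fun q hq => by
      obtain ⟨r, hr, h⟩ := hp q hq
      exact ⟨r, hr, h.1⟩, mem_reg fun q hq => by
      obtain ⟨r, hr, h⟩ := hp q hq
      exact ⟨r, hr, h.2⟩⟩ }⟩

theorem mem_inf {U V : RO P} {p : P} : p ∈ U ⊓ V ↔ p ∈ U ∧ p ∈ V := Iff.rfl

instance : Compl (RO P) := ⟨fun U =>
  { c := {p | ∀ q ≤ p, q ∉ U}
    down := fun p q hq hp r hr => hp r (hr.trans hq)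
    reg := fun p hp q hq hU => by
      obtain ⟨r, hr, h⟩ := hp q hq
      exact h r le_rfl (mem_down hU hr) }⟩

theorem mem_compl {U : RO P} {p : P} : p ∈ Uᶜ ↔ ∀ q ≤ p, q ∉ U := Iff.rfl

instance : Top (RO P) := ⟨⟨Set.univ, fun _ _ _ _ => trivial, fun _ _ => trivial⟩⟩

instance : Bot (RO P) := ⟨⟨∅, fun _ _ _ h => h, fun p h => by
  obtain ⟨r, _, h⟩ := h p le_rfl
  exact h⟩⟩

theorem mem_top (p : P) : p ∈ (⊤ : RO P) := trivial

theorem notMem_bot (p : P) : p ∉ (⊥ : RO P) := fun h => h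

instance : CompleteLattice (RO P) where
  sup := (· ⊔ ·)
  le_sup_left := fun U V p h => mem_sup.2 fun q hq => ⟨q, le_rfl, Or.inl (mem_down h hq)⟩
  le_sup_right := fun U V p h => mem_sup.2 fun q hq => ⟨q, le_rfl, Or.inr (mem_down h hq)⟩
  sup_le := fun U V W h1 h2 p h => mem_reg fun q hq => by
    obtain ⟨r, hr, h⟩ := mem_sup.1 h q hq
    exact ⟨r, hr, h.elim (h1 r) (h2 r)⟩
  inf := (· ⊓ ·)
  inf_le_left := fun U V p h => h.1
  inf_le_right := fun U V p h => h.2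
  le_inf := fun U V W h1 h2 p h => ⟨h1 p h, h2 p h⟩
  sSup := sSup
  isLUB_sSup := fun S => ⟨fun U hU p h => mem_sSup.2 fun q hq => ⟨q, le_rfl, U, hU, mem_down h hq⟩,
    fun V hV p h => mem_reg fun q hq => by
      obtain ⟨r, hr, U, hU, h⟩ := mem_sSup.1 h q hq
      exact ⟨r, hr, hV hU r h⟩⟩
  sInf := sInf
  isGLB_sInf := fun S => ⟨fun U hU p h => h U hU, fun V hV p h U hU => hV hU p h⟩
  top := ⊤
  bot := ⊥
  le_top := fun U p _ => mem_top p
  bot_le := fun U p h => absurd h (notMem_bot p)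

instance : BooleanAlgebra (RO P) where
  compl := compl
  le_sup_inf := by
    intro U V W p h
    refine mem_sup.2 fun q hq => ?_
    obtain ⟨r, hr, h1⟩ := mem_sup.1 (mem_down h.1 hq : q ∈ U ⊔ V) q le_rfl
    rcases h1 with h1 | h1
    · exact ⟨r, hr, Or.inl h1⟩
    · obtain ⟨s, hs, h2⟩ := mem_sup.1 (mem_down h.2 (hr.trans hq) : r ∈ U ⊔ W) r le_rfl
      rcases h2 with h2 | h2
      · exact ⟨s, hs.trans hr, Or.inl h2⟩
      · exact ⟨s, hs.trans hr, Or.inr ⟨mem_down h1 hs, h2⟩⟩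
  inf_compl_le_bot := fun U p h => absurd h.1 (h.2 p le_rfl)
  top_le_sup_compl := fun U p _ => mem_sup.2 fun q _ => by
    by_cases h : ∃ r ≤ q, r ∈ U
    · obtain ⟨r, hr, h⟩ := h
      exact ⟨r, hr, Or.inl h⟩
    · push Not at h
      exact ⟨q, le_rfl, Or.inr h⟩
  le_top := fun U p _ => mem_top p
  bot_le := fun U p h => absurd h (notMem_bot p)

instance : CompleteBooleanAlgebra (RO P) where
  __ := (inferInstance : CompleteLattice (RO P))
  __ := (inferInstance : BooleanAlgebra (RO P))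

theorem mem_iSup {ι : Sort*} {U : ι → RO P} {p : P} :
    p ∈ ⨆ i, U i ↔ ∀ q ≤ p, ∃ r ≤ q, ∃ i, r ∈ U i := by
  rw [iSup, mem_sSup]
  simp only [Set.mem_range, exists_exists_eq_and]

theorem mem_iInf {ι : Sort*} {U : ι → RO P} {p : P} : p ∈ ⨅ i, U i ↔ ∀ i, p ∈ U i := by
  rw [iInf, mem_sInf]
  simp only [Set.mem_range, forall_exists_index, forall_apply_eq_imp_iff]

theorem mem_himp {U V : RO P} {p : P} : p ∈ U ⇨ V ↔ ∀ q ≤ p, q ∈ U → q ∈ V := by
  rw [himp_eq, mem_sup]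
  constructor
  · intro h q hq hU
    refine mem_reg fun r hr => ?_
    obtain ⟨s, hs, h⟩ := h r (hr.trans hq)
    rcases h with h | h
    · exact ⟨s, hs, h⟩
    · exact absurd (mem_down hU (hs.trans hr)) (h s le_rfl)
  · intro h q hq
    by_cases h1 : ∃ r ≤ q, r ∈ U
    · obtain ⟨r, hr, h1⟩ := h1
      exact ⟨r, hr, Or.inl (h r (hr.trans hq) h1)⟩
    · push Not at h1
      exact ⟨q, le_rfl, Or.inr h1⟩

theorem eq_top_iff' {U : RO P} : U = ⊤ ↔ ∀ p, p ∈ U := by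
  rw [eq_top_iff, le_def]
  exact ⟨fun h p => h p (mem_top p), fun h p _ => h p⟩

/-- a condition outside a regular set has an extension in the complement -/
theorem exists_compl {U : RO P} {p : P} (h : p ∉ U) : ∃ q ≤ p, q ∈ Uᶜ := by
  by_contra hc
  push Not at hc
  refine h (mem_reg fun q hq => ?_)
  have h1 := hc q hq
  rw [mem_compl] at h1
  push Not at h1
  exact h1

end RO

end CofSN
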