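import Pool.Agent.CofSN.Targets

/-!
# MP_3e8648_lc: SLN, the generic slaloms capture
-/

set_option autoImplicit false

namespace CofSN

namespace SLN_

variable {Ω P : Type} [Preorder P]

theorem mem_slv {i : Ω → Nm (RO P) ℕ} {n : ℕ} {T : Finset ℕ} {c : St Ω P} :
    c ∈ slv i n T ↔ ∀ q ≤ c, ∃ r ≤ q, ∃ h : n < (r.st i).length, (r.st i)[n] = T := by
  unfold slv
  rw [RO.mem_gen]
  constructor
  · intro h q hq
    obtain ⟨r, hr, s, ⟨hn, hs⟩, hrs⟩ := h q hq
    have hpre := (St.le_def.1 hrs).2.1 i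
    refine ⟨r, hr, lt_of_lt_of_le hn hpre.length_le, ?_⟩
    rw [← hs]
    exact (hpre.getElem hn).symm
  · intro h q hq
    obtain ⟨r, hr, hn, hs⟩ := h q hq
    exact ⟨r, hr, r, ⟨hn, hs⟩, le_rfl⟩

theorem eq_of_mem {i : Ω → Nm (RO P) ℕ} {n : ℕ} {T : Finset ℕ} {c : St Ω P}
    (hc : c ∈ slv i n T) (hn : n < (c.st i).length) : (c.st i)[n] = T := by
  obtain ⟨r, hr, h, hs⟩ := mem_slv.1 hc c le_rfl
  have hpre := (St.le_def.1 hr).2.1 i
  rw [← hs]
  exact hpre.getElem hn

theorem self_mem {i : Ω → Nm (RO P) ℕ} {n : ℕ} {c : St Ω P} (hn : n < (c.st i).length) :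
    c ∈ slv i n ((c.st i)[n]) := by
  refine mem_slv.2 fun q hq => ?_
  have hpre := (St.le_def.1 hq).2.1 i
  exact ⟨q, le_rfl, lt_of_lt_of_le hn hpre.length_le, (hpre.getElem hn).symm⟩

open Classical in
/-- add one promise -/
noncomputable def addp (i : Ω → Nm (RO P) ℕ) (ξ : Ω) (x : Nm (RO P) ℕ)
    (hx : Nm.leA x (i ξ) = ⊤) (c : St Ω P) (hl : (c.pr i).length + 1 ≤ (c.st i).length) :
    St Ω P where
  p := c.p
  st := c.st
  pr := fun j => if j = i then (ξ, x) :: c.pr j else c.pr j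
  fin := c.fin
  card := c.card
  len := by
    intro j
    by_cases hj : j = i
    · subst hj
      simpa using hl
    · simpa [hj] using c.len j
  bd := by
    intro j y hy
    by_cases hj : j = i
    · subst hj
      simp only [if_true, List.mem_cons] at hy
      rcases hy with rfl | hy
      · exact hx
      · exact c.bd j y hy
    · simp only [hj, if_false] at hy
      exact c.bd j y hy

theorem addp_le (i : Ω → Nm (RO P) ℕ) (ξ : Ω) (x : Nm (RO P) ℕ)
    (hx : Nm.leA x (i ξ) = ⊤) (c : St Ω P) (hl : (c.pr i).length + 1 ≤ (c.st i).length) :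
    addp i ξ x hx c hl ≤ c := by
  refine St.le_def.2 ⟨le_rfl, fun _ => List.prefix_rfl, fun j => ?_,
    fun j n h h' => absurd h (not_lt.2 h')⟩
  by_cases hj : j = i
  · subst hj
    simp only [addp, if_true]
    exact List.subset_cons_self _ _
  · simp only [addp, hj, if_false]
    exact List.Subset.refl _

theorem mem_addp (i : Ω → Nm (RO P) ℕ) (ξ : Ω) (x : Nm (RO P) ℕ)
    (hx : Nm.leA x (i ξ) = ⊤) (c : St Ω P) (hl : (c.pr i).length + 1 ≤ (c.st i).length) :
    (ξ, x) ∈ (addp i ξ x hx c hl).pr i := by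
  simp [addp]

/-- the generic slalom as a name -/
noncomputable def sl (hEXT : T_EXT) (i : Ω → Nm (RO P) ℕ) : Nm (RO (St Ω P)) (Finset ℕ) where
  v n T := slv i n T
  disj n a b hab := by
    refine le_antisymm (fun c hc => ?_) bot_le
    obtain ⟨r, hr, h, hs⟩ := mem_slv.1 hc.1 c le_rfl
    have hb := eq_of_mem (RO.mem_down hc.2 hr) h
    exact absurd (hs.symm.trans hb) hab
  tot n := by
    rw [RO.eq_top_iff']
    intro c
    refine RO.mem_iSup.2 fun q _ => ?_
    obtain ⟨c', hc', _, hl, _⟩ := hEXT Ω P q {i} (n + 1) (Set.finite_singleton i)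
    have hn : n < (c'.st i).length := hl i rfl
    exact ⟨c', hc', _, self_mem hn⟩

end SLN_

theorem p_SLN (hEXT : T_EXT) : T_SLN := by
  intro Ω P _ h i
  refine ⟨SLN_.sl hEXT i, ?_, ?_⟩
  · intro n T hT
    have : ∃ c : St Ω P, c ∈ slv i n T := by
      by_contra hc
      push Not at hc
      refine hT (le_antisymm (fun c hc' => absurd hc' (hc c)) bot_le)
    obtain ⟨c, hc⟩ := this
    obtain ⟨r, _, hn, hs⟩ := SLN_.mem_slv.1 hc c le_rfl
    rw [← hs]
    exact r.card i n hn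
  · intro ξ x hx
    rw [RO.eq_top_iff']
    intro c
    refine Nm.mem_capt.2 fun q _ => ?_
    obtain ⟨c', hc', hpr, hl, _⟩ := hEXT Ω P q {i} ((q.pr i).length + 1) (Set.finite_singleton i)
    have hl' : (c'.pr i).length + 1 ≤ (c'.st i).length := by
      rw [hpr]
      exact hl i rfl
    refine ⟨SLN_.addp i ξ x hx c' hl', (SLN_.addp_le i ξ x hx c' hl').trans hc',
      (c'.st i).length, fun n hn s hs a T ha hT => ?_⟩
    obtain ⟨t, ht, hnt, htT⟩ := SLN_.mem_slv.1 hT s le_rfl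
    have h1 := (St.le_def.1 (ht.trans hs)).2.2.2 i n hnt hn (ξ, x)
      (SLN_.mem_addp i ξ x hx c' hl')
    have h2 : t.p ∈ x.v n a := RO.mem_down ((Nm.mem_cm h x n a s).1 ha) (St.le_def.1 ht).1
    have h3 := Nm.mem_memv.1 h1 t.p le_rfl a h2
    rw [htT] at h3
    exact h3

end CofSN
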