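import Pool.Agent.CofSN.Targets

/-!
# MP_3e8648_lc, target SNI: infinitely often covers (helper5)
-/

set_option autoImplicit false

namespace CofSN

namespace SNI_

variable {P : Type} [Preorder P]

theorem eqv_cyl {σ τ : Nm (RO P) (List Bool)} {n : ℕ} {x : Nm (RO P) Bool} {p : P}
    (h : p ∈ cyl σ n x) (he : p ∈ σ.eqv τ) : p ∈ cyl τ n x := by
  unfold cyl at h ⊢
  refine RO.mem_iSup.2 fun q hq => ?_
  obtain ⟨r, hr, s, hs⟩ := RO.mem_iSup.1 h q hq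
  obtain ⟨t, ht, s', hs'⟩ := τ.decide n r
  have e : s = s' := Nm.mem_eqv.1 he n t (ht.trans (hr.trans hq)) s s'
    (RO.mem_down hs.1 ht) hs'
  exact ⟨t, ht.trans hr, s', hs', e ▸ RO.mem_down hs.2 ht⟩

/-- the formula to which the maximum principle is applied -/
def phi (X : BSet (RO P)) (f : Nm (RO P) ℕ) (σ : Nm (RO P) (List Bool)) : RO P :=
  ht f σ ⊓ ⨅ x, (X.v x ⇨ ⨆ n, cyl σ n x)

theorem phi_ext (X : BSet (RO P)) (f : Nm (RO P) ℕ) (σ τ : Nm (RO P) (List Bool)) :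
    phi X f σ ⊓ σ.eqv τ ≤ phi X f τ := by
  rintro p ⟨⟨h1, h2⟩, he⟩
  refine ⟨?_, ?_⟩
  · unfold ht at h1 ⊢
    refine RO.mem_iInf.2 fun n => Nm.mem_rel.2 fun q hq a b ha hb => ?_
    obtain ⟨r, hr, b', hb'⟩ := σ.decide n q
    have e : b' = b := Nm.mem_eqv.1 he n r (hr.trans hq) b' b hb' (RO.mem_down hb hr)
    have := Nm.mem_rel.1 (RO.mem_iInf.1 h1 n) r (hr.trans hq) a b' (RO.mem_down ha hr) hb'
    rwa [e] at this
  · refine RO.mem_iInf.2 fun x => RO.mem_himp.2 fun q hq hX => ?_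
    have h3 := RO.mem_himp.1 (RO.mem_iInf.1 h2 x) q hq hX
    refine RO.mem_iSup.2 fun r hr => ?_
    obtain ⟨t, ht, n, hn⟩ := RO.mem_iSup.1 h3 r hr
    exact ⟨t, ht, n, eqv_cyl hn (RO.mem_down he (ht.trans (hr.trans hq)))⟩

/-- the column `m` of `f` -/
def col (f : Nm (RO P) ℕ) (m : ℕ) : Nm (RO P) ℕ where
  v i k := f.v (Nat.pair m i) k
  disj _ a b hab := f.disj _ a b hab
  tot _ := f.tot _

/-- the sequence with given columns -/
def glue (σ : ℕ → Nm (RO P) (List Bool)) : Nm (RO P) (List Bool) where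
  v n s := (σ (Nat.unpair n).1).v (Nat.unpair n).2 s
  disj n a b hab := (σ (Nat.unpair n).1).disj _ a b hab
  tot n := (σ (Nat.unpair n).1).tot _

theorem glue_cyl (σ : ℕ → Nm (RO P) (List Bool)) (m i : ℕ) (x : Nm (RO P) Bool) :
    cyl (glue σ) (Nat.pair m i) x = cyl (σ m) i x := by
  unfold cyl glue
  simp only [Nat.unpair_pair]

end SNI_

open SNI_ in
/-- SNI (from MIX): infinitely often covers -/
theorem p_SNI (h_MIX : T_MIX) : T_SNI := by
  intro P _ X f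
  have h1 : ∀ m : ℕ, ∃ σ : Nm (RO P) (List Bool), SN X ≤ phi X (col f m) σ := by
    intro m
    obtain ⟨σ, hσ⟩ := h_MIX (RO P) (List Bool) (phi X (col f m))
      (fun x y => phi_ext X (col f m) x y)
    refine ⟨σ, le_trans ?_ hσ⟩
    exact iInf_le (fun f : Nm (RO P) ℕ => ⨆ σ : Nm (RO P) (List Bool),
      ht f σ ⊓ ⨅ x, (X.v x ⇨ ⨆ n, cyl σ n x)) (col f m)
  choose σ hσ using h1
  refine ⟨glue σ, fun p hp => ⟨?_, ?_⟩⟩
  · unfold ht
    refine RO.mem_iInf.2 fun n => ?_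
    have h2 := RO.mem_iInf.1 (hσ (Nat.unpair n).1 p hp).1 (Nat.unpair n).2
    refine Nm.mem_rel.2 fun q hq a b ha hb => ?_
    refine Nm.mem_rel.1 h2 q hq a b ?_ hb
    have : q ∈ f.v (Nat.pair (Nat.unpair n).1 (Nat.unpair n).2) a := by
      rw [Nat.pair_unpair]
      exact ha
    exact this
  · unfold SubI
    refine RO.mem_iInf.2 fun x => RO.mem_himp.2 fun q hq hX => ?_
    unfold infv
    refine RO.mem_iInf.2 fun m => ?_
    have h3 := RO.mem_himp.1 (RO.mem_iInf.1 (hσ m p hp).2 x) q hq hX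
    refine RO.mem_iSup.2 fun r hr => ?_
    obtain ⟨t, ht, i, hi⟩ := RO.mem_iSup.1 h3 r hr
    refine ⟨t, ht, Nat.pair m i, RO.mem_iSup.2 fun u hu => ⟨u, le_rfl, Nat.left_le_pair m i, ?_⟩⟩
    rw [glue_cyl]
    exact RO.mem_down hi hu

end CofSN
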