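import Pool.Agent.CofSN.Targets

/-!
# MP_3e8648_lc: the target ST3
-/

set_option autoImplicit false

namespace CofSN

namespace ST3_

variable {Ω P : Type} [Preorder P]

open Classical in
/-- `c'` on `J`, `c` outside -/
noncomputable def mx (J : Set (Ω → Nm (RO P) ℕ)) (c' c : St Ω P) : St Ω P where
  p := c'.p
  st i := if i ∈ J then c'.st i else c.st i
  pr i := if i ∈ J then c'.pr i else c.pr i
  fin := (c'.fin.union c.fin).subset fun i hi => by
    by_cases h : i ∈ J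
    · left; simpa [h] using hi
    · right; simpa [h] using hi
  card i n h := by
    by_cases hJ : i ∈ J
    · simp only [hJ, if_true] at h ⊢
      exact c'.card i n h
    · simp only [hJ, if_false] at h ⊢
      exact c.card i n h
  len i := by
    by_cases hJ : i ∈ J
    · simp only [hJ, if_true]
      exact c'.len i
    · simp only [hJ, if_false]
      exact c.len i
  bd i y hy := by
    by_cases hJ : i ∈ J
    · simp only [hJ, if_true] at hy
      exact c'.bd i y hy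
    · simp only [hJ, if_false] at hy
      exact c.bd i y hy

theorem mx_le {J : Set (Ω → Nm (RO P) ℕ)} {c' c : St Ω P} (h : c' ≤ St.res J c) :
    mx J c' c ≤ c := by
  obtain ⟨h1, h2, h3, h4⟩ := St.le_def.1 h
  refine St.le_def.2 ⟨h1, fun i => ?_, fun i => ?_, fun i n hn hn' y hy => ?_⟩
  · by_cases hJ : i ∈ J
    · have := h2 i
      simp only [St.res, hJ, if_true] at this
      simpa only [mx, hJ, if_true] using this
    · simp only [mx, hJ, if_false]
      exact List.prefix_rfl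
  · by_cases hJ : i ∈ J
    · have := h3 i
      simp only [St.res, hJ, if_true] at this
      simpa only [mx, hJ, if_true] using this
    · simp only [mx, hJ, if_false]
      exact List.Subset.refl _
  · by_cases hJ : i ∈ J
    · have := h4 i n
      simp only [St.res, hJ, if_true] at this
      simp only [mx, hJ, if_true] at hn ⊢
      exact this hn hn' y hy
    · simp only [mx, hJ, if_false] at hn
      exact absurd hn (not_lt.2 hn')

theorem res_mx (J : Set (Ω → Nm (RO P) ℕ)) (c' c : St Ω P) :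
    St.res J (mx J c' c) = St.res J c' := by
  refine St.ext rfl ?_ ?_
  · funext i
    by_cases hJ : i ∈ J
    · simp only [St.res, mx, hJ, if_true]
    · simp only [St.res, mx, hJ, if_false]
  · funext i
    by_cases hJ : i ∈ J
    · simp only [St.res, mx, hJ, if_true]
    · simp only [St.res, mx, hJ, if_false]

theorem le_emb {c : St Ω P} {p : P} : c ≤ St.emb p ↔ c.p ≤ p := by
  rw [St.le_def]
  constructor
  · exact fun h => h.1
  · intro h
    refine ⟨h, fun i => List.nil_prefix, fun i => List.nil_subset _, fun i n _ _ y hy => ?_⟩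
    exact absurd hy (List.not_mem_nil)

theorem Dc_emb {P0 Θ : Type} {D : Θ → ℕ → ℕ → P0 → Prop} {e0 : P0 → P} {η : Θ} {n k : ℕ}
    {c : St Ω P} : Dc D (fun p => (St.emb (e0 p) : St Ω P)) η n k c ↔ Dc D e0 η n k c.p := by
  unfold Dc
  exact exists_congr fun p0 => and_congr_right fun _ => le_emb

/-- `g(n) ≥ j` -/
def pre (g : Nm (RO (St Ω P)) ℕ) (t : (Ω → Nm (RO P) ℕ) → List (Finset ℕ) × List Ω) (n : ℕ) :
    ℕ → RO P
  | 0 => ⊤
  | j + 1 => Ety g t n j

theorem Ety_anti {g : Nm (RO (St Ω P)) ℕ} {t : (Ω → Nm (RO P) ℕ) → List (Finset ℕ) × List Ω}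
    {n i j : ℕ} (h : i ≤ j) : Ety g t n j ≤ Ety g t n i := by
  rw [RO.le_def]
  intro p hp
  refine RO.mem_gen.2 fun q hq => ?_
  obtain ⟨r, hr, s, ⟨c, hc1, hc2, hc3⟩, hrs⟩ := RO.mem_gen.1 hp q hq
  refine ⟨r, hr, s, ⟨c, hc1, hc2, ?_⟩, hrs⟩
  refine RO.mem_iSup.2 fun c' hc' => ?_
  obtain ⟨c2, h2, l, h3⟩ := RO.mem_iSup.1 hc3 c' hc'
  obtain ⟨c3, h4, hl, h5⟩ := RO.mem_iSup.1 h3 c2 le_rfl
  exact ⟨c3, h4.trans h2, l, RO.mem_iSup.2 fun d hd => ⟨d, le_rfl, by omega,
    RO.mem_down h5 hd⟩⟩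

/-- the least `j` such that no condition of type `t` forces `g(n) > j` -/
def gt (hC : T_CPT) (g : Nm (RO (St Ω P)) ℕ)
    (t : (Ω → Nm (RO P) ℕ) → List (Finset ℕ) × List Ω) : Nm (RO P) ℕ where
  v n j := pre g t n j ⊓ (Ety g t n j)ᶜ
  disj := by
    have key : ∀ n a b, a < b →
        (pre g t n a ⊓ (Ety g t n a)ᶜ) ⊓ (pre g t n b ⊓ (Ety g t n b)ᶜ) = ⊥ := by
      intro n a b hab
      refine le_antisymm (fun p hp => ?_) bot_le
      obtain ⟨⟨_, h2⟩, ⟨h3, _⟩⟩ := hp
      cases b with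
      | zero => omega
      | succ b =>
        have h4 : p ∈ Ety g t n a := RO.le_def.1 (Ety_anti (Nat.lt_succ_iff.1 hab)) p h3
        exact absurd h4 (RO.mem_compl.1 h2 p le_rfl)
    intro n a b hab
    rcases lt_or_gt_of_ne hab with h | h
    · exact key n a b h
    · rw [inf_comm]
      exact key n b a h
  tot n := by
    rw [RO.eq_top_iff']
    intro p
    refine RO.mem_iSup.2 fun q _ => ?_
    have h1 : ∃ j, q ∉ Ety g t n j := by
      by_contra h
      push Not at h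
      exact hC Ω P g t n q h
    classical
    have h2 := Nat.find_spec h1
    obtain ⟨r, hr, h3⟩ := RO.exists_compl h2
    refine ⟨r, hr, Nat.find h1, ?_, h3⟩
    refine RO.mem_down ?_ hr
    rcases Nat.eq_zero_or_pos (Nat.find h1) with h0 | h0
    · rw [h0]
      exact RO.mem_top q
    · obtain ⟨j, hj⟩ := Nat.exists_eq_succ_of_ne_zero h0.ne'
      have h4 := Nat.find_min h1 (m := j) (by omega)
      rw [not_not] at h4
      rw [hj]
      exact h4

/-- the badness of an index -/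
def Bad {P0 P Θ : Type} [Preorder P] (D : Θ → ℕ → ℕ → P0 → Prop) (e : P0 → P)
    (g : Nm (RO P) ℕ) (η : Θ) (p : P) (m : ℕ) : Prop :=
  ∀ n, m ≤ n → ∀ q ≤ p, ∀ k l, Dc D e η n k q → q ∈ g.v n l → k ≤ l

theorem bad_res {P0 Θ : Type} {D : Θ → ℕ → ℕ → P0 → Prop} {e0 : P0 → P}
    {g : Nm (RO (St Ω P)) ℕ} {J : Set (Ω → Nm (RO P) ℕ)}
    (hJ : ∀ n l c, c ∈ g.v n l ↔ St.res J c ∈ g.v n l) {η : Θ} {c : St Ω P} {m : ℕ}
    (h : Bad D (fun p => (St.emb (e0 p) : St Ω P)) g η c m) :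
    Bad D (fun p => (St.emb (e0 p) : St Ω P)) g η (St.res J c) m := by
  intro n hn c' hc' k l hk hl
  refine h n hn (mx J c' c) (mx_le hc') k l ?_ ?_
  · rw [Dc_emb] at hk ⊢
    exact hk
  · rw [hJ, res_mx, ← hJ]
    exact hl

theorem bad_type {P0 Θ : Type} {D : Θ → ℕ → ℕ → P0 → Prop} {e0 : P0 → P} (hC : T_CPT)
    {g : Nm (RO (St Ω P)) ℕ} {η : Θ} {c : St Ω P} {m : ℕ}
    (h : Bad D (fun p => (St.emb (e0 p) : St Ω P)) g η c m) :
    Bad D e0 (gt hC g (ty c)) η c.p m := by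
  intro n hn q hq k l hk hl
  by_contra hlk
  push Not at hlk
  have h1 : St.put q c ∈ gtv g n l := by
    refine RO.mem_iSup.2 fun r hr => ?_
    obtain ⟨r', hr', l', hl'⟩ := g.decide n r
    have h2 : r' ≤ St.put q c := hr'.trans hr
    have h3 : St.put q c ≤ c := by
      refine St.le_def.2 ⟨hq, fun i => List.prefix_rfl, fun i => List.Subset.refl _, ?_⟩
      intro i n h h'
      exact absurd h (not_lt.2 h')
    have h4 : k ≤ l' := by
      refine h n hn r' (h2.trans h3) k l' ?_ hl'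
      rw [Dc_emb]
      obtain ⟨p0, hp0, hq0⟩ := hk
      exact ⟨p0, hp0, le_trans (St.le_def.1 h2).1 hq0⟩
    exact ⟨r', hr', l', RO.mem_iSup.2 fun d hd => ⟨d, le_rfl, by omega, RO.mem_down hl' hd⟩⟩
  have h5 : q ∈ Ety g (ty c) n l := by
    refine RO.mem_gen.2 fun q' hq' => ⟨q', le_rfl, q, ⟨St.put q c, rfl, rfl, h1⟩, hq'⟩
  exact RO.mem_compl.1 hl.2 q le_rfl h5

/-- the types of conditions with support in `J` -/
def Typ (J : Set (Ω → Nm (RO P) ℕ)) : Type :=
  {t : (Ω → Nm (RO P) ℕ) → List (Finset ℕ) × List Ω // ∃ c : St Ω P, ty (St.res J c) = t}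

theorem typ_fin {J : Set (Ω → Nm (RO P) ℕ)} (t : Typ J) :
    {i : (Ω → Nm (RO P) ℕ) | t.1 i ≠ ([], [])}.Finite := by
  obtain ⟨t, c, rfl⟩ := t
  refine c.fin.subset fun i hi => ?_
  intro h0
  apply hi
  show ((St.res J c).st i, ((St.res J c).pr i).map Prod.fst) = ([], [])
  have h1 := c.len i
  rw [h0] at h1
  have h2 : c.pr i = [] := List.eq_nil_of_length_eq_zero (by simpa using h1)
  by_cases hJ : i ∈ J
  · simp only [St.res, hJ, if_true, h0, h2, List.map_nil]
  · simp only [St.res, hJ, if_false, List.map_nil]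

theorem typ_out {J : Set (Ω → Nm (RO P) ℕ)} (t : Typ J) {i : Ω → Nm (RO P) ℕ} (hi : i ∉ J) :
    t.1 i = ([], []) := by
  obtain ⟨t, c, rfl⟩ := t
  show ((St.res J c).st i, ((St.res J c).pr i).map Prod.fst) = ([], [])
  simp only [St.res, hi, if_false, List.map_nil]

open Cardinal in
theorem mk_finset_le {K X : Type} [Infinite K] (h : #X ≤ #K) : #(Finset X) ≤ #K := by
  classical
  have h1 : #(Finset X) ≤ #(List X) :=
    Cardinal.mk_le_of_surjective (f := fun l : List X => l.toFinset) fun s =>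
      ⟨s.toList, by simp⟩
  refine h1.trans ((Cardinal.mk_list_le_max X).trans ?_)
  exact max_le (Cardinal.aleph0_le_mk K) h

open Cardinal in
theorem mk_typ_le {K : Type} [Infinite K] (hΩ : #Ω ≤ #K) {J : Set (Ω → Nm (RO P) ℕ)}
    (hJ : J.Countable) : #(Typ J) ≤ #K := by
  classical
  have hK : ℵ₀ ≤ #K := Cardinal.aleph0_le_mk K
  have hX : #(J × (List (Finset ℕ) × List Ω)) ≤ #K := by
    have h1 : #J ≤ #K := (Cardinal.le_aleph0_iff_set_countable.2 hJ).trans hK
    have h2 : #(List (Finset ℕ)) ≤ #K := (Cardinal.mk_le_aleph0).trans hK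
    have h3 : #(List Ω) ≤ #K := (Cardinal.mk_list_le_max Ω).trans (max_le hK hΩ)
    have h4 : #(J × (List (Finset ℕ) × List Ω)) = #J * (#(List (Finset ℕ)) * #(List Ω)) := by
      simp
    rw [h4]
    calc #J * (#(List (Finset ℕ)) * #(List Ω)) ≤ #K * (#K * #K) :=
          mul_le_mul' h1 (mul_le_mul' h2 h3)
      _ = #K := by rw [Cardinal.mul_eq_self hK, Cardinal.mul_eq_self hK]
  refine le_trans ?_ (mk_finset_le hX)
  have hfin : ∀ t : Typ J, {i : J | t.1 i.1 ≠ ([], [])}.Finite := fun t =>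
    (typ_fin t).preimage Subtype.val_injective.injOn
  let G : Typ J → Finset (J × (List (Finset ℕ) × List Ω)) := fun t =>
    (hfin t).toFinset.image fun i : J => (i, t.1 i.1)
  refine Cardinal.mk_le_of_injective (f := G) ?_
  have hmem : ∀ (t : Typ J) (i : J) (x : List (Finset ℕ) × List Ω),
      (i, x) ∈ G t ↔ x ≠ ([], []) ∧ t.1 i.1 = x := by
    intro t i x
    simp only [G, Finset.mem_image, Set.Finite.mem_toFinset, Set.mem_ofPred_eq, Prod.mk.injEq]
    constructor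
    · rintro ⟨i', h1, rfl, rfl⟩
      exact ⟨h1, rfl⟩
    · rintro ⟨h1, rfl⟩
      exact ⟨i, h1, rfl, rfl⟩
  intro t t' htt
  apply Subtype.ext
  funext i
  by_cases hi : i ∈ J
  · have h1 := hmem t ⟨i, hi⟩
    have h2 := hmem t' ⟨i, hi⟩
    rw [htt] at h1
    by_cases h0 : t.1 i = ([], [])
    · by_cases h0' : t'.1 i = ([], [])
      · rw [h0, h0']
      · exact ((h1 (t'.1 i)).1 ((h2 (t'.1 i)).2 ⟨h0', rfl⟩)).2
    · exact ((h2 (t.1 i)).1 ((h1 (t.1 i)).2 ⟨h0, rfl⟩)).2.symm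
  · rw [typ_out t hi, typ_out t' hi]

end ST3_

theorem ST3_.few_iUnion {K Θ T : Type} [Infinite K] (S : T → Set Θ)
    (hT : Cardinal.mk T ≤ Cardinal.mk K) (h : ∀ t, Few K (S t)) : Few K (⋃ t, S t) := by
  unfold Few at h ⊢
  refine (Cardinal.mk_iUnion_le_sum_mk).trans ?_
  refine (Cardinal.sum_le_sum _ (fun _ => Cardinal.mk K) h).trans ?_
  rw [Cardinal.sum_const']
  calc Cardinal.mk T * Cardinal.mk K ≤ Cardinal.mk K * Cardinal.mk K := mul_le_mul' hT le_rfl
    _ = Cardinal.mk K := Cardinal.mul_eq_self (Cardinal.aleph0_le_mk K)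

theorem ST3_.few_mono {K Θ : Type} {S S' : Set Θ} (h : S ⊆ S') (h' : Few K S') : Few K S :=
  (Cardinal.mk_le_mk_of_subset h).trans h'

open ST3_ in
theorem p_ST3 (hC : T_CPT) (hS : T_SUP) : T_ST3 := by
  intro K Θ P0 Ω P _ _ D e0 hΩ hccc hR g
  choose Jn hJn hJn2 using fun (n l : ℕ) => hS Ω P hccc (g.v n l)
  obtain ⟨J, hJdef⟩ : ∃ J : Set (Ω → Nm (RO P) ℕ), J = ⋃ n, ⋃ l, Jn n l := ⟨_, rfl⟩
  have hJc : J.Countable := by
    rw [hJdef]
    exact Set.countable_iUnion fun n => Set.countable_iUnion fun l => hJn n l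
  have hJ : ∀ n l c, c ∈ g.v n l ↔ St.res J c ∈ g.v n l := fun n l c =>
    hJn2 n l J (by
      rw [hJdef]
      exact Set.subset_iUnion_of_subset n (Set.subset_iUnion_of_subset l
        (Set.Subset.refl _))) c
  have hsub : {η : Θ | ∃ p : St Ω P, ∃ m,
      Bad D (fun p => (St.emb (e0 p) : St Ω P)) g η p m} ⊆
      ⋃ t : Typ J, {η : Θ | ∃ p : P, ∃ m, Bad D e0 (gt hC g t.1) η p m} := by
    rintro η ⟨c, m, h⟩
    rw [Set.mem_iUnion]
    exact ⟨⟨ty (St.res J c), c, rfl⟩, (St.res J c).p, m, bad_type hC (bad_res hJ h)⟩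
  refine few_mono hsub ?_
  exact few_iUnion _ (mk_typ_le hΩ hJc) fun t => hR (gt hC g t.1)

end CofSN
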