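import Pool.Agent.CofSN.Targets

/-!
# MP_3e8648_lc: SUP, regular sets have countable support
-/

set_option autoImplicit false

namespace CofSN.SUP_

variable {Ω P : Type} [Preorder P]

theorem pr_nil {c : St Ω P} {i : Ω → Nm (RO P) ℕ} (h : c.st i = []) : c.pr i = [] := by
  have h1 := c.len i
  rw [h] at h1
  exact List.length_eq_zero_iff.1 (Nat.le_zero.1 h1)

theorem res_st_mem {J : Set (Ω → Nm (RO P) ℕ)} {i : Ω → Nm (RO P) ℕ} (h : i ∈ J)
    (c : St Ω P) : (c.res J).st i = c.st i := if_pos h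

theorem res_st_notMem {J : Set (Ω → Nm (RO P) ℕ)} {i : Ω → Nm (RO P) ℕ} (h : i ∉ J)
    (c : St Ω P) : (c.res J).st i = [] := if_neg h

theorem res_pr_mem {J : Set (Ω → Nm (RO P) ℕ)} {i : Ω → Nm (RO P) ℕ} (h : i ∈ J)
    (c : St Ω P) : (c.res J).pr i = c.pr i := if_pos h

theorem res_pr_notMem {J : Set (Ω → Nm (RO P) ℕ)} {i : Ω → Nm (RO P) ℕ} (h : i ∉ J)
    (c : St Ω P) : (c.res J).pr i = [] := if_neg h

/-- The local form of the order at the index `i`. -/
def At (c' c : St Ω P) (i : Ω → Nm (RO P) ℕ) : Prop :=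
  c.st i <+: c'.st i ∧ c.pr i ⊆ c'.pr i ∧
    ∀ n (h : n < (c'.st i).length), (c.st i).length ≤ n → ∀ y ∈ c.pr i,
      c'.p ∈ Nm.memv y.2 n (((c'.st i)[n] : Finset ℕ) : Set ℕ)

theorem le_iff {c' c : St Ω P} : c' ≤ c ↔ c'.p ≤ c.p ∧ ∀ i, At c' c i :=
  ⟨fun h => ⟨h.1, fun i => ⟨h.2.1 i, h.2.2.1 i, h.2.2.2 i⟩⟩,
    fun h => ⟨h.1, fun i => (h.2 i).1, fun i => (h.2 i).2.1, fun i => (h.2 i).2.2⟩⟩

/-- The order at `i` depends only on the values at `i` and on the first coordinate. -/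
theorem at_congr {a' a b' b : St Ω P} {i : Ω → Nm (RO P) ℕ} (h : At a' a i)
    (h1 : b'.st i = a'.st i) (h3 : b.st i = a.st i)
    (h4 : b.pr i = a.pr i) (h2 : b'.pr i = a'.pr i) (h5 : b'.p = a'.p) : At b' b i := by
  obtain ⟨x, y, z⟩ := h
  refine ⟨by rw [h1, h3]; exact x, by rw [h2, h4]; exact y, ?_⟩
  intro n hn hl w hw
  rw [h4] at hw
  rw [h3] at hl
  have hn' : n < (a'.st i).length := by rw [← h1]; exact hn
  have h6 := z n hn' hl w hw
  have h7 : (b'.st i)[n] = (a'.st i)[n] := by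
    congr 1
  rw [h5, h7]
  exact h6

theorem at_self {c' c : St Ω P} {i : Ω → Nm (RO P) ℕ} (h1 : c'.st i = c.st i)
    (h2 : c'.pr i = c.pr i) : At c' c i := by
  refine ⟨by rw [h1], by rw [h2]; exact List.Subset.refl _, ?_⟩
  intro n hn hl
  rw [h1] at hn
  exact absurd hn (not_lt.2 hl)

theorem at_nil {c' c : St Ω P} {i : Ω → Nm (RO P) ℕ} (h1 : c.st i = []) : At c' c i := by
  have h2 : c.pr i = [] := pr_nil h1
  refine ⟨by rw [h1]; exact ⟨_, rfl⟩, by rw [h2]; exact List.nil_subset _, ?_⟩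
  intro n _ _ y hy
  rw [h2] at hy
  exact absurd hy List.not_mem_nil

theorem le_res (J : Set (Ω → Nm (RO P) ℕ)) (c : St Ω P) : c ≤ c.res J := by
  refine le_iff.2 ⟨le_rfl, fun i => ?_⟩
  by_cases h : i ∈ J
  · exact at_self (res_st_mem h c).symm (res_pr_mem h c).symm
  · exact at_nil (res_st_notMem h c)

open Classical in
/-- `r` on `J`, `d` outside. -/
noncomputable def mix (J : Set (Ω → Nm (RO P) ℕ)) (r d : St Ω P) : St Ω P where
  p := r.p
  st i := if i ∈ J then r.st i else d.st i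
  pr i := if i ∈ J then r.pr i else d.pr i
  fin := (r.fin.union d.fin).subset fun i hi => by
    by_cases h : i ∈ J
    · exact Or.inl (by simpa [h] using hi)
    · exact Or.inr (by simpa [h] using hi)
  card i n h := by
    by_cases hJ : i ∈ J
    · simp only [hJ, if_true] at h ⊢
      exact r.card i n h
    · simp only [hJ, if_false] at h ⊢
      exact d.card i n h
  len i := by
    by_cases hJ : i ∈ J
    · simp only [hJ, if_true]
      exact r.len i
    · simp only [hJ, if_false]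
      exact d.len i
  bd i y hy := by
    by_cases hJ : i ∈ J
    · simp only [hJ, if_true] at hy
      exact r.bd i y hy
    · simp only [hJ, if_false] at hy
      exact d.bd i y hy

theorem mix_st_mem {J : Set (Ω → Nm (RO P) ℕ)} {i : Ω → Nm (RO P) ℕ} (h : i ∈ J)
    (r d : St Ω P) : (mix J r d).st i = r.st i := if_pos h

theorem mix_st_notMem {J : Set (Ω → Nm (RO P) ℕ)} {i : Ω → Nm (RO P) ℕ} (h : i ∉ J)
    (r d : St Ω P) : (mix J r d).st i = d.st i := if_neg h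

theorem mix_pr_mem {J : Set (Ω → Nm (RO P) ℕ)} {i : Ω → Nm (RO P) ℕ} (h : i ∈ J)
    (r d : St Ω P) : (mix J r d).pr i = r.pr i := if_pos h

theorem mix_pr_notMem {J : Set (Ω → Nm (RO P) ℕ)} {i : Ω → Nm (RO P) ℕ} (h : i ∉ J)
    (r d : St Ω P) : (mix J r d).pr i = d.pr i := if_neg h

theorem mix_le_right {J : Set (Ω → Nm (RO P) ℕ)} {r d : St Ω P} (h : r ≤ d.res J) :
    mix J r d ≤ d := by
  obtain ⟨h1, h2⟩ := le_iff.1 h
  refine le_iff.2 ⟨h1, fun i => ?_⟩
  by_cases hi : i ∈ J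
  · exact at_congr (h2 i) (mix_st_mem hi r d) (res_st_mem hi d).symm (res_pr_mem hi d).symm
      (mix_pr_mem hi r d) rfl
  · exact at_self (mix_st_notMem hi r d) (mix_pr_notMem hi r d)

theorem mix_le_left {J : Set (Ω → Nm (RO P) ℕ)} {r a : St Ω P} (d : St Ω P) (h : r ≤ a)
    (hs : ∀ i, i ∉ J → a.st i = []) : mix J r d ≤ a := by
  obtain ⟨h1, h2⟩ := le_iff.1 h
  refine le_iff.2 ⟨h1, fun i => ?_⟩
  by_cases hi : i ∈ J
  · exact at_congr (h2 i) (mix_st_mem hi r d) rfl rfl (mix_pr_mem hi r d) rfl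
  · exact at_nil (hs i hi)

/-- A maximal antichain in a regular set. -/
theorem exists_max (U : RO (St Ω P)) : ∃ A : Set (St Ω P), (∀ a ∈ A, a ∈ U) ∧
    (∀ a ∈ A, ∀ b ∈ A, a ≠ b → ¬ Cmp a b) ∧ ∀ q ∈ U, ∃ a ∈ A, Cmp q a := by
  obtain ⟨A, hA⟩ := zorn_subset {A : Set (St Ω P) | (∀ a ∈ A, a ∈ U) ∧
      ∀ a ∈ A, ∀ b ∈ A, a ≠ b → ¬ Cmp a b} (by
    intro C hC hch
    refine ⟨⋃₀ C, ⟨?_, ?_⟩, fun s hs => Set.subset_sUnion_of_mem hs⟩
    · rintro a ⟨s, hs, ha⟩
      exact (hC hs).1 a ha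
    · rintro a ⟨s, hs, ha⟩ b ⟨t, ht, hb⟩ hab
      rcases hch.total hs ht with h | h
      · exact (hC ht).2 a (h ha) b hb hab
      · exact (hC hs).2 a ha b (h hb) hab)
  refine ⟨A, hA.prop.1, hA.prop.2, fun q hq => ?_⟩
  by_contra hcon
  push Not at hcon
  have h1 : insert q A ∈ {A : Set (St Ω P) | (∀ a ∈ A, a ∈ U) ∧
      ∀ a ∈ A, ∀ b ∈ A, a ≠ b → ¬ Cmp a b} := by
    refine ⟨?_, ?_⟩
    · rintro a (rfl | ha)
      · exact hq
      · exact hA.prop.1 a ha
    · rintro a (rfl | ha) b (rfl | hb) hab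
      · exact absurd rfl hab
      · exact hcon b hb
      · rintro ⟨r, h2, h3⟩
        exact hcon a ha ⟨r, h3, h2⟩
      · exact hA.prop.2 a ha b hb hab
  have h2 : q ∈ A := hA.le_of_ge h1 (Set.subset_insert q A) (Set.mem_insert q A)
  exact hcon q h2 ⟨q, le_rfl, le_rfl⟩

end CofSN.SUP_

namespace CofSN

open SUP_

theorem p_SUP : T_SUP := by
  intro Ω P _ hccc U
  obtain ⟨A, hAU, hanti, hmax⟩ := exists_max U
  have hAc : A.Countable := by
    have h := hccc A (fun a => a.1) fun i j hij =>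
      hanti i.1 i.2 j.1 j.2 fun h => hij (Subtype.ext h)
    exact Set.countable_coe_iff.1 h
  refine ⟨⋃ a ∈ A, {i | a.st i ≠ []}, hAc.biUnion fun a _ => a.fin.countable, ?_⟩
  intro J' hJ c
  have hsup : ∀ a ∈ A, ∀ i, i ∉ J' → a.st i = [] := by
    intro a ha i hi
    by_contra hne
    exact hi (hJ (Set.mem_biUnion ha hne))
  constructor
  · intro hc
    by_contra hres
    obtain ⟨d, hd, hdU⟩ := RO.exists_compl hres
    have key : d.res J' ∈ Uᶜ := by
      rw [RO.mem_compl]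
      intro q hq hqU
      obtain ⟨a, ha, r, hrq, hra⟩ := hmax q hqU
      have h1 : mix J' r d ≤ d := mix_le_right (hrq.trans hq)
      have h2 : mix J' r d ≤ a := mix_le_left d hra (hsup a ha)
      exact (RO.mem_compl.1 hdU) _ h1 (RO.mem_down (hAU a ha) h2)
    have h1 : mix J' d c ≤ c := mix_le_right hd
    have h2 : mix J' d c ≤ d.res J' :=
      mix_le_left c (le_res J' d) fun i hi => res_st_notMem hi d
    exact (RO.mem_compl.1 key) _ h2 (RO.mem_down hc h1)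
  · intro hc
    exact RO.mem_down hc (le_res J' c)

end CofSN
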