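import Pool.Agent.CofSN.Targets

/-!
# MP_3e8648_lc, target TAU (helper96)
-/

set_option autoImplicit false

namespace CofSN

namespace TAU_

theorem exM : ∃ M : ℕ → ℕ, ∀ k (s : List Bool), s.length ≤ k → Encodable.encode s ≤ M k := by
  have h : ∀ k : ℕ, ∃ m : ℕ, ∀ s : List Bool, s.length ≤ k → Encodable.encode s ≤ m := by
    intro k
    have hf : {s : List Bool | s.length ≤ k}.Finite := List.finite_length_le Bool k
    obtain ⟨m, hm⟩ := (hf.image (Encodable.encode : List Bool → ℕ)).bddAbove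
    exact ⟨m, fun s hs => hm ⟨s, hs, rfl⟩⟩
  choose M hM using h
  exact ⟨M, hM⟩

/-- the word of `τ` at `m` -/
noncomputable def G (m : ℕ) (s : Fin (m + 1) → Finset ℕ × ℕ) : List Bool :=
  match (((s ⟨Nat.sqrt m, Nat.lt_succ_of_le (Nat.sqrt_le_self m)⟩).1.sort
      (· ≤ ·))[m - Nat.sqrt m * Nat.sqrt m]?).bind
      (fun a => (Encodable.decode a : Option (List Bool))) with
  | some w => if (s (Fin.last m)).2 ≤ w.length then w
      else List.replicate (s (Fin.last m)).2 false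
  | none => List.replicate (s (Fin.last m)).2 false

theorem G_len (m : ℕ) (s : Fin (m + 1) → Finset ℕ × ℕ) : (s (Fin.last m)).2 ≤ (G m s).length := by
  unfold G
  split
  · split_ifs with h
    · exact h
    · simp
  · simp

theorem G_eq (m : ℕ) (s : Fin (m + 1) → Finset ℕ × ℕ) (n j : ℕ) (hj : j ≤ n)
    (hm : m = n * n + j) (w : List Bool)
    (hT : ((s ⟨Nat.sqrt m, Nat.lt_succ_of_le (Nat.sqrt_le_self m)⟩).1.sort (· ≤ ·))[j]? =
      some (Encodable.encode w)) (hw : (s (Fin.last m)).2 ≤ w.length) : G m s = w := by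
  have hs : Nat.sqrt m = n := by
    rw [hm]; exact Nat.sqrt_add_eq n (by omega)
  have hj' : m - Nat.sqrt m * Nat.sqrt m = j := by rw [hs, hm]; omega
  unfold G
  rw [hj', hT]
  simp [Encodable.encodek, hw]

end TAU_

open TAU_

theorem p_TAU (hINP : T_INP) : T_TAU := by
  intro L P _ _ Λ hS i f hf
  obtain ⟨M, hM⟩ := exM
  have hg : Λ.In i (up f) := (hINP L P Λ ℕ ℕ i).2 f _ _ hf
  let bd : Nm (RO P) ℕ := Nm.push (fun n => n + 1) (fun n s => M (s (Fin.last n))) (up f)
  have hbd : Λ.In i bd := (hINP L P Λ ℕ ℕ i).2 (up f) _ _ hg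
  obtain ⟨S, hS1, hS2⟩ := hS i (fun _ => bd) (fun _ => hbd)
  let τ : Nm (RO P) (List Bool) := Nm.push (fun m => m + 1) G (Nm.pair S f)
  refine ⟨τ, ?_, ?_⟩
  · rw [RO.eq_top_iff']
    intro p
    unfold ht
    refine RO.mem_iInf.2 fun n => Nm.mem_rel.2 fun q hq k s hk hs => ?_
    obtain ⟨r, hr, s', hs'⟩ := (Nm.pair S f).decides (n + 1) q
    have e1 := Nm.mem_push.1 hs r hr (fun k => s' k) (fun k => hs' k k.2)
    have e2 : (s' n).2 = k := Nm.uniq (hs' n (by omega)).2 (RO.mem_down hk hr)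
    rw [← e1, ← e2]
    exact G_len n (fun k => s' k)
  · intro σ hσ x p hp
    let X : Nm (RO P) ℕ := Nm.push (fun n => n + 1)
      (fun n s => Encodable.encode ((s (Fin.last n)).1.take (s (Fin.last n)).2)) (Nm.pair σ (up f))
    have hX : Λ.In i X := (hINP L P Λ (List Bool × ℕ) ℕ i).2 _ _ _
      ((hINP L P Λ (List Bool) ℕ i).1 _ _ hσ hg)
    have hXbd : Nm.leA X bd = ⊤ := by
      rw [RO.eq_top_iff']
      intro u
      refine Nm.mem_leA.2 fun n q _ a b ha hb => ?_
      obtain ⟨r, hr, s', hs'⟩ := (Nm.pair σ (up f)).decides (n + 1) q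
      have e1 := Nm.mem_push.1 ha r hr (fun k => s' k) (fun k => hs' k k.2)
      have e2 := Nm.mem_push.1 hb r hr (fun k => (s' k).2) (fun k => (hs' k k.2).2)
      rw [← e1, ← e2]
      refine hM _ _ ?_
      simp
    have hcap := hS2 (Classical.choice ⟨i⟩) X hX hXbd
    obtain ⟨hp1, hp2⟩ := hp
    refine RO.mem_iInf.2 fun m0 => RO.mem_iSup.2 fun q hq => ?_
    obtain ⟨r1, hr1, m1, h1⟩ := RO.mem_iSup.1 hp1 q hq
    have hc : q ∈ Nm.capt X S := by rw [hcap]; exact RO.mem_top q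
    obtain ⟨r2, hr2, m2, h2⟩ := Nm.mem_capt.1 hc r1 hr1
    have hr2q : r2 ≤ q := hr2.trans hr1
    have h3 := RO.mem_iInf.1 (RO.mem_down hp2 (hr2q.trans hq)) (max m0 (max m1 m2))
    obtain ⟨r3, hr3, n, h3⟩ := RO.mem_iSup.1 h3 r2 le_rfl
    obtain ⟨r4, hr4, hn, h3⟩ := RO.mem_iSup.1 h3 r3 le_rfl
    obtain ⟨r5, hr5, w, hw, hwx⟩ := RO.mem_iSup.1 h3 r4 le_rfl
    obtain ⟨r6, hr6, k, hk⟩ := (up f).decide n r5
    obtain ⟨r7, hr7, s', hs'⟩ := (Nm.pair S f).decides ((n + 1) ^ 2) r6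
    have hn0 : m0 ≤ n := (le_max_left _ _).trans hn
    have hn1 : m1 ≤ n := (le_max_left _ _).trans ((le_max_right _ _).trans hn)
    have hn2 : m2 ≤ n := (le_max_right _ _).trans ((le_max_right _ _).trans hn)
    have hr76 : r7 ≤ r6 := hr7
    have hr75 : r7 ≤ r5 := hr76.trans hr6
    have hr72 : r7 ≤ r2 := hr75.trans (hr5.trans (hr4.trans hr3))
    have hk7 := RO.mem_down hk hr76
    have hw7 := RO.mem_down hw hr75
    -- the length of the word
    have hkw : k ≤ w.length := Nm.mem_rel.1 (RO.mem_iInf.1 (RO.mem_iInf.1 h1 n) hn1) r7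
      (hr72.trans hr2) k w hk7 hw7
    -- the values of f
    have hsup := Nm.mem_push.1 hk7 r7 le_rfl (fun j => (s' j).2) (fun j => (hs' j j.2).2)
    have hfk : ∀ m, m < (n + 1) ^ 2 → (s' m).2 ≤ k := by
      intro m hm
      rw [← hsup]
      exact Finset.le_sup (f := fun j : Fin ((n + 1) ^ 2) => (s' j).2) (Finset.mem_univ ⟨m, hm⟩)
    have hnn : n < (n + 1) ^ 2 := by nlinarith
    have hTn : r7 ∈ S.v n (s' n).1 := (hs' n hnn).1
    -- the coded word is in the slalom
    have hXa : r7 ∈ X.v n (Encodable.encode (w.take k)) := by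
      refine Nm.mem_push.2 fun q' hq' t ht => ?_
      have e := ht (Fin.last n)
      have e1 : (t (Fin.last n)).1 = w := Nm.uniq e.1 (RO.mem_down hw7 hq')
      have e2 : (t (Fin.last n)).2 = k := Nm.uniq e.2 (RO.mem_down hk7 hq')
      rw [e1, e2]
    have hmem : Encodable.encode (w.take k) ∈ (s' n).1 := h2 n hn2 r7 hr72 _ _ hXa hTn
    have hcard : (s' n).1.card ≤ n + 1 := by
      refine hS1 n _ fun h => ?_
      rw [h] at hTn
      exact RO.notMem_bot _ hTn
    obtain ⟨j, hj, hje⟩ := List.getElem_of_mem ((Finset.mem_sort (· ≤ ·)).2 hmem)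
    have hjn : j ≤ n := by
      rw [Finset.length_sort] at hj
      omega
    have hm2 : n * n + j < (n + 1) ^ 2 := by nlinarith
    have hwk : (w.take k).length = k := by rw [List.length_take]; omega
    have hGe : G (n * n + j) (fun l => s' l) = w.take k := by
      refine G_eq (n * n + j) (fun l => s' l) n j hjn rfl (w.take k) ?_ ?_
      · have hsq : Nat.sqrt (n * n + j) = n := Nat.sqrt_add_eq n (by omega)
        simp only [hsq]
        rw [List.getElem?_eq_getElem hj, hje]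
      · rw [hwk]
        exact hfk _ (by simpa using hm2)
    have hτ : r7 ∈ τ.v (n * n + j) (w.take k) := by
      rw [← hGe]
      exact Nm.push_of (N := fun m => m + 1) (G := G) (x := Nm.pair S f) (n := n * n + j)
        (fun l => s' l) (fun l => hs' l (lt_of_lt_of_le l.2 (by omega)))
    have hini : r7 ∈ ini (w.take k) x := by
      refine RO.mem_iInf.2 fun l => ?_
      have hl : (l : ℕ) < w.length := lt_of_lt_of_le l.2 (by rw [hwk]; exact hkw)
      have h := RO.mem_iInf.1 (RO.mem_down hwx hr75) ⟨l, hl⟩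
      have e : (w.take k).get l = w.get ⟨l, hl⟩ := by simp
      rw [e]
      exact h
    refine ⟨r7, hr72.trans hr2q, n * n + j, ?_⟩
    have hm0 : m0 ≤ n * n + j := by
      rcases Nat.eq_zero_or_pos n with h | h
      · omega
      · nlinarith
    exact le_iSup (fun _ : m0 ≤ n * n + j => cyl τ (n * n + j) x) hm0 r7
      (le_iSup (fun s => τ.v (n * n + j) s ⊓ ini s x) (w.take k) r7 ⟨hτ, hini⟩)

end CofSN
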