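import Pool.Agent.CofSN.Targets

/-!
# MP_3e8648_lc: TCC, the chain condition at countable stages (helper95)
-/

set_option autoImplicit false

namespace CofSN

namespace TCC_

theorem ccc_of_iso {A B : Type} [Preorder A] [Preorder B] (φ : A ≃o B) (h : CCC B) : CCC A := by
  intro ι f hf
  refine h ι (fun i => φ (f i)) ?_
  rintro i j hij ⟨r, h1, h2⟩
  exact hf i j hij ⟨φ.symm r, (φ.symm_apply_le).2 h1, (φ.symm_apply_le).2 h2⟩

theorem isMin_eq_bot {J : Type} [LinearOrder J] [OrderBot J] {j : J} (h : IsMin j) : j = ⊥ :=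
  h.eq_bot

end TCC_

/-- the chain condition at countable stages -/
theorem p_TCC (hCSU : T_CSU) : T_TCC := by
  intro J Ω P0 _ _ _ _ _ T hP0 j
  induction j using SuccOrder.limitRecOn with
  | isMin j hj =>
    intro _
    obtain rfl := TCC_.isMin_eq_bot hj
    exact TCC_.ccc_of_iso T.z hP0
  | succ i hi ih =>
    intro hc
    have hci : (Set.Iio i).Countable :=
      hc.mono (Set.Iio_subset_Iio (Order.le_succ i))
    exact TCC_.ccc_of_iso (T.s i hi) (hCSU Ω (T.A i) (ih hci))
  | isSuccLimit j hj ih =>
    intro hc ι f hf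
    choose lev hlev p hp using fun a => T.lim j hj (f a)
    -- each fibre is countable
    have hfib : ∀ i : Set.Iio j, {a : ι | lev a = i}.Countable := by
      rintro ⟨i, hi⟩
      have hccc : CCC (T.A i) := ih i hi (hc.mono (Set.Iio_subset_Iio (le_of_lt hi)))
      have h1 : Countable {a : ι | lev a = i} := by
        refine hccc {a : ι | lev a = i} (fun a => T.e (lev a) i (le_of_eq a.2) (p a)) ?_
        rintro ⟨a, ha⟩ ⟨b, hb⟩ hab ⟨r, hr1, hr2⟩
        have hne : a ≠ b := fun h => hab (Subtype.ext h)
        refine hf a b hne ⟨T.e i j (le_of_lt hi) r, ?_, ?_⟩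
        · have h2 := T.e_mono i j (le_of_lt hi) _ _ hr1
          rw [T.e_trans] at h2
          rw [hp a] at h2
          exact h2
        · have h2 := T.e_mono i j (le_of_lt hi) _ _ hr2
          rw [T.e_trans] at h2
          rw [hp b] at h2
          exact h2
      exact h1
    have hcount : Countable (Set.Iio j) := hc
    have huniv : (Set.univ : Set ι) = ⋃ i : Set.Iio j, {a : ι | lev a = i} := by
      ext a
      simp only [Set.mem_univ, Set.mem_iUnion, true_iff]
      exact ⟨⟨lev a, hlev a⟩, rfl⟩
    have h3 : (Set.univ : Set ι).Countable := by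
      rw [huniv]
      exact Set.countable_iUnion hfib
    exact Set.countable_univ_iff.1 h3

end CofSN
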