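import Pool.Agent.CofSN.Targets

/-!
# MP_3e8648_lc: chain condition at the stage of the first uncountable ordinal (helper91)
-/

set_option autoImplicit false

namespace CofSN

namespace TCT_

section order

variable {L : Type} [LinearOrder L] [OrderBot L] [SuccOrder L] [NoMaxOrder L] [WellFoundedLT L]

theorem bound (hb : ∀ s : ℕ → L, ∃ b, ∀ n, s n ≤ b) {C : Set L} (hC : C.Countable) :
    ∃ b, ∀ c ∈ C, c ≤ b := by
  rcases C.eq_empty_or_nonempty with h | h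
  · exact ⟨⊥, fun c hc => by simp [h] at hc⟩
  · obtain ⟨s, hs⟩ := hC.exists_eq_range h
    obtain ⟨b, hb⟩ := hb s
    refine ⟨b, fun c hc => ?_⟩
    rw [hs] at hc
    obtain ⟨n, rfl⟩ := hc
    exact hb n

theorem closed (hc : ∀ i : L, (Set.Iio i).Countable) (hb : ∀ s : ℕ → L, ∃ b, ∀ n, s n ≤ b)
    (f g : L → L) : ∃ γ : L, Order.IsSuccLimit γ ∧ ∀ δ < γ, f δ < γ ∧ g δ < γ := by
  have hu : ∀ x : L, ∃ y : L, x < y ∧ ∀ δ ≤ x, f δ < y ∧ g δ < y := by
    intro x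
    have h1 : (Set.Iic x).Countable := by
      rw [← Set.Iio_insert]
      exact (hc x).insert x
    obtain ⟨b, hb'⟩ := bound hb ((h1.image f).union (h1.image g))
    refine ⟨Order.succ (max x b), (le_max_left x b).trans_lt (Order.lt_succ _),
      fun δ hδ => ⟨?_, ?_⟩⟩
    · exact ((hb' _ (Or.inl ⟨δ, hδ, rfl⟩)).trans (le_max_right x b)).trans_lt (Order.lt_succ _)
    · exact ((hb' _ (Or.inr ⟨δ, hδ, rfl⟩)).trans (le_max_right x b)).trans_lt (Order.lt_succ _)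
  choose u hu1 hu2 using hu
  let x : ℕ → L := fun n => Nat.rec ⊥ (fun _ y => u y) n
  have hx : ∀ n, x (n + 1) = u (x n) := fun n => rfl
  obtain ⟨b, hb'⟩ := hb x
  let S : Set L := {y | ∀ n, x n ≤ y}
  have hS : S.Nonempty := ⟨b, hb'⟩
  let γ := (wellFounded_lt (α := L)).min S hS
  have hγ : ∀ n, x n ≤ γ := (wellFounded_lt (α := L)).min_mem S hS
  have hlt : ∀ n, x n < γ := fun n => by
    have := hγ (n + 1)
    rw [hx] at this
    exact (hu1 (x n)).trans_le this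
  have hex : ∀ δ < γ, ∃ n, δ < x n := by
    intro δ hδ
    by_contra h
    push Not at h
    exact (wellFounded_lt (α := L)).not_lt_min S (x := δ) h hδ
  refine ⟨γ, ⟨fun hm => ?_, fun δ hδ => ?_⟩, fun δ hδ => ?_⟩
  · exact absurd (hlt 0) (hm.not_lt)
  · obtain ⟨n, hn⟩ := hex δ hδ.lt
    exact hδ.2 hn (hlt n)
  · obtain ⟨n, hn⟩ := hex δ hδ
    have h1 := hu2 (x n) δ hn.le
    have h2 := hγ (n + 1)
    rw [hx] at h2
    exact ⟨h1.1.trans_le h2, h1.2.trans_le h2⟩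

theorem limcoe {γ : L} (h : Order.IsSuccLimit γ) : Order.IsSuccLimit (γ : WithTop L) := by
  refine ⟨fun hm => ?_, fun a ha => ?_⟩
  · refine h.1 fun b hb => ?_
    have := hm (WithTop.coe_le_coe.2 hb)
    exact WithTop.coe_le_coe.1 this
  · have h1 : a ≠ ⊤ := (ha.lt.trans (WithTop.coe_lt_top γ)).ne
    obtain ⟨b, rfl⟩ := WithTop.ne_top_iff_exists.1 h1
    refine h.2 b ⟨WithTop.coe_lt_coe.1 ha.lt, fun c hbc hc => ?_⟩
    exact ha.2 (WithTop.coe_lt_coe.2 hbc) (WithTop.coe_lt_coe.2 hc)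

theorem limtop : Order.IsSuccLimit (⊤ : WithTop L) := by
  refine ⟨fun hm => ?_, fun a ha => ?_⟩
  · have := hm (show ((⊥ : L) : WithTop L) ≤ ⊤ from le_top)
    exact absurd this (not_le.2 (WithTop.coe_lt_top _))
  · obtain ⟨b, rfl⟩ := WithTop.ne_top_iff_exists.1 ha.lt.ne
    exact ha.2 (WithTop.coe_lt_coe.2 (Order.lt_succ b)) (WithTop.coe_lt_top _)

theorem iiocoe (hc : ∀ i : L, (Set.Iio i).Countable) (i : L) :
    (Set.Iio (i : WithTop L)).Countable := by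
  refine ((hc i).image (fun x : L => (x : WithTop L))).mono fun a ha => ?_
  have h1 : a ≠ ⊤ := (lt_trans ha (WithTop.coe_lt_top i)).ne
  obtain ⟨b, rfl⟩ := WithTop.ne_top_iff_exists.1 h1
  exact ⟨b, WithTop.coe_lt_coe.1 ha, rfl⟩

/-- an injection of `L` in an uncountable type -/
theorem inj (hc : ∀ i : L, (Set.Iio i).Countable) {ι : Type} (hι : ¬ Countable ι) :
    ∃ g : L → ι, ∀ x y, x < y → g x ≠ g y := by
  classical
  have hne : Nonempty ι := by
    by_contra h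
    rw [not_nonempty_iff] at h
    exact hι inferInstance
  have key : ∀ S : Set ι, S.Countable → ∃ a, a ∉ S := by
    intro S hS
    by_contra h
    push Not at h
    have : S = Set.univ := Set.eq_univ_of_forall h
    rw [this, Set.countable_univ_iff] at hS
    exact hι hS
  let wf := wellFounded_lt (α := L)
  let step : (x : L) → ((y : L) → y < x → ι) → ι := fun x ih =>
    Classical.epsilon fun a => a ∉ Set.range fun y : Set.Iio x => ih y.1 y.2
  let g : L → ι := wf.fix step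
  have hg : ∀ x, g x ∉ Set.range fun y : Set.Iio x => g y.1 := by
    intro x
    have h1 : g x = Classical.epsilon fun a => a ∉ Set.range fun y : Set.Iio x => g y.1 :=
      wf.fix_eq step x
    rw [h1]
    have hcx : Countable (Set.Iio x) := (hc x).to_subtype
    exact Classical.epsilon_spec (key _ (Set.countable_range _))
  exact ⟨g, fun x y hxy h => hg y ⟨⟨x, hxy⟩, h⟩⟩

end order

end TCT_

open TCT_ in
theorem p_TCT (hTEP : T_TEP) (hTCC : T_TCC) : T_TCT := by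
  intro L Ω P0 _ _ _ _ _ _ T hc hb hP0 ι f hf
  by_contra hι
  obtain ⟨g, hg⟩ := inj hc hι
  have hpi : ∀ i : L, ∃ π, EP (T.e i ⊤ le_top) π := fun i => hTEP _ _ _ T i ⊤ le_top
  choose π hE using hpi
  have hlev : ∀ γ : L, ∃ (l : L) (a : T.A (l : WithTop L)), T.e l ⊤ le_top a = f (g γ) := by
    intro γ
    obtain ⟨i, hi, p, hp⟩ := T.lim ⊤ limtop (f (g γ))
    obtain ⟨b, rfl⟩ := WithTop.ne_top_iff_exists.1 hi.ne
    exact ⟨b, p, hp⟩
  choose lev a0 ha0 using hlev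
  let F : L → Set L := fun δ => {γ | (∀ x < γ, lev x < γ) ∧ ∃ (h : δ < γ) (b : T.A (δ : WithTop L)),
    T.e δ γ (WithTop.coe_le_coe.2 h.le) b = π γ (f (g γ))}
  have hFc : ∀ δ, (F δ).Countable := by
    intro δ
    have hccc : CCC (T.A (δ : WithTop L)) := hTCC _ _ _ T hP0 δ (iiocoe hc δ)
    have hF : ∀ γ : F δ, ∃ (h : δ < γ.1) (b : T.A (δ : WithTop L)),
      T.e δ γ.1 (WithTop.coe_le_coe.2 h.le) b = π γ.1 (f (g γ.1)) := fun γ => γ.2.2
    choose hlt b hbb using hF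
    have key : ∀ γ γ' : F δ, γ.1 < γ'.1 → ¬ Cmp (b γ) (b γ') := by
      intro γ γ' hγ hcmp
      obtain ⟨r, hr1, hr2⟩ := hcmp
      have hl : lev γ.1 < γ'.1 := γ'.2.1 _ hγ
      refine hf (g γ.1) (g γ'.1) (hg _ _ hγ) ?_
      have e1 : ∀ (x y : L) (h : x ≤ y) (p : T.A (x : WithTop L)),
          T.e y ⊤ le_top (T.e x y (WithTop.coe_le_coe.2 h) p) = T.e x ⊤ le_top p :=
        fun x y h p => T.e_trans _ _ _ _ _ p
      have h1 : T.e δ γ.1 (WithTop.coe_le_coe.2 (hlt γ).le) r ≤ π γ.1 (f (g γ.1)) := by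
        rw [← hbb γ]
        exact T.e_mono _ _ _ _ _ hr1
      obtain ⟨q', hq1, hq2⟩ := (hE γ.1).lift _ _ h1
      rw [e1 _ _ (hlt γ).le] at hq2
      let a' := T.e (lev γ.1) γ'.1 (WithTop.coe_le_coe.2 hl.le) (a0 γ.1)
      have ha' : T.e γ'.1 ⊤ le_top a' = f (g γ.1) := by
        rw [e1 _ _ hl.le, ha0]
      have h2 : π γ'.1 q' ≤ a' := by
        have h3 : q' ≤ T.e γ'.1 ⊤ le_top a' := by rw [ha']; exact hq1
        exact ((hE γ'.1).pmono h3).trans ((hE γ'.1).pe a')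
      have h4 : π γ'.1 q' ≤ T.e δ γ'.1 (WithTop.coe_le_coe.2 (hlt γ').le) r := by
        have h3 : q' ≤ T.e γ'.1 ⊤ le_top
            (T.e δ γ'.1 (WithTop.coe_le_coe.2 (hlt γ').le) r) := by
          rw [e1 _ _ (hlt γ').le]; exact hq2
        exact ((hE γ'.1).pmono h3).trans ((hE γ'.1).pe _)
      have h5 : π γ'.1 q' ≤ π γ'.1 (f (g γ'.1)) := by
        rw [← hbb γ']
        exact h4.trans (T.e_mono _ _ _ _ _ hr2)
      obtain ⟨q, hq3, hq4⟩ := (hE γ'.1).lift _ _ h5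
      refine ⟨q, ?_, hq3⟩
      rw [← ha']
      exact hq4.trans (T.e_mono _ _ _ _ _ h2)
    have h6 : Countable (F δ) := by
      refine hccc (F δ) b fun γ γ' hne => ?_
      rcases lt_trichotomy γ.1 γ'.1 with h | h | h
      · exact key _ _ h
      · exact absurd (Subtype.ext h) hne
      · rintro ⟨r, hr1, hr2⟩
        exact key _ _ h ⟨r, hr2, hr1⟩
    exact Set.countable_coe_iff.1 h6
  have hFb : ∀ δ, ∃ b, ∀ c ∈ F δ, c ≤ b := fun δ => bound hb (hFc δ)
  choose h hh using hFb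
  obtain ⟨γ, hγ, hcl⟩ := closed hc hb lev h
  obtain ⟨i, hi, p, hp⟩ := T.lim γ (limcoe hγ) (π γ (f (g γ)))
  have hi' : i ≠ ⊤ := (hi.trans (WithTop.coe_lt_top γ)).ne
  obtain ⟨δ, rfl⟩ := WithTop.ne_top_iff_exists.1 hi'
  have hδ : δ < γ := WithTop.coe_lt_coe.1 hi
  have hmem : γ ∈ F δ := ⟨fun x hx => (hcl x hx).1, hδ, p, hp⟩
  exact absurd (hh δ γ hmem) (not_le.2 (hcl δ hδ).2)

end CofSN
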