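import Pool.Agent.CofSN.Targets

/-!
# MP_3e8648_lc: TEP, the projections of the iteration (helper63)
-/

set_option autoImplicit false

namespace CofSN

namespace TEP_

variable {P Q R : Type} [Preorder P] [Preorder Q] [Preorder R]

theorem comp {e1 : P → Q} {π1 : Q → P} {e2 : Q → R} {π2 : R → Q} (h1 : EP e1 π1)
    (h2 : EP e2 π2) : EP (fun p => e2 (e1 p)) (fun r => π1 (π2 r)) where
  emono := fun _ _ h => h2.emono (h1.emono h)
  pmono := fun _ _ h => h1.pmono (h2.pmono h)
  pe := fun p => (h1.pmono (h2.pe (e1 p))).trans (h1.pe p)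
  pe' := fun p => (h1.pe' p).trans (h1.pmono (h2.pe' (e1 p)))
  ep := fun r => (h2.ep r).trans (h2.emono (h1.ep (π2 r)))
  lift := by
    intro r p hp
    obtain ⟨q, hq, hq'⟩ := h1.lift (π2 r) p hp
    obtain ⟨r', hr, hr'⟩ := h2.lift r q hq
    exact ⟨r', hr, hr'.trans (h2.emono hq')⟩

theorem refl' {e : P → P} (h : ∀ p, e p = p) : EP e (fun p => p) where
  emono := fun p q hpq => by rw [h p, h q]; exact hpq
  pmono := fun _ _ hpq => hpq
  pe := fun p => by rw [h p]
  pe' := fun p => by rw [h p]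
  ep := fun p => by rw [h p]
  lift := fun q p hp => ⟨p, hp, by rw [h p]⟩

theorem reflect {e : P → Q} {π : Q → P} (h : EP e π) {p q : P} (hpq : e p ≤ e q) : p ≤ q :=
  (h.pe' p).trans ((h.pmono hpq).trans (h.pe q))

theorem adj {e : P → Q} {π : Q → P} (h : EP e π) {p : P} {q : Q} : q ≤ e p ↔ π q ≤ p :=
  ⟨fun h1 => (h.pmono h1).trans (h.pe p), fun h1 => (h.ep q).trans (h.emono h1)⟩

end TEP_

open TEP_ in
/-- TEP -/
theorem p_TEP (h_EPE : T_EPE) : T_TEP := by
  intro J Ω P0 _ _ _ _ _ T i j h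
  induction j using WellFoundedLT.induction generalizing i with
  | ind j ih =>
  by_cases hij : i = j
  · subst hij
    exact ⟨_, refl' (T.e_refl i h)⟩
  have hlt : i < j := lt_of_le_of_ne h hij
  by_cases hj : Order.IsSuccPrelimit j
  · -- limit
    have hm : ¬ IsMin j := fun hm => absurd (hm.eq_bot ▸ hlt) not_lt_bot
    have hl : Order.IsSuccLimit j := ⟨hm, hj⟩
    have hrep : ∀ q : T.A j, ∃ (k : J) (_ : i ≤ k) (hk : k < j) (q' : T.A k),
        T.e k j hk.le q' = q := by
      intro q
      obtain ⟨k, hk, q', hq'⟩ := T.lim j hl q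
      refine ⟨max i k, le_max_left _ _, max_lt hlt hk, T.e k (max i k) (le_max_right _ _) q', ?_⟩
      rw [T.e_trans]
      exact hq'
    -- the embeddings in the stage `j` reflect the order
    have hR : ∀ (k : J) (hk : k < j) (p q : T.A k),
        T.e k j hk.le p ≤ T.e k j hk.le q → p ≤ q := by
      intro k hk p q hpq
      obtain ⟨k', hkk, hk', h1⟩ := T.lim_le j hl k hk p q hpq
      obtain ⟨π, hπ⟩ := ih k' hk' k hkk
      exact reflect hπ h1
    choose kk hik hk qq hqq using hrep
    have hπ : ∀ q : T.A j, ∃ π, EP (T.e i (kk q) (hik q)) π := fun q =>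
      ih (kk q) (hk q) i (hik q)
    choose ππ hππ using hπ
    have hadj : ∀ (q : T.A j) (p : T.A i), q ≤ T.e i j h p ↔ ππ q (qq q) ≤ p := by
      intro q p
      rw [← adj (hππ q)]
      conv_lhs => rw [← hqq q, ← T.e_trans i (kk q) j (hik q) (hk q).le p]
      exact ⟨hR _ (hk q) _ _, T.e_mono _ _ _ _ _⟩
    refine ⟨fun q => ππ q (qq q), fun p q => T.e_mono _ _ _ p q, ?_, ?_, ?_, ?_, ?_⟩
    · intro q1 q2 h12
      exact (hadj q1 _).1 (h12.trans ((hadj q2 _).2 le_rfl))
    · intro p
      exact (hadj _ _).1 le_rfl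
    · intro p
      exact hR i hlt _ _ ((hadj (T.e i j h p) _).2 le_rfl)
    · intro q
      exact (hadj q _).2 le_rfl
    · intro q p hp
      obtain ⟨q', hq1, hq2⟩ := (hππ q).lift (qq q) p hp
      refine ⟨T.e (kk q) j (hk q).le q', ?_, ?_⟩
      · conv_rhs => rw [← hqq q]
        exact T.e_mono _ _ _ _ _ hq1
      · rw [← T.e_trans i (kk q) j (hik q) (hk q).le p]
        exact T.e_mono _ _ _ _ _ hq2
  · -- successor
    rw [Order.not_isSuccPrelimit_iff] at hj
    obtain ⟨k, hkj⟩ := hj
    have hk : ¬ IsMax k := hkj.lt.not_isMax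
    obtain rfl : Order.succ k = j := hkj.succ_eq
    have hik : i ≤ k := Order.lt_succ_iff_of_not_isMax hk |>.1 hlt
    obtain ⟨π1, h1⟩ := ih k hkj.lt i hik
    have hE := h_EPE Ω (T.A k)
    have h2 : EP (T.e k (Order.succ k) (Order.le_succ k)) (fun q => (T.s k hk q).p) := by
      refine ⟨fun p q => T.e_mono _ _ _ p q, ?_, ?_, ?_, ?_, ?_⟩
      · intro q q' hq
        exact hE.pmono ((T.s k hk).monotone hq)
      · intro p
        show (T.s k hk (T.e k (Order.succ k) (Order.le_succ k) p)).p ≤ p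
        rw [T.s_e]
        exact hE.pe p
      · intro p
        show p ≤ (T.s k hk (T.e k (Order.succ k) (Order.le_succ k) p)).p
        rw [T.s_e]
        exact hE.pe' p
      · intro q
        rw [← (T.s k hk).le_iff_le, T.s_e]
        exact hE.ep _
      · intro q p hp
        obtain ⟨c, hc, hc'⟩ := hE.lift (T.s k hk q) p hp
        refine ⟨(T.s k hk).symm c, ?_, ?_⟩
        · rw [← (T.s k hk).le_iff_le, OrderIso.apply_symm_apply]
          exact hc
        · rw [← (T.s k hk).le_iff_le, OrderIso.apply_symm_apply, T.s_e]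
          exact hc'
    have h3 := comp h1 h2
    have h4 : T.e i (Order.succ k) h =
        fun p => T.e k (Order.succ k) (Order.le_succ k) (T.e i k hik p) := by
      funext p
      rw [T.e_trans]
    rw [h4]
    exact ⟨_, h3⟩

end CofSN
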