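import Pool.Agent.CofSN.Targets

/-!
# MP_3e8648_lc: TR0, every regular set has a level (helper43)
-/

set_option autoImplicit false

namespace CofSN

namespace TR0_

/-- a maximal antichain inside a regular set -/
theorem exists_anti {P : Type} [Preorder P] (U : RO P) :
    ∃ A : Set P, (∀ a ∈ A, a ∈ U) ∧ (∀ a ∈ A, ∀ b ∈ A, a ≠ b → ¬ Cmp a b) ∧
      ∀ p ∈ U, ∃ a ∈ A, Cmp p a := by
  obtain ⟨A, hA⟩ := zorn_subset
    {A : Set P | (∀ a ∈ A, a ∈ U) ∧ ∀ a ∈ A, ∀ b ∈ A, a ≠ b → ¬ Cmp a b} (by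
      intro c hc hch
      refine ⟨⋃₀ c, ⟨?_, ?_⟩, fun s hs => Set.subset_sUnion_of_mem hs⟩
      · rintro a ⟨s, hs, ha⟩
        exact (hc hs).1 a ha
      · rintro a ⟨s, hs, ha⟩ b ⟨t, ht, hb⟩ hab
        rcases hch.total hs ht with h | h
        · exact (hc ht).2 a (h ha) b hb hab
        · exact (hc hs).2 a ha b (h hb) hab)
  refine ⟨A, hA.prop.1, hA.prop.2, fun p hp => ?_⟩
  by_contra hcon
  push Not at hcon
  have hcmp : ∀ x y : P, Cmp x y → Cmp y x := fun x y ⟨r, h1, h2⟩ => ⟨r, h2, h1⟩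
  have hins : insert p A ∈
      {A : Set P | (∀ a ∈ A, a ∈ U) ∧ ∀ a ∈ A, ∀ b ∈ A, a ≠ b → ¬ Cmp a b} := by
    refine ⟨?_, ?_⟩
    · rintro a (rfl | ha)
      · exact hp
      · exact hA.prop.1 a ha
    · rintro a (rfl | ha) b (rfl | hb) hab
      · exact absurd rfl hab
      · exact hcon b hb
      · exact fun h => hcon a ha (hcmp _ _ h)
      · exact hA.prop.2 a ha b hb hab
  have hle : insert p A ≤ A := hA.le_of_ge hins (Set.subset_insert p A)
  have hpA : p ∈ A := hle (Set.mem_insert p A)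
  exact hcon p hpA ⟨p, le_rfl, le_rfl⟩

theorem isSuccLimit_top {L : Type} [LinearOrder L] [OrderBot L] [NoMaxOrder L] :
    Order.IsSuccLimit (⊤ : WithTop L) := by
  refine ⟨?_, ?_⟩
  · intro h
    have h1 : ((⊥ : L) : WithTop L) < ⊤ := WithTop.coe_lt_top _
    exact absurd (h h1.le) (not_le.2 h1)
  · intro b hb
    have h1 : b ≠ ⊤ := hb.lt.ne
    lift b to L using h1
    obtain ⟨c, hc⟩ := exists_gt b
    exact hb.2 (WithTop.coe_lt_coe.2 hc) (WithTop.coe_lt_top c)

/-- if the members of a maximal antichain come from `P` then `U` does -/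
theorem level {P Q : Type} [Preorder P] [Preorder Q] {e : P → Q} {π : Q → P} (h : EP e π)
    (U : RO Q) (A : Set Q) (hA : ∀ a ∈ A, a ∈ U) (hmax : ∀ p ∈ U, ∃ a ∈ A, Cmp p a)
    (hlev : ∀ a ∈ A, ∃ a' : P, e a' = a) : ∃ U' : RO P, U = RO.cm h U' := by
  have key : ∀ p ∈ U, e (π p) ∈ U := by
    intro p hp
    by_contra hcon
    obtain ⟨q, hq, hqU⟩ := RO.exists_compl hcon
    have h1 : e (π q) ∈ Uᶜ := by
      rw [RO.mem_compl]
      intro r hr hrU
      obtain ⟨a, ha, t, htr, hta⟩ := hmax r hrU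
      obtain ⟨a', ha'⟩ := hlev a ha
      have h2 : π t ≤ π q := (h.pmono (htr.trans hr)).trans (h.pe _)
      have h3 : π t ≤ a' := by
        rw [← ha'] at hta
        exact (h.pmono hta).trans (h.pe _)
      obtain ⟨q', hq', hq''⟩ := h.lift q (π t) h2
      have h4 : q' ≤ a := by
        rw [← ha']
        exact hq''.trans (h.emono h3)
      exact RO.mem_compl.1 hqU q' hq' (RO.mem_down (hA a ha) h4)
    have h2 : π q ≤ π p := (h.pmono hq).trans (h.pe _)
    obtain ⟨p', hp', hp''⟩ := h.lift p (π q) h2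
    exact RO.mem_compl.1 h1 p' hp'' (RO.mem_down hp hp')
  refine ⟨{ c := {a | e a ∈ U}
            down := fun p q hq hp => RO.mem_down hp (h.emono hq)
            reg := ?_ }, ?_⟩
  · intro a ha
    refine RO.mem_reg fun q hq => ?_
    obtain ⟨r, hr, hrU⟩ := ha (π q) ((h.pmono hq).trans (h.pe _))
    obtain ⟨q', hq', hq''⟩ := h.lift q r hr
    exact ⟨q', hq', RO.mem_down hrU hq''⟩
  · refine RO.ext_mem fun q => ?_
    constructor
    · intro hq
      exact key q hq
    · intro hq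
      exact RO.mem_down (show e (π q) ∈ U from hq) (h.ep q)

end TR0_

open TR0_ in
/-- TR0: every regular set has a level -/
theorem p_TR0 : T_TR0 := by
  intro L Ω P0 _ _ _ _ _ _ T π hE hbdd hccc U
  obtain ⟨A, hAU, hanti, hmax⟩ := exists_anti U
  have hcount : Countable A := by
    refine hccc A (fun a => a.1) ?_
    rintro ⟨a, ha⟩ ⟨b, hb⟩ hab
    exact hanti a ha b hb (fun h => hab (Subtype.ext h))
  have hlim := isSuccLimit_top (L := L)
  have hl : ∀ a : T.A ⊤, ∃ (l : L) (p : T.A l), T.e l ⊤ le_top p = a := by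
    intro a
    obtain ⟨i, hi, p, hp⟩ := T.lim ⊤ hlim a
    have h1 : i ≠ ⊤ := hi.ne
    lift i to L using h1
    exact ⟨i, p, hp⟩
  choose l p hlp using hl
  have hb : ∃ b : L, ∀ a ∈ A, l a ≤ b := by
    rcases A.eq_empty_or_nonempty with h | h
    · exact ⟨⊥, fun a ha => absurd ha (by rw [h]; exact Set.notMem_empty a)⟩
    · have : Nonempty A := h.to_subtype
      obtain ⟨f, hf⟩ := exists_surjective_nat A
      obtain ⟨b, hb⟩ := hbdd (fun n => l (f n))
      refine ⟨b, fun a ha => ?_⟩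
      obtain ⟨n, hn⟩ := hf ⟨a, ha⟩
      have := hb n
      rw [hn] at this
      exact this
  obtain ⟨b, hb⟩ := hb
  refine ⟨b, level (hE b) U A hAU hmax ?_⟩
  intro a ha
  refine ⟨T.e (l a) b (WithTop.coe_le_coe.2 (hb a ha)) (p a), ?_⟩
  rw [T.e_trans]
  exact hlp a

end CofSN
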