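import Pool.Agent.CofSN.Targets

/-!
# MP_3e8648_lc, target TSL: the slaloms of the iteration
-/

set_option autoImplicit false

namespace CofSN

namespace TSL_

/-- composition of embeddings with projections -/
theorem ep_comp {P Q R : Type} [Preorder P] [Preorder Q] [Preorder R] {e₁ : P → Q} {π₁ : Q → P}
    {e₂ : Q → R} {π₂ : R → Q} (h₁ : EP e₁ π₁) (h₂ : EP e₂ π₂) :
    EP (fun p => e₂ (e₁ p)) (fun r => π₁ (π₂ r)) where
  emono _ _ h := h₂.emono (h₁.emono h)
  pmono _ _ h := h₁.pmono (h₂.pmono h)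
  pe p := (h₁.pmono (h₂.pe (e₁ p))).trans (h₁.pe p)
  pe' p := (h₁.pe' p).trans (h₁.pmono (h₂.pe' (e₁ p)))
  ep q := (h₂.ep q).trans (h₂.emono (h₁.ep (π₂ q)))
  lift q p hp := by
    obtain ⟨r, hr, hr2⟩ := h₁.lift (π₂ q) p hp
    obtain ⟨q', hq', hq2⟩ := h₂.lift q r hr
    exact ⟨q', hq', hq2.trans (h₂.emono hr2)⟩

/-- an order isomorphism as an embedding with projection -/
theorem ep_iso {P Q : Type} [Preorder P] [Preorder Q] (s : Q ≃o P) :
    EP (fun p : P => s.symm p) (fun q : Q => s q) where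
  emono _ _ h := s.symm.monotone h
  pmono _ _ h := s.monotone h
  pe p := by simp
  pe' p := by simp
  ep q := by simp
  lift q p hp := ⟨s.symm p, (s.symm_apply_le).2 hp, le_rfl⟩

/-- pulling back the capturing -/
theorem capt_cm {P Q : Type} [Preorder P] [Preorder Q] {e : P → Q} {π : Q → P} (h : EP e π)
    {x : Nm (RO P) ℕ} {S : Nm (RO P) (Finset ℕ)} (hc : Nm.capt x S = ⊤) :
    Nm.capt (x.cm h) (S.cm h) = ⊤ := by
  rw [RO.eq_top_iff'] at hc ⊢
  intro q
  rw [Nm.mem_capt]
  intro q' _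
  obtain ⟨r, hr, m, hm⟩ := Nm.mem_capt.1 (hc (π q')) (π q') le_rfl
  obtain ⟨q'', h1, h2⟩ := h.lift q' r hr
  refine ⟨q'', h1, m, fun n hn s hs a T' ha hT => ?_⟩
  exact hm n hn (π s) ((h.pmono (hs.trans h2)).trans (h.pe r)) a T' ha hT

end TSL_

open TSL_ in
theorem p_TSL (h_EPE : T_EPE) (h_SLN : T_SLN) (h_TEP : T_TEP) : T_TSL := by
  intro L Ω P0 _ _ _ _ _ _ T π hE i f
  have hi : ¬ IsMax (i : WithTop L) := (WithTop.coe_lt_top i).not_isMax
  obtain ⟨π', hE'⟩ := h_TEP (WithTop L) Ω P0 T (Order.succ (i : WithTop L)) ⊤ le_top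
  have h := h_EPE Ω (T.A i)
  obtain ⟨S₀, hS1, hS2⟩ := h_SLN Ω (T.A i) h f
  have hc := ep_comp (ep_iso (T.s i hi)) hE'
  refine ⟨S₀.cm hc, fun n T' hT' => hS1 n T' fun h0 => hT' ?_, fun ξ x hx => ?_⟩
  · refine le_antisymm (fun q hq => ?_) bot_le
    have h1 : (T.s i hi) (π' q) ∈ S₀.v n T' := hq
    rw [h0] at h1
    exact absurd h1 (RO.notMem_bot _)
  · have h1 := capt_cm hc (hS2 ξ x hx)
    have h2 : (x.cm h).cm hc = x.cm (hE i) := by
      ext1
      funext n a
      refine RO.ext_mem fun q => ?_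
      have a1 : ((T.s i hi) (π' q)).p ≤ π i q := by
        have b1 : q ≤ T.e (Order.succ (i : WithTop L)) ⊤ le_top
            (T.e i (Order.succ (i : WithTop L)) (Order.le_succ _) (π i q)) := by
          rw [T.e_trans]
          exact (hE i).ep q
        have b2 := (hE'.pmono b1).trans (hE'.pe _)
        have b3 := (T.s i hi).monotone b2
        rw [T.s_e] at b3
        exact b3.1
      have a2 : π i q ≤ ((T.s i hi) (π' q)).p := by
        have b1 : (T.s i hi) (π' q) ≤ St.emb ((T.s i hi) (π' q)).p := h.ep _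
        rw [← T.s_e (i : WithTop L) hi, OrderIso.le_iff_le] at b1
        have b2 := (hE'.ep q).trans (hE'.emono b1)
        rw [T.e_trans] at b2
        exact ((hE i).pmono b2).trans ((hE i).pe _)
      constructor
      · intro hq
        exact RO.mem_down (U := x.v n a) hq a2
      · intro hq
        exact RO.mem_down (U := x.v n a) hq a1
    rw [← h2]
    exact h1

end CofSN
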