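import Pool.Agent.CofSN.Base
import Pool.Agent.CofSN.Tower

/-!
# MP_3e8648_lc, the cofinality of the strong measure zero ideal can be smaller than the
dominating number: targets (helper90)
-/

set_option autoImplicit false

namespace CofSN

/-! ## Boolean valued strong measure zero sets (any complete Boolean algebra) -/

section BV

variable {B : Type} [CompleteBooleanAlgebra B]

/-- Boolean value of: the finite word `s` is an initial segment of `x` -/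
def ini (s : List Bool) (x : Nm B Bool) : B := ⨅ j : Fin s.length, x.v j (s.get j)

/-- Boolean value of: the word `σ(n)` is an initial segment of `x` -/
def cyl (σ : Nm B (List Bool)) (n : ℕ) (x : Nm B Bool) : B := ⨆ s, σ.v n s ⊓ ini s x

/-- Boolean value of: `x ∈ [σ(n)]` for infinitely many `n` -/
def infv (σ : Nm B (List Bool)) (x : Nm B Bool) : B := ⨅ m, ⨆ n, ⨆ (_ : m ≤ n), cyl σ n x

/-- Boolean value of: `σ(n)` has length at least `f(n)`, for all `n` -/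
def ht (f : Nm B ℕ) (σ : Nm B (List Bool)) : B :=
  ⨅ n, Nm.rel (fun k s => k ≤ s.length) f σ n n

/-- Boolean value of: `σ(n)` has length at least `f(n)`, for all but finitely many `n` -/
def htS (f : Nm B ℕ) (σ : Nm B (List Bool)) : B :=
  ⨆ m, ⨅ n, ⨅ (_ : m ≤ n), Nm.rel (fun k s => k ≤ s.length) f σ n n

/-- a Boolean valued subset of the Cantor space -/
structure BSet (B : Type) [CompleteBooleanAlgebra B] where
  v : Nm B Bool → B
  ext : ∀ x y, v x ⊓ x.eqv y ≤ v y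

/-- Boolean value of `X ⊆ Y` -/
def Sub (X Y : BSet B) : B := ⨅ x, (X.v x ⇨ Y.v x)

/-- Boolean value of: `X` has strong measure zero -/
def SN (X : BSet B) : B :=
  ⨅ f : Nm B ℕ, ⨆ σ : Nm B (List Bool), ht f σ ⊓ ⨅ x, (X.v x ⇨ ⨆ n, cyl σ n x)

/-- Boolean value of: every word of `σ` lets `X` be covered infinitely often -/
def SubI (X : BSet B) (σ : Nm B (List Bool)) : B := ⨅ x, (X.v x ⇨ infv σ x)

end BV

/-- MIX: the maximum principle for names -/
def T_MIX : Prop := ∀ (B : Type) [CompleteBooleanAlgebra B] (α : Type) [Inhabited α]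
  (φ : Nm B α → B), (∀ x y, φ x ⊓ x.eqv y ≤ φ y) → ∃ x, ⨆ y, φ y ≤ φ x

/-- SNI (from MIX): infinitely often covers -/
def T_SNI : Prop := ∀ (P : Type) [Preorder P] (X : BSet (RO P)) (f : Nm (RO P) ℕ),
  ∃ σ : Nm (RO P) (List Bool), SN X ≤ ht f σ ⊓ SubI X σ

/-! ## Levels -/

/-- an increasing sequence of complete subalgebras of `RO P` with uncountable cofinality -/
structure Lev (L P : Type) [LinearOrder L] [Preorder P] where
  Lv : L → Set (RO P)
  mono : ∀ i j, i ≤ j → Lv i ⊆ Lv j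
  sup : ∀ i S, S ⊆ Lv i → sSup S ∈ Lv i
  cpl : ∀ i U, U ∈ Lv i → Uᶜ ∈ Lv i
  all : ∀ U, ∃ i, U ∈ Lv i
  bdd : ∀ s : ℕ → L, ∃ b, ∀ n, s n ≤ b

/-- a name of level `i` -/
def Lev.In {L P : Type} [LinearOrder L] [Preorder P] (Λ : Lev L P) {α : Type} (i : L)
    (x : Nm (RO P) α) : Prop := ∀ n a, x.v n a ∈ Λ.Lv i

/-- INX: every name with countably many values has a level -/
def T_INX : Prop := ∀ (L P : Type) [LinearOrder L] [Preorder P] (Λ : Lev L P) (α : Type)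
  [Countable α] (x : Nm (RO P) α), ∃ i, Λ.In i x

/-- INP: levels are closed under the operations -/
def T_INP : Prop := ∀ (L P : Type) [LinearOrder L] [Preorder P] (Λ : Lev L P) (α β : Type)
  (i : L), (∀ (x : Nm (RO P) α) (y : Nm (RO P) β), Λ.In i x → Λ.In i y →
    Λ.In i (Nm.pair x y)) ∧
  (∀ (x : Nm (RO P) α) (N : ℕ → ℕ) (G : (n : ℕ) → (Fin (N n) → α) → β), Λ.In i x →
    Λ.In i (Nm.push N G x))

/-- slaloms capture the reals of every level -/
def Slal {L P : Type} [LinearOrder L] [Preorder P] (Λ : Lev L P) : Prop :=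
  ∀ (i : L) (f : L → Nm (RO P) ℕ), (∀ ξ, Λ.In i (f ξ)) → ∃ S : Nm (RO P) (Finset ℕ),
    (∀ n T, S.v n T ≠ ⊥ → T.card ≤ n + 1) ∧
    ∀ ξ (x : Nm (RO P) ℕ), Λ.In i x → Nm.leA x (f ξ) = ⊤ → Nm.capt x S = ⊤

/-- `f(0), …, f((n+1)² - 1)` have maximum `(up f)(n)` -/
noncomputable def up {P : Type} [Preorder P] (f : Nm (RO P) ℕ) : Nm (RO P) ℕ :=
  Nm.push (fun n => (n + 1) ^ 2) (fun _ s => Finset.univ.sup s) f

/-- TAU (from INP): small covers which swallow all finer covers of the level -/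
def T_TAU : Prop := ∀ (L P : Type) [LinearOrder L] [Preorder P] (Λ : Lev L P), Slal Λ →
  ∀ (i : L) (f : Nm (RO P) ℕ), Λ.In i f → ∃ τ : Nm (RO P) (List Bool), ht f τ = ⊤ ∧
    ∀ σ : Nm (RO P) (List Bool), Λ.In i σ → ∀ x, htS (up f) σ ⊓ infv σ x ≤ infv τ x

/-- COF (from TAU, SNI, INX, INP): the strong measure zero sets have a small cofinal family -/
def T_COF : Prop := ∀ (L P : Type) [LinearOrder L] [WellFoundedLT L] [Preorder P]
  (Λ : Lev L P), Slal Λ → ∃ Y : (L → L) → BSet (RO P), (∀ h, SN (Y h) = ⊤) ∧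
    ∀ X : BSet (RO P), SN X ≤ ⨆ h, Sub X (Y h)

/-! ## Few -/

/-- at most as many elements as `K` -/
def Few (K : Type) {Θ : Type} (S : Set Θ) : Prop := Cardinal.mk S ≤ Cardinal.mk K

/-- `p` decides the value `k` of the `η`-th basic real at `n` -/
def Dc {P0 P Θ : Type} [Preorder P] (D : Θ → ℕ → ℕ → P0 → Prop) (e : P0 → P) (η : Θ)
    (n k : ℕ) (p : P) : Prop := ∃ p0, D η n k p0 ∧ p ≤ e p0

/-- every real of `P` dominates only few of the basic reals -/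
def R3 (K : Type) {P0 P Θ : Type} [Preorder P] (D : Θ → ℕ → ℕ → P0 → Prop) (e : P0 → P) :
    Prop := ∀ g : Nm (RO P) ℕ, Few K {η : Θ | ∃ p : P, ∃ m, ∀ n, m ≤ n → ∀ q ≤ p, ∀ k l,
      Dc D e η n k q → q ∈ g.v n l → k ≤ l}

/-- LIM: direct limits of length at most `K` -/
def T_LIM : Prop := ∀ (K Θ P0 ι P : Type) [Infinite K] [Preorder P] (A : ι → Type)
  [∀ i, Preorder (A i)] (e : ∀ i, A i → P) (π : ∀ i, P → A i)
  (D : Θ → ℕ → ℕ → P0 → Prop) (e0 : P0 → P) (e1 : ∀ i, P0 → A i),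
  Cardinal.mk ι ≤ Cardinal.mk K → (∀ i, EP (e i) (π i)) → (∀ p, ∃ i a, e i a = p) →
  (∀ i p, e i (e1 i p) = e0 p) → (∀ i, R3 K D (e1 i)) → R3 K D e0

/-- DEL: the Δ-system lemma -/
def T_DEL : Prop := ∀ (ι α : Type) (F : ι → Finset α), ¬ Countable ι →
  ∃ (S : Set ι) (r : Finset α), ¬ S.Countable ∧
    ∀ i ∈ S, ∀ j ∈ S, i ≠ j → ((F i : Set α) ∩ (F j : Set α)) = (r : Set α)

/-! ## The successor step -/

/-- EPE: the embedding of `P` in `St Ω P` -/
def T_EPE : Prop := ∀ (Ω P : Type) [Preorder P],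
  EP (St.emb : P → St Ω P) (fun c : St Ω P => c.p)

/-- EXT: stems can be made long -/
def T_EXT : Prop := ∀ (Ω P : Type) [Preorder P] (c : St Ω P)
  (I : Set (Ω → Nm (RO P) ℕ)) (N : ℕ), I.Finite → ∃ c' : St Ω P, c' ≤ c ∧ c'.pr = c.pr ∧
    (∀ i ∈ I, N ≤ (c'.st i).length) ∧ ∀ i, i ∉ I → c'.st i = c.st i

/-- CSU (from EXT, DEL): the countable chain condition -/
def T_CSU : Prop := ∀ (Ω P : Type) [Preorder P], CCC P → CCC (St Ω P)

/-- SLN (from EXT): the generic slaloms are names which capture -/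
def T_SLN : Prop := ∀ (Ω P : Type) [Preorder P] (h : EP (St.emb : P → St Ω P) (fun c => c.p))
  (i : Ω → Nm (RO P) ℕ), ∃ S : Nm (RO (St Ω P)) (Finset ℕ),
    (∀ n T, S.v n T ≠ ⊥ → T.card ≤ n + 1) ∧
    ∀ ξ (x : Nm (RO P) ℕ), Nm.leA x (i ξ) = ⊤ → Nm.capt (x.cm h) S = ⊤

open Classical in
/-- restriction to a set of indices -/
noncomputable def St.res {Ω P : Type} [Preorder P] (J : Set (Ω → Nm (RO P) ℕ)) (c : St Ω P) :
    St Ω P where
  p := c.p
  st i := if i ∈ J then c.st i else []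
  pr i := if i ∈ J then c.pr i else []
  fin := c.fin.subset fun i hi => by
    by_cases h : i ∈ J
    · simpa [h] using hi
    · simp [h] at hi
  card i n h := by
    by_cases hJ : i ∈ J
    · simp only [hJ, if_true] at h ⊢
      exact c.card i n h
    · simp [hJ] at h
  len i := by
    by_cases hJ : i ∈ J
    · simp only [hJ, if_true]
      exact c.len i
    · simp [hJ]
  bd i y hy := by
    by_cases hJ : i ∈ J
    · simp only [hJ, if_true] at hy
      exact c.bd i y hy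
    · simp [hJ] at hy

/-- SUP: regular sets have countable support -/
def T_SUP : Prop := ∀ (Ω P : Type) [Preorder P], CCC (St Ω P) → ∀ U : RO (St Ω P),
  ∃ J : Set (Ω → Nm (RO P) ℕ), J.Countable ∧ ∀ J', J ⊆ J' →
    ∀ c, (c ∈ U ↔ St.res J' c ∈ U)

/-- the type of a condition: stems and indices of the promises -/
def ty {Ω P : Type} [Preorder P] (c : St Ω P) (i : Ω → Nm (RO P) ℕ) :
    List (Finset ℕ) × List Ω := (c.st i, (c.pr i).map Prod.fst)

/-- Boolean value of `g(n) > j` -/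
def gtv {Q : Type} [Preorder Q] (g : Nm (RO Q) ℕ) (n j : ℕ) : RO Q := ⨆ l, ⨆ (_ : j < l), g.v n l

/-- Boolean value (in `P`) of: some condition of type `t` forces `g(n) > j` -/
def Ety {Ω P : Type} [Preorder P] (g : Nm (RO (St Ω P)) ℕ)
    (t : (Ω → Nm (RO P) ℕ) → List (Finset ℕ) × List Ω) (n j : ℕ) : RO P :=
  RO.gen {p | ∃ c : St Ω P, c.p = p ∧ ty c = t ∧ c ∈ gtv g n j}

/-- BRA: names of branches -/
def T_BRA : Prop := ∀ (P κ : Type) [Preorder P] [Countable κ] [Inhabited κ]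
  (Lt : List κ → RO P), (∀ σ, Lt σ ≤ ⨆ a, Lt (σ ++ [a])) → ∃ z : Nm (RO P) κ,
    (∀ p ∈ Lt [], ∀ σ : List κ, (∀ (k : ℕ) (h : k < σ.length), p ∈ z.v k (σ[k])) →
      p ∈ Lt σ) ∧ ∀ p ∈ (Lt [])ᶜ, ∀ n, p ∈ z.v n default

/-- CPT (from BRA, EXT): compactness of the promises -/
def T_CPT : Prop := ∀ (Ω P : Type) [Preorder P] (g : Nm (RO (St Ω P)) ℕ)
  (t : (Ω → Nm (RO P) ℕ) → List (Finset ℕ) × List Ω) (n : ℕ) (p : P),
  ¬ ∀ j, p ∈ Ety g t n j

/-- ST3 (from CPT, SUP): the successor step adds no real dominating many basic reals -/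
def T_ST3 : Prop := ∀ (K Θ P0 Ω P : Type) [Infinite K] [Preorder P]
  (D : Θ → ℕ → ℕ → P0 → Prop) (e0 : P0 → P), Cardinal.mk Ω ≤ Cardinal.mk K →
  CCC (St Ω P) → R3 K D e0 → R3 K D (fun p => (St.emb (e0 p) : St Ω P))

/-! ## Cohen reals -/

/-- finite pieces of `Θ` functions from `ℕ` to `ℕ` -/
@[ext] structure Co (Θ : Type) where
  f : Θ × ℕ → Option ℕ
  fin : {x | f x ≠ none}.Finite

instance (Θ : Type) : Preorder (Co Θ) where
  le q p := ∀ x k, p.f x = some k → q.f x = some k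
  le_refl _ _ _ h := h
  le_trans _ _ _ h1 h2 x k h := h1 x k (h2 x k h)

/-- the condition decides the value -/
def Co.D {Θ : Type} (η : Θ) (n k : ℕ) (p : Co Θ) : Prop := p.f (η, n) = some k

/-- COC (from DEL): chain condition -/
def T_COC : Prop := ∀ Θ : Type, CCC (Co Θ)

/-- CO3 (from COC): every real dominates only countably many Cohen reals -/
def T_CO3 : Prop := ∀ (K Θ : Type) [Infinite K], R3 K (Co.D (Θ := Θ)) (id : Co Θ → Co Θ)

/-! ## The tower -/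

section tower

/-- TEP (from EPE): projections -/
def T_TEP : Prop := ∀ (J Ω P0 : Type) [LinearOrder J] [OrderBot J] [SuccOrder J]
  [WellFoundedLT J] [Preorder P0] (T : Tower J Ω P0) (i j : J) (h : i ≤ j),
  ∃ π, EP (T.e i j h) π

/-- TCC (from CSU): chain condition at countable stages -/
def T_TCC : Prop := ∀ (J Ω P0 : Type) [LinearOrder J] [OrderBot J] [SuccOrder J]
  [WellFoundedLT J] [Preorder P0] (T : Tower J Ω P0), CCC P0 →
  ∀ j, (Set.Iio j).Countable → CCC (T.A j)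

/-- TCT (from TEP, TCC): chain condition at stage `ω₁` -/
def T_TCT : Prop := ∀ (L Ω P0 : Type) [LinearOrder L] [OrderBot L] [SuccOrder L]
  [NoMaxOrder L] [WellFoundedLT L] [Preorder P0] (T : Tower (WithTop L) Ω P0),
  (∀ i : L, (Set.Iio i).Countable) → (∀ s : ℕ → L, ∃ b, ∀ n, s n ≤ b) → CCC P0 → CCC (T.A ⊤)

/-- TR3 (from TEP, LIM, ST3): few dominated basic reals at all stages -/
def T_TR3 : Prop := ∀ (K J Ω Θ P0 : Type) [Infinite K] [LinearOrder J] [OrderBot J]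
  [SuccOrder J] [WellFoundedLT J] [Preorder P0] (T : Tower J Ω P0)
  (D : Θ → ℕ → ℕ → P0 → Prop), Cardinal.mk Ω ≤ Cardinal.mk K → Cardinal.mk J ≤ Cardinal.mk K →
  (∀ j, CCC (T.A j)) → R3 K D (id : P0 → P0) →
  ∀ j, R3 K D (fun p => T.e ⊥ j bot_le (T.z.symm p))

/-- TR0 (from TEP): every regular set has a level -/
def T_TR0 : Prop := ∀ (L Ω P0 : Type) [LinearOrder L] [OrderBot L] [SuccOrder L]
  [NoMaxOrder L] [WellFoundedLT L] [Preorder P0] (T : Tower (WithTop L) Ω P0)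
  (π : ∀ i : L, T.A ⊤ → T.A i) (hE : ∀ i : L, EP (T.e i ⊤ le_top) (π i)),
  (∀ s : ℕ → L, ∃ b, ∀ n, s n ≤ b) → CCC (T.A ⊤) →
  ∀ U : RO (T.A ⊤), ∃ (i : L) (U' : RO (T.A i)), U = RO.cm (hE i) U'

/-- TSL (from SLN, TEP): the slaloms -/
def T_TSL : Prop := ∀ (L Ω P0 : Type) [LinearOrder L] [OrderBot L] [SuccOrder L]
  [NoMaxOrder L] [WellFoundedLT L] [Preorder P0] (T : Tower (WithTop L) Ω P0)
  (π : ∀ i : L, T.A ⊤ → T.A i) (hE : ∀ i : L, EP (T.e i ⊤ le_top) (π i)) (i : L)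
  (f : Ω → Nm (RO (T.A i)) ℕ), ∃ S : Nm (RO (T.A ⊤)) (Finset ℕ),
    (∀ n T', S.v n T' ≠ ⊥ → T'.card ≤ n + 1) ∧
    ∀ ξ (x : Nm (RO (T.A i)) ℕ), Nm.leA x (f ξ) = ⊤ → Nm.capt (x.cm (hE i)) S = ⊤

end tower

/-- CMH: preimages under projections preserve the operations; images are levels -/
def T_CMH : Prop := ∀ (P Q : Type) [Preorder P] [Preorder Q] (e : P → Q) (π : Q → P)
  (h : EP e π), (∀ U : RO P, RO.cm h Uᶜ = (RO.cm h U)ᶜ) ∧
  (∀ S : Set (RO P), RO.cm h (sSup S) = sSup (RO.cm h '' S)) ∧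
  (∀ U V : RO P, RO.cm h U = RO.cm h V → U = V) ∧
  (∀ (α : Type) (x : Nm (RO Q) α), (∀ n a, x.v n a ∈ Set.range (RO.cm h)) →
    ∃ y : Nm (RO P) α, x = y.cm h) ∧
  (∀ x y : Nm (RO P) ℕ, Nm.leA (x.cm h) (y.cm h) = RO.cm h (Nm.leA x y)) ∧
  ∀ (x : Nm (RO P) ℕ) (S : Nm (RO P) (Finset ℕ)),
    Nm.capt (x.cm h) (S.cm h) = RO.cm h (Nm.capt x S)

/-- WOR: the first uncountable ordinal -/
def T_WOR : Prop := ∃ (L : Type) (_ : LinearOrder L) (_ : OrderBot L) (_ : SuccOrder L)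
  (_ : NoMaxOrder L) (_ : WellFoundedLT L), Infinite L ∧
  (∀ i : L, (Set.Iio i).Countable) ∧ ∀ s : ℕ → L, ∃ b, ∀ n, s n ≤ b

/-- FIN (from everything): the theorem -/
def T_FIN : Prop := ∃ (B : Type) (_ : CompleteBooleanAlgebra B) (I : Type), (⊥ : B) ≠ ⊤ ∧
  (∃ Y : I → BSet B, (∀ i, SN (Y i) = ⊤) ∧ ∀ X : BSet B, SN X ≤ ⨆ i, Sub X (Y i)) ∧
  ∀ g : I → Nm B ℕ, ⨆ f : Nm B ℕ, ⨅ i, (Nm.leS f (g i))ᶜ = ⊤

end CofSN
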