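import Pool.Agent.CofSN.Targets

/-!
# MP_3e8648_lc, target WOR: the first uncountable ordinal (helper84)
-/

set_option autoImplicit false

namespace CofSN

namespace WOR_

/-- a countable set of points of an uncountable linear order with countable initial segments
has a strict upper bound -/
theorem bound {L : Type} [LinearOrder L] (hu : ¬ Countable L)
    (hc : ∀ i : L, (Set.Iio i).Countable) (s : ℕ → L) : ∃ b, ∀ n, s n < b := by
  by_contra hcon
  push Not at hcon
  apply hu
  have h1 : (⋃ n, Set.Iic (s n)).Countable := by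
    refine Set.countable_iUnion fun n => ?_
    have h2 : Set.Iic (s n) = Set.Iio (s n) ∪ {s n} := by
      ext x
      simp [le_iff_lt_or_eq]
    rw [h2]
    exact (hc (s n)).union (Set.countable_singleton _)
  have h3 : (⋃ n, Set.Iic (s n)) = Set.univ := by
    ext x
    simp only [Set.mem_iUnion, Set.mem_Iic, Set.mem_univ, iff_true]
    obtain ⟨n, hn⟩ := hcon x
    exact ⟨n, hn⟩
  rw [h3] at h1
  exact Set.countable_univ_iff.1 h1

end WOR_

/-- WOR: the first uncountable ordinal -/
theorem p_WOR : T_WOR := by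
  have hcard : Cardinal.mk (Cardinal.aleph 1).ord.ToType = Cardinal.aleph 1 := by simp
  have hu : ¬ Countable (Cardinal.aleph 1).ord.ToType := by
    intro h
    have h1 : Cardinal.mk (Cardinal.aleph 1).ord.ToType ≤ Cardinal.aleph0 :=
      Cardinal.mk_le_aleph0_iff.2 h
    rw [hcard] at h1
    exact absurd h1 (not_le.2 Cardinal.aleph0_lt_aleph_one)
  have hc : ∀ i : (Cardinal.aleph 1).ord.ToType, (Set.Iio i).Countable := by
    intro i
    have h0 : (Cardinal.mk (Cardinal.aleph 1).ord.ToType).ord =
        Ordinal.type (fun x y : (Cardinal.aleph 1).ord.ToType => x < y) := by simp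
    have h1 : Cardinal.mk (Set.Iio i) < Cardinal.aleph 1 :=
      (Cardinal.mk_Iio_lt i h0).trans_eq hcard
    have h2 : Cardinal.mk (Set.Iio i) ≤ Cardinal.aleph0 := by
      have h3 : Cardinal.aleph 1 = Order.succ Cardinal.aleph0 := by
        rw [← Cardinal.aleph_zero, Cardinal.succ_aleph]
        simp
      exact Order.lt_succ_iff.1 (h1.trans_eq h3)
    exact Cardinal.mk_le_aleph0_iff.1 h2
  have hne : Nonempty (Cardinal.aleph 1).ord.ToType := by
    by_contra h
    exact hu (@Finite.to_countable _ (@Finite.of_subsingleton _ ⟨fun a => absurd ⟨a⟩ h⟩))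
  refine ⟨(Cardinal.aleph 1).ord.ToType, inferInstance, WellFoundedLT.toOrderBot _,
    SuccOrder.ofLinearWellFoundedLT _, ?_, inferInstance, ?_, hc, ?_⟩
  · exact ⟨fun a => by
      obtain ⟨b, hb⟩ := WOR_.bound hu hc (fun _ => a)
      exact ⟨b, hb 0⟩⟩
  · by_contra h
    rw [not_infinite_iff_finite] at h
    exact hu Finite.to_countable
  · intro s
    obtain ⟨b, hb⟩ := WOR_.bound hu hc s
    exact ⟨b, fun n => (hb n).le⟩

end CofSN
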